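import Pool.Agent.Lib.MP_1a91b9_nt.Residue

/-!
# JOB QD: Hensel's lemma for a quartic in the completion

`A + B m + C m² + D m³ + F m⁴ = 0` with `v(A) < 1`, `v(B) = 1`, `C, D, F` integral has a solution
with `v(m) < 1`. Newton iteration / contraction: `Φ(x) = -(A + C x² + D x³ + F x⁴)/B` maps
`{v(x) < 1}` to itself and `v(Φ(x) - Φ(y)) ≤ v(x - y) * max(v(x), v(y)) ≤ exp (-1) v(x - y)`
(values are `exp` of integers). Iterates `x_{n+1} = Φ(x_n)`, `x_0 = 0`, satisfy
`v(x_{n+1} - x_n) ≤ exp (-n)`, a Cauchy sequence in the complete field (`CompleteSpace`,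
`Valued.mem_nhds`, `Valued.cauchy_iff`), the limit `m` has `v(m) < 1` (closed) and `Φ(m) = m`.
-/

set_option autoImplicit false

namespace Pool.Agent.Lib.MP_1a91b9_ntT.S9

open NumberField IsDedekindDomain WithZero

variable {N : Type*} [Field N] [NumberField N]

private theorem qd_id {L : Type*} [Field L] (A B C D F x y : L) (hB0 : B ≠ 0) :
    -(A + C * x ^ 2 + D * x ^ 3 + F * x ^ 4) / B -
      -(A + C * y ^ 2 + D * y ^ 3 + F * y ^ 4) / B =
      -((C * (x + y) + D * (x ^ 2 + x * y + y ^ 2) +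
        F * (x ^ 3 + x ^ 2 * y + x * y ^ 2 + y ^ 3)) * (x - y)) / B := by
  field_simp
  ring

private theorem qd_fin {L : Type*} [Field L] (A B C D F m : L)
    (h : -(A + C * m ^ 2 + D * m ^ 3 + F * m ^ 4) = m * B) :
    A + B * m + C * m ^ 2 + D * m ^ 3 + F * m ^ 4 = 0 := by
  linear_combination -h

private theorem qd_cont {L : Type*} [Field L] [TopologicalSpace L] [IsTopologicalRing L]
    (A B C D F : L) :
    Continuous fun x : L => -(A + C * x ^ 2 + D * x ^ 3 + F * x ^ 4) / B := by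
  simp only [div_eq_mul_inv]
  fun_prop

private theorem qd_nonarch (v : HeightOneSpectrum (𝓞 N)) :
    NonarchimedeanAddGroup (v.adicCompletion N) where
  is_nonarchimedean U hU := by
    obtain ⟨γ, hγ⟩ := Valued.mem_nhds_zero.mp hU
    exact ⟨⟨(Valued.v.restrict).ltAddSubgroup γ, Valued.isOpen_ball _ _⟩, hγ⟩

private theorem qd_nhds (v : HeightOneSpectrum (𝓞 N)) {U : Set (v.adicCompletion N)}
    (hU : U ∈ nhds (0 : v.adicCompletion N)) :
    ∃ k : ℤ, ∀ x : v.adicCompletion N, Valued.v x < exp k → x ∈ U := by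
  obtain ⟨γ, hγ⟩ := Valued.mem_nhds_zero.mp hU
  have h0 : MonoidWithZeroHom.ValueGroup₀.embedding (γ : MonoidWithZeroHom.ValueGroup₀
      (.ofClass (Valued.v (R := v.adicCompletion N)))) ≠ 0 := by
    rw [Ne, map_eq_zero]
    exact γ.ne_zero
  refine ⟨log (MonoidWithZeroHom.ValueGroup₀.embedding (γ : MonoidWithZeroHom.ValueGroup₀
      (.ofClass (Valued.v (R := v.adicCompletion N))))), fun x hx => hγ ?_⟩
  rw [exp_log h0] at hx
  exact (Valuation.restrict_lt_iff_lt_embedding _).mpr hx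

private theorem qd_le (a : ℤᵐ⁰) (h : a < 1) : a ≤ exp (-1 : ℤ) := by
  rcases eq_or_ne a 0 with rfl | h0
  · exact zero_le
  · rw [← exp_log h0] at h ⊢
    rw [← exp_zero, exp_lt_exp] at h
    rw [exp_le_exp]
    omega

private theorem qd_step (v : HeightOneSpectrum (𝓞 N)) (B C D F x y : v.adicCompletion N) (A : v.adicCompletion N)
    (hB : Valued.v B = 1) (hC : Valued.v C ≤ 1) (hD : Valued.v D ≤ 1)
    (hF : Valued.v F ≤ 1) (hx : Valued.v x < 1) (hy : Valued.v y < 1) :
    Valued.v (-(A + C * x ^ 2 + D * x ^ 3 + F * x ^ 4) / B -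
      -(A + C * y ^ 2 + D * y ^ 3 + F * y ^ 4) / B) ≤ exp (-1 : ℤ) * Valued.v (x - y) := by
  have hx1 := hx.le
  have hy1 := hy.le
  have hB0 : B ≠ 0 := by
    intro h
    rw [h, map_zero] at hB
    exact zero_ne_one hB
  have e := qd_id A B C D F x y hB0
  have h1 : Valued.v (x + y) < 1 := Valuation.map_add_lt _ hx hy
  have px : ∀ n : ℕ, Valued.v (x ^ n) ≤ 1 := fun n => by
    rw [map_pow]
    exact pow_le_one' hx1 n
  have py : ∀ n : ℕ, Valued.v (y ^ n) ≤ 1 := fun n => by
    rw [map_pow]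
    exact pow_le_one' hy1 n
  have m1 : ∀ a b : v.adicCompletion N, Valued.v a < 1 → Valued.v b ≤ 1 → Valued.v (a * b) < 1 := by
    intro a b ha hb
    rw [map_mul]
    exact mul_lt_one_of_lt_of_le ha hb
  have m2 : ∀ a b : v.adicCompletion N, Valued.v a ≤ 1 → Valued.v b < 1 → Valued.v (a * b) < 1 := by
    intro a b ha hb
    rw [mul_comm]
    exact m1 b a hb ha
  have pxs : ∀ n : ℕ, Valued.v (x ^ (n + 1)) < 1 := fun n => by
    rw [pow_succ]
    exact m2 _ _ (px n) hx
  have pys : ∀ n : ℕ, Valued.v (y ^ (n + 1)) < 1 := fun n => by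
    rw [pow_succ]
    exact m2 _ _ (py n) hy
  have h2 : Valued.v (x ^ 2 + x * y + y ^ 2) < 1 :=
    Valuation.map_add_lt _ (Valuation.map_add_lt _ (pxs 1) (m1 _ _ hx hy1)) (pys 1)
  have h3 : Valued.v (x ^ 3 + x ^ 2 * y + x * y ^ 2 + y ^ 3) < 1 :=
    Valuation.map_add_lt _ (Valuation.map_add_lt _ (Valuation.map_add_lt _ (pxs 2)
      (m1 _ _ (pxs 1) hy1)) (m1 _ _ hx (py 2))) (pys 2)
  have h4 : Valued.v (C * (x + y) + D * (x ^ 2 + x * y + y ^ 2) +
        F * (x ^ 3 + x ^ 2 * y + x * y ^ 2 + y ^ 3)) < 1 :=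
    Valuation.map_add_lt _ (Valuation.map_add_lt _ (m2 _ _ hC h1) (m2 _ _ hD h2)) (m2 _ _ hF h3)
  rw [e, map_div₀, hB, div_one, Valuation.map_neg, map_mul]
  exact mul_le_mul_left (qd_le _ h4) _

private theorem qd_maps (v : HeightOneSpectrum (𝓞 N)) (A B C D F x : v.adicCompletion N)
    (hA : Valued.v A < 1) (hB : Valued.v B = 1) (hC : Valued.v C ≤ 1) (hD : Valued.v D ≤ 1)
    (hF : Valued.v F ≤ 1) (hx : Valued.v x < 1) :
    Valued.v (-(A + C * x ^ 2 + D * x ^ 3 + F * x ^ 4) / B) < 1 := by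
  have px : ∀ n : ℕ, Valued.v (x ^ (n + 1)) < 1 := fun n => by
    rw [map_pow]
    exact pow_lt_one' hx (Nat.succ_ne_zero n)
  have m2 : ∀ a b : v.adicCompletion N, Valued.v a ≤ 1 → Valued.v b < 1 → Valued.v (a * b) < 1 := by
    intro a b ha hb
    rw [mul_comm, map_mul]
    exact mul_lt_one_of_lt_of_le hb ha
  rw [map_div₀, hB, div_one, Valuation.map_neg]
  exact Valuation.map_add_lt _ (Valuation.map_add_lt _ (Valuation.map_add_lt _ hA
    (m2 _ _ hC (px 1))) (m2 _ _ hD (px 2))) (m2 _ _ hF (px 3))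

theorem hensel_small (v : HeightOneSpectrum (𝓞 N)) (A B C D F : v.adicCompletion N)
    (hA : Valued.v A < 1) (hB : Valued.v B = 1) (hC : Valued.v C ≤ 1) (hD : Valued.v D ≤ 1)
    (hF : Valued.v F ≤ 1) :
    ∃ m : v.adicCompletion N, Valued.v m < 1 ∧
      A + B * m + C * m ^ 2 + D * m ^ 3 + F * m ^ 4 = 0 := by
  have := qd_nonarch v
  set Φ : v.adicCompletion N → v.adicCompletion N :=
    fun x => -(A + C * x ^ 2 + D * x ^ 3 + F * x ^ 4) / B with hΦ
  have hB0 : B ≠ 0 := by
    intro h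
    rw [h, map_zero] at hB
    exact zero_ne_one hB
  have hΦc : Continuous Φ := qd_cont A B C D F
  let X : ℕ → v.adicCompletion N := fun n => Φ^[n] 0
  have hXs : ∀ n, X (n + 1) = Φ (X n) := fun n => Function.iterate_succ_apply' Φ n 0
  have hX1 : ∀ n, Valued.v (X n) < 1 := by
    intro n
    induction n with
    | zero =>
      show Valued.v (0 : v.adicCompletion N) < 1
      rw [map_zero]
      exact zero_lt_one
    | succ n ih =>
      rw [hXs]
      exact qd_maps v A B C D F _ hA hB hC hD hF ih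
  have hX2 : ∀ n : ℕ, Valued.v (X (n + 1) - X n) ≤ exp (-(n : ℤ)) := by
    intro n
    induction n with
    | zero =>
      rw [Nat.cast_zero, neg_zero, exp_zero]
      exact (Valuation.map_sub_lt _ (hX1 _) (hX1 _)).le
    | succ n ih =>
      have h := qd_step v B C D F (X (n + 1)) (X n) A hB hC hD hF (hX1 _) (hX1 _)
      have h' : Valued.v (X (n + 1 + 1) - X (n + 1)) ≤
          exp (-1 : ℤ) * Valued.v (X (n + 1) - X n) := by
        rw [hXs (n + 1)]
        nth_rewrite 2 [hXs n]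
        exact h
      refine h'.trans ?_
      refine (mul_le_mul_right ih _).trans ?_
      rw [← exp_add, exp_le_exp]
      push_cast
      omega
  have hT : Filter.Tendsto (fun n => X (n + 1) - X n) Filter.atTop (nhds 0) := by
    intro U hU
    obtain ⟨k, hk⟩ := qd_nhds v hU
    rw [Filter.mem_map, Filter.mem_atTop_sets]
    refine ⟨(-k + 1).toNat, fun n hn => hk _ ((hX2 n).trans_lt ?_)⟩
    rw [exp_lt_exp]
    omega
  have hCau : CauchySeq X := NonarchimedeanAddGroup.cauchySeq_of_tendsto_sub_nhds_zero hT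
  obtain ⟨m, hm⟩ := cauchySeq_tendsto_of_complete hCau
  have hm1 : Valued.v m < 1 := by
    have hcl : IsClosed {x : v.adicCompletion N | Valued.v.restrict x < 1} := Valued.isClosed_ball _ _
    have : m ∈ {x : v.adicCompletion N | Valued.v.restrict x < 1} := by
      refine hcl.mem_of_tendsto hm (Filter.Eventually.of_forall fun n => ?_)
      exact (Valuation.restrict_lt_one_iff _).mpr (hX1 n)
    exact (Valuation.restrict_lt_one_iff _).mp this
  have hfix : Φ m = m := by
    have h1 : Filter.Tendsto (fun n => X (n + 1)) Filter.atTop (nhds m) :=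
      hm.comp (Filter.tendsto_add_atTop_nat 1)
    have h2 : Filter.Tendsto (fun n => Φ (X n)) Filter.atTop (nhds (Φ m)) :=
      (hΦc.tendsto m).comp hm
    refine tendsto_nhds_unique ?_ h1
    simp only [hXs]
    exact h2
  refine ⟨m, hm1, ?_⟩
  have h5 : -(A + C * m ^ 2 + D * m ^ 3 + F * m ^ 4) / B = m := hfix
  rw [div_eq_iff hB0] at h5
  exact qd_fin A B C D F m h5

end Pool.Agent.Lib.MP_1a91b9_ntT.S9
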