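import Pool.Agent.Lib.MP_1a91b9_ntT.P.Defs

/-!
# The 2-part of the conjecture of Birch and Swinnerton-Dyer: definitions

`W` is a Weierstrass curve over a number field `N` (an elliptic curve when its discriminant is
non-zero). All definitions are for general `W`.
-/

set_option autoImplicit false

namespace Pool.Agent.Lib.MP_1a91b9_ntT.S9

open NumberField IsDedekindDomain WeierstrassCurve

open scoped Classical

noncomputable section


/-- The points of `W` over an extension `F` of `k`. -/
abbrev Pts {k : Type*} [Field k] (W : WeierstrassCurve k) (F : Type*) [Field F] [Algebra k F] :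
    Type _ :=
  (Affine.baseChange W F).Point

section Sha

variable {k : Type*} [Field k] (W : WeierstrassCurve k)

/-- The absolute Galois group of `k` (all fields below have characteristic zero). -/
abbrev Gal (k : Type*) [Field k] : Type _ := AlgebraicClosure k ≃ₐ[k] AlgebraicClosure k

/-- Continuous 1-cocycles of the absolute Galois group of `k` with values in `W(kbar)`. -/
def coc : AddSubgroup (Gal k → Pts W (AlgebraicClosure k)) where
  carrier := {c | IsLocallyConstant c ∧
    ∀ σ τ : Gal k, c (σ * τ) = c σ + Affine.Point.map (σ : AlgebraicClosure k →ₐ[k] _) (c τ)}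
  zero_mem' := ⟨IsLocallyConstant.const 0, fun σ τ => by simp⟩
  add_mem' := by
    rintro a b ⟨ha, ha'⟩ ⟨hb, hb'⟩
    refine ⟨ha.add hb, fun σ τ => ?_⟩
    simp only [Pi.add_apply, ha', hb', _root_.map_add]
    abel
  neg_mem' := by
    rintro a ⟨ha, ha'⟩
    refine ⟨ha.neg, fun σ τ => ?_⟩
    simp only [Pi.neg_apply, ha', _root_.map_neg]
    abel

/-- The coboundaries. -/
def cob : AddSubgroup (Gal k → Pts W (AlgebraicClosure k)) where
  carrier := {c | ∃ P : Pts W (AlgebraicClosure k),
    ∀ σ : Gal k, c σ = Affine.Point.map (σ : AlgebraicClosure k →ₐ[k] _) P - P}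
  zero_mem' := ⟨0, fun σ => by simp⟩
  add_mem' := by
    rintro a b ⟨P, hP⟩ ⟨Q, hQ⟩
    refine ⟨P + Q, fun σ => ?_⟩
    simp only [Pi.add_apply, hP, hQ, _root_.map_add]
    abel
  neg_mem' := by
    rintro a ⟨P, hP⟩
    refine ⟨-P, fun σ => ?_⟩
    simp only [Pi.neg_apply, hP, _root_.map_neg]
    abel

/-- The cocycles which become trivial over the extension `L` of `k` (a completion of `k` below):
for each embedding `i` of `kbar` in `Lbar` over `k` there is a point `P` over `Lbar` such that
`i (c (σ|kbar)) = σ P - P` for all `σ` in the absolute Galois group of `L`. -/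
def trivOver (L : Type*) [Field L] [Algebra k L] :
    AddSubgroup (Gal k → Pts W (AlgebraicClosure k)) where
  carrier := {c | ∀ i : AlgebraicClosure k →ₐ[k] AlgebraicClosure L,
    ∃ P : Pts W (AlgebraicClosure L), ∀ (σ : Gal L) (τ : Gal k), (∀ x, i (τ x) = σ (i x)) →
      Affine.Point.map i (c τ) =
        Affine.Point.map ((σ : AlgebraicClosure L →ₐ[L] _).restrictScalars k) P - P}
  zero_mem' := fun i => ⟨0, fun σ τ _ => by simp⟩
  add_mem' := by
    intro a b ha hb i
    obtain ⟨P, hP⟩ := ha i
    obtain ⟨Q, hQ⟩ := hb i
    refine ⟨P + Q, fun σ τ h => ?_⟩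
    simp only [Pi.add_apply, _root_.map_add, hP σ τ h, hQ σ τ h]
    abel
  neg_mem' := by
    intro a ha i
    obtain ⟨P, hP⟩ := ha i
    refine ⟨-P, fun σ τ h => ?_⟩
    simp only [Pi.neg_apply, _root_.map_neg, hP σ τ h]
    abel

end Sha

variable {N : Type*} [Field N] [NumberField N] (W : WeierstrassCurve N)

/-- The continuous cocycles which are trivial over all completions of `N`. -/
def shaCoc : AddSubgroup (Gal N → Pts W (AlgebraicClosure N)) :=
  coc W ⊓ (⨅ v : HeightOneSpectrum (𝓞 N), trivOver W (v.adicCompletion N)) ⊓
    ⨅ v : InfinitePlace N, trivOver W v.Completion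

/-- The Tate-Shafarevich group of `W` over `N`: the continuous cocycles which are trivial over all
completions, modulo the coboundaries. -/
abbrev Sha : Type _ := shaCoc W ⧸ (cob W).addSubgroupOf (shaCoc W)

/-- The 2-primary part of the Tate-Shafarevich group. -/
abbrev ShaTwo : Type _ := AddCommGroup.primaryComponent (Sha W) 2

section Local

variable (v : HeightOneSpectrum (𝓞 N))

/-- A change of variables from `W` to a minimal model over the completion at `v` (the one of
Mathlib's definition of the L-function of `W`). -/
def minChange : VariableChange (v.adicCompletion N) :=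
  ((W.baseChange (v.adicCompletion N)).exists_isMinimal (v.adicCompletionIntegers N)).choose

/-- The minimal model at `v`. -/
def minModel : WeierstrassCurve (v.adicCompletion N) :=
  minChange W v • W.baseChange (v.adicCompletion N)

/-- The subgroup (generated by the set) of the points of the minimal model at `v` whose reduction
is non-singular: the point at infinity, the points with non-integral coordinates, and the points at
which one of the two partial derivatives of the equation is a unit. -/
def nonsing : AddSubgroup (minModel W v).toAffine.Point :=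
  AddSubgroup.closure {P | P = 0 ∨ ∃ (x y : v.adicCompletion N)
    (h : (minModel W v).toAffine.Nonsingular x y), P = Affine.Point.some x y h ∧
      (1 < Valued.v x ∨
        Valued.v (2 * y + (minModel W v).a₁ * x + (minModel W v).a₃) = 1 ∨
        Valued.v (3 * x ^ 2 + 2 * (minModel W v).a₂ * x + (minModel W v).a₄ -
          (minModel W v).a₁ * y) = 1)}

/-- The Tamagawa number of `W` at `v`. -/
def tam : ℕ := (nonsing W v).index

/-- The contribution of `v` to the norm of the ideal `a_ω`, where
`ω = dx / (2 y + a₁ x + a₃)` and `a_ω ω` is the module of Neron differentials: it is `q ^ n` where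
`q` is the number of elements of the residue field and `n` the order at `v` of the coefficient `u`
of the change of variables to the minimal model. -/
def normFactor : ℝ :=
  (Ideal.absNorm v.asIdeal : ℝ) ^ (-(WithZero.log
    (Valued.v ((minChange W v).u : v.adicCompletion N))))

end Local

/-- The period `Ω` of `W` over `N`: the norm of `a_ω` times the product over the infinite places
of the integral of `|ω|` (real places) or of `|ω ∧ ωbar|`, `|dz ∧ dzbar| = 2 dx dy` (complex
places). -/
def period : ℝ :=
  (∏ᶠ v : HeightOneSpectrum (𝓞 N), normFactor W v) * ∏ v : InfinitePlace N, Per.perAt W v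

/-- `x` is a non-zero algebraic number which is a unit at all places above `2`: both `x` and its
inverse become algebraic integers after multiplication by an odd integer. -/
def UnitTwo (x : ℝ) : Prop :=
  x ≠ 0 ∧ (∃ m : ℤ, Odd m ∧ IsIntegral ℤ (m * x)) ∧ ∃ m : ℤ, Odd m ∧ IsIntegral ℤ (m * x⁻¹)

/-- The 2-part of the conjecture of Birch and Swinnerton-Dyer for `W` over `N` when the
L-function does not vanish at `1`: the L-series of `W` has an entire continuation `g` with
`g 1 ≠ 0`, the groups `W(N)` and `Sha[2^∞]` are finite, and
`L(W, 1) √|D| / Ω = x * #Sha[2^∞] * ∏ c_v / #W(N)²` with an algebraic number `x` which is a unit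
at all places above `2` (the regulator is `1`). -/
def TwoPart : Prop :=
  ∃ (g : ℂ → ℂ) (x : ℝ), Differentiable ℂ g ∧ (∀ s : ℂ, 3 / 2 < s.re → g s = W.LSeries s) ∧
    g 1 ≠ 0 ∧ Finite W.toAffine.Point ∧ Finite (ShaTwo W) ∧ UnitTwo x ∧
    g 1 * (√|(discr N : ℝ)| : ℝ) / (period W : ℝ) =
      (x * ((Nat.card (ShaTwo W) : ℝ) * ((∏ᶠ v : HeightOneSpectrum (𝓞 N), tam W v : ℕ) : ℝ) /
        (Nat.card W.toAffine.Point : ℝ) ^ 2) : ℝ)

end

end Pool.Agent.Lib.MP_1a91b9_ntT.S9
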