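import Mathlib

/-!
# JOB GD: finite groups in which doubling is surjective have odd order

If `2 ∣ #G` there is an element of order 2 (Cauchy, `exists_prime_addOrderOf_dvd_card`), so
`x ↦ x + x` is not injective, hence not surjective (`Finite.injective_iff_surjective`).
-/

set_option autoImplicit false

namespace Pool.Agent.Lib.MP_1a91b9_ntT.S9

theorem odd_card_of_div {G : Type*} [AddCommGroup G] [Finite G] (h : ∀ x : G, ∃ y, y + y = x) :
    Odd (Nat.card G) := by
  by_contra hodd
  rw [Nat.not_odd_iff_even] at hodd
  have h2 : 2 ∣ Nat.card G := hodd.two_dvd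
  have : Fact (Nat.Prime 2) := ⟨Nat.prime_two⟩
  obtain ⟨x, hx⟩ := exists_prime_addOrderOf_dvd_card' (G := G) 2 h2
  have hsurj : Function.Surjective (fun y : G => y + y) := fun x => h x
  have hinj : Function.Injective (fun y : G => y + y) := Finite.injective_iff_surjective.2 hsurj
  have hxx : x + x = 0 := by
    have h3 : addOrderOf x • x = 0 := addOrderOf_nsmul_eq_zero x
    rw [hx, two_nsmul] at h3
    exact h3
  have hx0 : x = 0 := by
    apply hinj
    change x + x = 0 + 0
    rw [hxx, add_zero]
  rw [hx0, addOrderOf_zero] at hx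
  omega

/-- the index version: `H` of finite index in a group in which doubling is surjective. -/
theorem odd_index_of_div {G : Type*} [AddCommGroup G] (H : AddSubgroup G) [H.FiniteIndex]
    (h : ∀ x : G, ∃ y, y + y = x) : Odd H.index := by
  have : Finite (G ⧸ H) := AddSubgroup.finite_quotient_of_finiteIndex
  have h1 : Odd (Nat.card (G ⧸ H)) := by
    apply odd_card_of_div
    intro x
    obtain ⟨g, rfl⟩ := QuotientAddGroup.mk_surjective x
    obtain ⟨y, hy⟩ := h g
    refine ⟨(y : G ⧸ H), ?_⟩
    rw [← QuotientAddGroup.mk_add, hy]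
  exact h1

end Pool.Agent.Lib.MP_1a91b9_ntT.S9
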