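import Mathlib

/-!
# JOB KA: Kummer theory for a quadratic character

`Ω/k` Galois (infinite), `χ` a character with values `±1`, trivial on `Gal(Ω/M)`, `M/k` finite.
Replace `M` by its normal closure in `Ω` (`IntermediateField.normalClosure`, finite-dimensional,
normal over `k`). For `τ : M ≃ₐ[k] M` let `τ.liftNormal Ω` be an extension to `Ω`
(`AlgEquiv.liftNormal`, `AlgEquiv.liftNormal_commutes`) and `f τ = χ (τ.liftNormal Ω)` as a unit
of `M`. Two extensions of the same `τ` differ by an element fixing `M`, so `χ σ = f (σ|M)` for all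
`σ` (`σ.restrictNormal M`), `f` is multiplicative, and the values `±1` are fixed by all
automorphisms: `f` is a multiplicative 1-cocycle. Hilbert 90
(`groupCohomology.isMulCoboundary₁_of_isMulCocycle₁_of_aut_to_units`): there is a unit `β` of `M`
with `τ β / β = f τ` (or its inverse, which is the same, as `f τ = ±1`). `b = β`.
Alternatively: linear independence of automorphisms (`linearIndependent_monoidHom`) and
`b = ∑_τ f τ * τ z`.
-/

set_option autoImplicit false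

namespace Pool.Agent.Lib.MP_1a91b9_ntT.S9

private theorem ka_congr {k Ω : Type*} [Field k] [Field Ω] [Algebra k Ω]
    (χ : (Ω ≃ₐ[k] Ω) → ℤˣ) (hm : ∀ σ τ, χ (σ * τ) = χ σ * χ τ)
    (N : IntermediateField k Ω)
    (hN : ∀ σ : Ω ≃ₐ[k] Ω, (∀ x ∈ N, σ x = x) → χ σ = 1) (σ τ : Ω ≃ₐ[k] Ω)
    (h : ∀ x ∈ N, σ x = τ x) : χ σ = χ τ := by
  have h1 : χ (τ⁻¹ * σ) = 1 := by
    apply hN
    intro x hx
    rw [AlgEquiv.mul_apply, h x hx]
    exact AlgEquiv.symm_apply_apply τ x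
  have h2 : σ = τ * (τ⁻¹ * σ) := by rw [mul_inv_cancel_left]
  rw [h2, hm, h1, mul_one]

private theorem ka_unit (u : ℤˣ) : u * u = 1 := Int.units_mul_self u

theorem kummer {k Ω : Type*} [Field k] [Field Ω] [Algebra k Ω] [IsGalois k Ω]
    (χ : (Ω ≃ₐ[k] Ω) → ℤˣ) (hm : ∀ σ τ, χ (σ * τ) = χ σ * χ τ)
    (M : IntermediateField k Ω) [FiniteDimensional k M]
    (hM : ∀ σ : Ω ≃ₐ[k] Ω, (∀ x ∈ M, σ x = x) → χ σ = 1) :
    ∃ b : Ω, b ≠ 0 ∧ ∀ σ : Ω ≃ₐ[k] Ω, σ b = (((χ σ : ℤˣ) : ℤ) : Ω) * b := by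
  classical
  obtain ⟨N, hMN, hNn, hNf⟩ : ∃ N : IntermediateField k Ω, M ≤ N ∧ Normal k N ∧ FiniteDimensional k N :=
    ⟨IntermediateField.normalClosure k M Ω, M.le_normalClosure, inferInstance, inferInstance⟩
  have hN : ∀ σ : Ω ≃ₐ[k] Ω, (∀ x ∈ N, σ x = x) → χ σ = 1 := fun σ h => hM σ fun x hx => h x (hMN hx)
  have hcongr := ka_congr χ hm N hN
  obtain ⟨f, hf⟩ : ∃ f : (N ≃ₐ[k] N) → ℤˣ, ∀ τ, f τ = χ (τ.liftNormal Ω) := ⟨_, fun _ => rfl⟩
  have hlift : ∀ (τ : N ≃ₐ[k] N) (x : N), τ.liftNormal Ω (x : Ω) = ((τ x : N) : Ω) := fun τ x =>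
    AlgEquiv.liftNormal_commutes τ Ω x
  have hres : ∀ (σ : Ω ≃ₐ[k] Ω) (x : N), ((σ.restrictNormal N x : N) : Ω) = σ (x : Ω) := fun σ x =>
    AlgEquiv.restrictNormal_commutes σ N x
  have hfr : ∀ σ : Ω ≃ₐ[k] Ω, χ σ = f (σ.restrictNormal N) := by
    intro σ
    rw [hf]
    apply hcongr
    intro x hx
    rw [show x = ((⟨x, hx⟩ : N) : Ω) from rfl, hlift, hres]
  have hfm : ∀ s t : N ≃ₐ[k] N, f (s * t) = f s * f t := by
    intro s t
    rw [hf, hf, hf, ← hm]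
    apply hcongr
    intro x hx
    rw [show x = ((⟨x, hx⟩ : N) : Ω) from rfl, AlgEquiv.mul_apply, hlift, hlift, hlift]
    rfl
  -- a vector with nonzero resolvent
  obtain ⟨v, hv⟩ : ∃ v : (N ≃ₐ[k] N) → (N →* Ω), ∀ τ x, v τ x = ((τ x : N) : Ω) :=
    ⟨fun τ => ((algebraMap N Ω).comp (τ : N →+* N) : N →* Ω), fun _ _ => rfl⟩
  have hvinj : Function.Injective v := by
    intro s t hst
    ext x
    have h1 : v s x = v t x := by rw [hst]
    rw [hv, hv] at h1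
    exact h1
  have hlin : LinearIndependent Ω (fun τ : N ≃ₐ[k] N => (v τ : N → Ω)) :=
    (linearIndependent_monoidHom N Ω).comp v hvinj
  rw [Fintype.linearIndependent_iff] at hlin
  have hex : ∃ z : N, ∑ τ : N ≃ₐ[k] N, (((f τ : ℤˣ) : ℤ) : Ω) * v τ z ≠ 0 := by
    by_contra hcon
    push Not at hcon
    have h0 := hlin (fun τ => (((f τ : ℤˣ) : ℤ) : Ω)) (by
      ext z
      simp only [Finset.sum_apply, Pi.smul_apply, smul_eq_mul, Pi.zero_apply]
      exact hcon z) 1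
    rcases Int.units_eq_one_or (f 1) with h | h
    · simp [h] at h0
    · simp [h] at h0
  obtain ⟨z, hz⟩ := hex
  refine ⟨_, hz, fun σ => ?_⟩
  rw [hfr σ, map_sum, Finset.mul_sum]
  rw [← Equiv.sum_comp (Equiv.mulLeft (σ.restrictNormal N)) (fun τ : N ≃ₐ[k] N =>
    (((f (σ.restrictNormal N) : ℤˣ) : ℤ) : Ω) * ((((f τ : ℤˣ) : ℤ) : Ω) * v τ z))]
  refine Finset.sum_congr rfl fun τ _ => ?_
  rw [map_mul, map_intCast, hv, Equiv.coe_mulLeft, hv, hfm, ← hres σ (τ z), AlgEquiv.mul_apply,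
    ← mul_assoc]
  congr 1
  rw [← Int.cast_mul, ← Units.val_mul, ← mul_assoc, ka_unit, one_mul]

end Pool.Agent.Lib.MP_1a91b9_ntT.S9
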