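import Pool.Agent.Lib.MP_1a91b9_ntT.S9.Defs

/-!
# JOB KB: Galois descent and extension of automorphisms

(fixed_elem) `InfiniteGalois.mem_bot_iff_fixed` and `IntermediateField.mem_bot` (the algebraic
closure in characteristic zero is Galois: instance).
(fixed_pt) apply it to both coordinates; `Affine.Point.map`, `Affine.baseChange_nonsingular`.
(exists_comp) for two embeddings `f g : Ω →ₐ[k] F` of an algebraic normal extension `Ω` of `k` there
is an automorphism `ρ` of `Ω` with `g x = f (ρ x)`: make `F` an `Ω`-algebra through `f`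
(`letI := f.toRingHom.toAlgebra`, `IsScalarTower k Ω F`) and use `AlgHom.restrictNormal g Ω` with
`AlgHom.restrictNormal_commutes`; it is bijective (`AlgHom.normal_bijective` or
`Algebra.IsAlgebraic.bijective_of_isScalarTower`/`AlgEquiv.ofBijective`).
-/

set_option autoImplicit false

namespace Pool.Agent.Lib.MP_1a91b9_ntT.S9

open WeierstrassCurve
open scoped Classical

theorem fixed_elem {k : Type*} [Field k] [CharZero k] (x : AlgebraicClosure k)
    (h : ∀ σ : Gal k, σ x = x) : ∃ y : k, algebraMap k (AlgebraicClosure k) y = x := by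
  have h1 : x ∈ (⊥ : IntermediateField k (AlgebraicClosure k)) :=
    (InfiniteGalois.mem_bot_iff_fixed x).mpr h
  exact IntermediateField.mem_bot.mp h1

/-- The map on points induced by an extension of fields. -/
noncomputable abbrev up {k : Type*} [Field k] (W : WeierstrassCurve k) (F F' : Type*) [Field F]
    [Algebra k F] [Field F'] [Algebra k F'] [Algebra F F'] [IsScalarTower k F F'] :
    Pts W F →+ Pts W F' :=
  Affine.Point.map (IsScalarTower.toAlgHom k F F')

/-- `k ⊆ L`, `W` over `k`: a point over `Lbar` fixed by the Galois group of `L` is defined over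
`L`. -/
theorem fixed_pt {k L : Type*} [Field k] [Field L] [CharZero L] [Algebra k L]
    (W : WeierstrassCurve k) (P : Pts W (AlgebraicClosure L))
    (h : ∀ σ : Gal L,
      Affine.Point.map ((σ : AlgebraicClosure L →ₐ[L] _).restrictScalars k) P = P) :
    ∃ Q : Pts W L, up W L (AlgebraicClosure L) Q = P := by
  match P, h with
  | 0, _ => exact ⟨0, _root_.map_zero _⟩
  | .some x y hP, h =>
    have hx : ∀ σ : Gal L, σ x = x ∧ σ y = y := by
      intro σ
      have h1 := h σ
      rw [Affine.Point.map_some] at h1
      simpa using h1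
    obtain ⟨x', hx'⟩ := fixed_elem x fun σ => (hx σ).1
    obtain ⟨y', hy'⟩ := fixed_elem y fun σ => (hx σ).2
    subst hx'
    subst hy'
    have hns : (Affine.baseChange W L).Nonsingular x' y' :=
      (Affine.baseChange_nonsingular W
        (f := IsScalarTower.toAlgHom k L (AlgebraicClosure L))
        (IsScalarTower.toAlgHom k L (AlgebraicClosure L)).injective x' y').mp hP
    refine ⟨.some x' y' hns, ?_⟩
    show Affine.Point.map (IsScalarTower.toAlgHom k L (AlgebraicClosure L)) _ = _
    rw [Affine.Point.map_some]
    rfl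

theorem exists_comp {k Ω F : Type*} [Field k] [Field Ω] [Algebra k Ω] [Normal k Ω] [Field F]
    [Algebra k F] (f g : Ω →ₐ[k] F) : ∃ ρ : Ω ≃ₐ[k] Ω, ∀ x, g x = f (ρ x) := by
  let _ : Algebra Ω F := f.toRingHom.toAlgebra
  have _ : IsScalarTower k Ω F := IsScalarTower.of_algebraMap_eq fun x => (f.commutes x).symm
  refine ⟨AlgEquiv.ofBijective (g.restrictNormal Ω) (AlgHom.normal_bijective k Ω Ω _), fun x => ?_⟩
  exact (AlgHom.restrictNormal_commutes g Ω x).symm

end Pool.Agent.Lib.MP_1a91b9_ntT.S9
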