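import Pool.Agent.Lib.MP_1a91b9_ntT.S9.LB
import Pool.Agent.Lib.MP_1a91b9_ntT.S9.MB
import Pool.Agent.Lib.MP_1a91b9_ntT.S9.KA

/-!
# JOB MA1, JOB MA2: the Galois module `E[2]` and the Kummer class of a cocycle
-/

set_option autoImplicit false

namespace Pool.Agent.Lib.MP_1a91b9_ntT.S9

open WeierstrassCurve NumberField IsDedekindDomain
open scoped Classical

/-- The action of the Galois group on points. -/
noncomputable abbrev actP {k : Type*} [Field k] (W : WeierstrassCurve k) (σ : Gal k) :
    Pts W (AlgebraicClosure k) →+ Pts W (AlgebraicClosure k) :=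
  Affine.Point.map (σ : AlgebraicClosure k →ₐ[k] _)

private theorem ma_act_one {k : Type*} [Field k] (W : WeierstrassCurve k)
    (x : Pts W (AlgebraicClosure k)) : actP W 1 x = x := by
  cases x <;> rfl

private theorem ma_act_mul {k : Type*} [Field k] (W : WeierstrassCurve k) (g h : Gal k)
    (x : Pts W (AlgebraicClosure k)) : actP W (g * h) x = actP W g (actP W h x) := by
  cases x <;> rfl

private theorem ma_act_tp {k : Type*} [Field k] [CharZero k] (σ : Gal k)
    (t : AlgebraicClosure k) (ht : t ^ 3 = 2) (t' : AlgebraicClosure k) (ht' : t' ^ 3 = 2)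
    (h : σ t = t') :
    actP (E k) σ (tp (E_bc k (AlgebraicClosure k)) t ht) =
      tp (E_bc k (AlgebraicClosure k)) t' ht' := by
  subst h
  unfold tp actP
  rw [Affine.Point.map_some]
  have h2 : σ (2 : AlgebraicClosure k) = 2 := _root_.map_ofNat σ 2
  have e1 : (σ : AlgebraicClosure k →ₐ[k] AlgebraicClosure k) (-t / 2) = -(σ t) / 2 := by
    change σ (-t / 2) = _
    rw [map_div₀, _root_.map_neg, h2]
  have e2 : (σ : AlgebraicClosure k →ₐ[k] AlgebraicClosure k) (-1 / 2) = -1 / 2 := by
    change σ (-1 / 2) = _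
    rw [map_div₀, _root_.map_neg, _root_.map_one, h2]
  simp only [e1, e2]

private theorem ma_minpoly {k : Type*} [Field k] [CharZero k] (hk : ∀ x : k, x ^ 3 ≠ 2)
    (t : AlgebraicClosure k) (ht : t ^ 3 = 2) :
    minpoly k t = Polynomial.X ^ 3 - Polynomial.C 2 := by
  symm
  apply minpoly.eq_of_irreducible_of_monic
  · exact X_pow_sub_C_irreducible_of_prime Nat.prime_three hk
  · rw [_root_.map_sub, _root_.map_pow, Polynomial.aeval_X, Polynomial.aeval_C, ht,
      _root_.map_ofNat, sub_self]
  · exact Polynomial.monic_X_pow_sub_C _ (by norm_num)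

private theorem ma_tr {k : Type*} [Field k] [CharZero k] (hk : ∀ x : k, x ^ 3 ≠ 2)
    (t t' : AlgebraicClosure k) (ht : t ^ 3 = 2) (ht' : t' ^ 3 = 2) :
    ∃ σ : Gal k, σ t = t' := by
  have h : IsConjRoot k t' t := by
    unfold IsConjRoot
    rw [ma_minpoly hk t ht, ma_minpoly hk t' ht']
  exact isConjRoot_iff_exists_algEquiv.1 h

/-- JOB MA1. `one`, `mul`: `Affine.Point.map_map`/case analysis; `ne0`, `ne1`: `tp_ne`;
`ne01`: `tp_inj` and `z ≠ 1`; `two0`, `two1`: `tp_two`; `all`: `two_tors_all`;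
`tr`: `T = tp t'` (`two_tors_tp`), and there is `g` with `g t = t'` because `t`, `t'` are roots of
`X³ - 2`, irreducible over `k` (no root; `Polynomial.Monic.irreducible_iff_roots_eq_zero_of_degree_le_three`,
`X_pow_sub_C_irreducible_of_prime`), so they have the same minimal polynomial
(`minpoly.eq_iff_aeval_eq_zero`-style, `IsConjRoot`, `isConjRoot_iff_exists_algEquiv`). -/
theorem setting {k : Type*} [Field k] [CharZero k] (hk : ∀ x : k, x ^ 3 ≠ 2)
    (t z : AlgebraicClosure k) (ht : t ^ 3 = 2) (hz : z ^ 2 + z + 1 = 0) (ht1 : (z * t) ^ 3 = 2)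
    (c : Gal k → Pts (E k) (AlgebraicClosure k)) (hc : c ∈ coc (E k))
    (h2 : ∀ σ, c σ + c σ = 0) :
    Setting (actP (E k)) (tp (E_bc k (AlgebraicClosure k)) t ht)
      (tp (E_bc k (AlgebraicClosure k)) (z * t) ht1) c := by
  have ht0 : t ≠ 0 := by
    rintro rfl
    norm_num at ht
  have hz1 : z ≠ 1 := by
    rintro rfl
    norm_num at hz
  refine ⟨ma_act_one _, ma_act_mul _, tp_ne _ _ _, tp_ne _ _ _, ?_, tp_two _ _ _, tp_two _ _ _,
    fun x hx => two_tors_all _ t z ht hz ht1 x hx, ?_, hc.2, h2⟩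
  · intro h
    rw [tp_inj] at h
    apply hz1
    have h3 : (z - 1) * t = 0 := by linear_combination -h
    rcases mul_eq_zero.1 h3 with h4 | h4
    · exact sub_eq_zero.1 h4
    · exact absurd h4 ht0
  · intro T hT0 hT
    obtain ⟨t', ht', hT'⟩ := two_tors_tp (E_bc k (AlgebraicClosure k)) T hT hT0
    obtain ⟨σ, hσ⟩ := ma_tr hk t t' ht ht'
    exact ⟨σ, by rw [hT']; exact ma_act_tp σ t ht t' ht' hσ⟩

/-- JOB MA2. `A` = an intermediate field containing `t`. For `σ ∈ Gal(kbar/A)` put
`χ σ = pr (c (σ.restrictScalars k)) T₀`. It is multiplicative (`coc`, `pr_add`, and `pr_map` for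
`actP σ` with `actP σ T₀ = T₀`) and trivial on an open subgroup (`exists_open`: `M`; use the
intermediate field of `kbar/A` generated by `M`, finite over `A`:
`IntermediateField.adjoin A (M : Set _)`, or a finite set of generators of `M`).
`kummer` with `k := A`, `Ω = kbar` gives `b`; `b²` is fixed by `Gal(kbar/A)`, so it is in `A`
(`InfiniteGalois.mem_bot_iff_fixed`, `IntermediateField.mem_bot`). Every `σ ∈ Gal k` fixing `A`
pointwise is the restriction of scalars of an element of `Gal(kbar/A)`. -/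
theorem exists_kummer {k : Type*} [Field k] [CharZero k] {T₁ : Pts (E k) (AlgebraicClosure k)}
    (t : AlgebraicClosure k) (ht : t ^ 3 = 2)
    (c : Gal k → Pts (E k) (AlgebraicClosure k)) (hc : c ∈ coc (E k))
    (S : Setting (actP (E k)) (tp (E_bc k (AlgebraicClosure k)) t ht) T₁ c)
    (A : IntermediateField k (AlgebraicClosure k)) (hA : t ∈ A) :
    ∃ (b : AlgebraicClosure k) (α : A), b ≠ 0 ∧ (α : AlgebraicClosure k) = b ^ 2 ∧
      ∀ σ : Gal k, (∀ x : A, σ x = x) →
        σ b = (((pr (c σ) (tp (E_bc k (AlgebraicClosure k)) t ht) : ℤˣ) : ℤ) :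
          AlgebraicClosure k) * b := by
  obtain ⟨M0, hM0, hM⟩ := exists_open (E k) c hc
  obtain ⟨s, hs⟩ := hM0.fg_top
  have hss : ∀ σ : Gal k, (∀ x ∈ s, σ (x : AlgebraicClosure k) = x) → ∀ x ∈ M0, σ x = x := by
    intro σ hσ x hx
    have h1 : (⟨x, hx⟩ : M0) ∈ Submodule.span k (s : Set M0) := by
      rw [hs]
      trivial
    have h2 : ∀ y ∈ Submodule.span k (s : Set M0), σ (y : AlgebraicClosure k) = y := by
      intro y hy
      induction hy using Submodule.span_induction with
      | mem y hy => exact hσ y hy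
      | zero => simp
      | add y z _ _ hy hz => simp [hy, hz]
      | smul r y _ hy => simp [Algebra.smul_def, hy]
    exact h2 _ h1
  let S0 : Set (AlgebraicClosure k) := Subtype.val '' (s : Set M0)
  have hfin : S0.Finite := Set.Finite.image _ s.finite_toSet
  have : Finite S0 := hfin
  have : FiniteDimensional A (IntermediateField.adjoin A S0) :=
    IntermediateField.finiteDimensional_adjoin fun x _ =>
      (Algebra.IsIntegral.isIntegral (R := k) x).tower_top
  set T₀ := tp (E_bc k (AlgebraicClosure k)) t ht with hT₀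
  have hfix : ∀ σ : AlgebraicClosure k ≃ₐ[A] AlgebraicClosure k,
      actP (E k) (σ.restrictScalars k) T₀ = T₀ := by
    intro σ
    refine ma_act_tp _ t ht t ht ?_
    exact σ.commutes ⟨t, hA⟩
  have hinj : ∀ σ : Gal k, Function.Injective (actP (E k) σ) := fun σ =>
    Affine.Point.map_injective _
  obtain ⟨b, hb0, hb⟩ := kummer (k := A) (Ω := AlgebraicClosure k)
    (fun σ => pr (c (σ.restrictScalars k)) T₀) (by
      intro σ τ
      have h1 : c ((σ * τ).restrictScalars k) = c (σ.restrictScalars k) +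
          actP (E k) (σ.restrictScalars k) (c (τ.restrictScalars k)) :=
        hc.2 (σ.restrictScalars k) (τ.restrictScalars k)
      have h2 : pr (actP (E k) (σ.restrictScalars k) (c (τ.restrictScalars k))) T₀ =
          pr (c (τ.restrictScalars k)) T₀ := by
        conv_lhs => rw [← hfix σ]
        exact pr_map _ (hinj _) _ _
      rw [h1, pr_add S.ne0 S.ne1 S.ne01 S.two0 S.two1 S.all (S.two _) ?_ S.two0, h2]
      rw [← _root_.map_add, S.two, _root_.map_zero]) (IntermediateField.adjoin A S0) (by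
      intro σ hσ
      have h1 : c (σ.restrictScalars k) = 0 := by
        refine hM _ (hss _ ?_)
        intro x hx
        exact hσ x (IntermediateField.subset_adjoin A S0 ⟨x, hx, rfl⟩)
      simp [h1, pr])
  have hsq : ∀ u : ℤˣ, (((u : ℤˣ) : ℤ) : AlgebraicClosure k) ^ 2 = 1 := by
    intro u
    rcases Int.units_eq_one_or u with rfl | rfl <;> simp
  have hbot : b ^ 2 ∈ (⊥ : IntermediateField A (AlgebraicClosure k)) := by
    rw [InfiniteGalois.mem_bot_iff_fixed]
    intro f
    rw [_root_.map_pow, hb f, mul_pow, hsq, one_mul]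
  obtain ⟨α, hα⟩ := IntermediateField.mem_bot.1 hbot
  refine ⟨b, α, hb0, hα, ?_⟩
  intro σ hσ
  have h3 : ∀ x : A, σ.toRingEquiv (algebraMap A (AlgebraicClosure k) x) =
      algebraMap A (AlgebraicClosure k) x := hσ
  exact hb (AlgEquiv.ofRingEquiv h3)

end Pool.Agent.Lib.MP_1a91b9_ntT.S9
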