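import Pool.Agent.Lib.MP_1a91b9_ntT.S9.Defs
import Pool.Agent.Lib.MP_1a91b9_ntT.Base
import Pool.Agent.Lib.MP_1a91b9_nt.Residue

/-!
# JOB QA: the minimal model at a place not above 3

`W = E ⊗ N_v = ⟨0,0,1,0,0⟩` is integral and `Δ(W) = -27` is a unit of `O_v`. Let `C = minChange`,
`W' = C • W = minModel`, minimal (`exists_isMinimal ..choose_spec`). `W = C⁻¹ • W'` is integral, so
by maximality (`IsMinimal.val_Δ_maximal`) the value of `Δ(W')` is at least that of `Δ(W)`, i.e. 1, so
`Δ(W')` is a unit; `Δ(W') = u⁻¹^12 Δ(W)` (`variableChange_Δ`) gives `v(u)^12 = 1`, `v(u) = 1`.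
(See `Pool.Agent.Lib.MP_1a91b9_nt.GoodModel` for a similar argument; the valuation of the maximal ideal of `O_v`
is 1 exactly on the units, `adicCompletionIntegers.isUnit_iff_valued_eq_one`.)
-/

set_option autoImplicit false

namespace Pool.Agent.Lib.MP_1a91b9_ntT.S9

open NumberField IsDedekindDomain WeierstrassCurve
open scoped Classical

variable {N : Type*} [Field N] [NumberField N]

instance minModel_isMinimal (W : WeierstrassCurve N) (v : HeightOneSpectrum (𝓞 N)) :
    IsMinimal (v.adicCompletionIntegers N) (minModel W v) :=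
  ((W.baseChange (v.adicCompletion N)).exists_isMinimal (v.adicCompletionIntegers N)).choose_spec

private theorem qa_val (v : HeightOneSpectrum (𝓞 N)) (r : v.adicCompletionIntegers N) :
    (IsDiscreteValuationRing.maximalIdeal (v.adicCompletionIntegers N)).valuation
      (v.adicCompletion N) (algebraMap (v.adicCompletionIntegers N) (v.adicCompletion N) r) = 1 ↔
      Valued.v (r : v.adicCompletion N) = 1 := by
  have h1 := HeightOneSpectrum.valuation_lt_one_iff_mem (K := v.adicCompletion N)
    (IsDiscreteValuationRing.maximalIdeal (v.adicCompletionIntegers N)) r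
  have h2 := HeightOneSpectrum.valuation_le_one (K := v.adicCompletion N)
    (IsDiscreteValuationRing.maximalIdeal (v.adicCompletionIntegers N)) r
  have h3 : r ∈ (IsDiscreteValuationRing.maximalIdeal (v.adicCompletionIntegers N)).asIdeal ↔
      ¬ IsUnit r := IsLocalRing.mem_maximalIdeal r
  rw [HeightOneSpectrum.adicCompletionIntegers.isUnit_iff_valued_eq_one] at h3
  constructor
  · intro h
    by_contra h4
    exact absurd h (ne_of_lt (h1.2 (h3.2 h4)))
  · intro h
    refine le_antisymm h2 (not_lt.1 fun h4 => ?_)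
    exact h3.1 (h1.1 h4) h

private theorem qa_base (v : HeightOneSpectrum (𝓞 N)) :
    (E N).baseChange (v.adicCompletion N) =
      WeierstrassCurve.baseChange (⟨0, 0, 1, 0, 0⟩ : WeierstrassCurve (v.adicCompletionIntegers N))
        (v.adicCompletion N) := by
  ext <;> simp [E, WeierstrassCurve.baseChange]

private theorem qa_disc (v : HeightOneSpectrum (𝓞 N)) (h3 : v.valuation N 3 = 1) :
    Valued.v ((⟨0, 0, 1, 0, 0⟩ : WeierstrassCurve (v.adicCompletionIntegers N)).Δ :
      v.adicCompletion N) = 1 := by
  have h1 : (((⟨0, 0, 1, 0, 0⟩ : WeierstrassCurve (v.adicCompletionIntegers N)).Δ :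
      v.adicCompletionIntegers N) : v.adicCompletion N) =
      - (algebraMap N (v.adicCompletion N) 3) ^ 3 := by
    have h2 : (⟨0, 0, 1, 0, 0⟩ : WeierstrassCurve (v.adicCompletionIntegers N)).Δ = -27 := by
      simp [WeierstrassCurve.Δ, WeierstrassCurve.b₂, WeierstrassCurve.b₄, WeierstrassCurve.b₆,
        WeierstrassCurve.b₈]
    have h4 : algebraMap (v.adicCompletionIntegers N) (v.adicCompletion N) (-27) =
        -(algebraMap N (v.adicCompletion N) 3) ^ 3 := by
      rw [map_neg, map_ofNat, map_ofNat]
      norm_num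
    rw [h2]
    exact h4
  rw [h1, Valuation.map_neg, map_pow, MP_1a91b9_nt.valued_algebraMap, h3, one_pow]

theorem minModel_disc (v : HeightOneSpectrum (𝓞 N)) (h3 : v.valuation N 3 = 1) :
    Valued.v (minModel (E N) v).Δ = 1 := by
  obtain ⟨r, hr⟩ := Δ_integral_of_isIntegral (v.adicCompletionIntegers N) (minModel (E N) v)
  have hr' : (r : v.adicCompletion N) = (minModel (E N) v).Δ := hr
  rw [← hr', ← qa_val, hr]
  have hmax := (minModel_isMinimal (E N) v).val_Δ_maximal
  have hinv : (minChange (E N) v)⁻¹ • minModel (E N) v =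
      (E N).baseChange (v.adicCompletion N) := by
    rw [minModel, inv_smul_smul]
  have hint : WeierstrassCurve.IsIntegral (v.adicCompletionIntegers N)
      ((E N).baseChange (v.adicCompletion N)) := ⟨_, qa_base v⟩
  have hv0 : (IsDiscreteValuationRing.maximalIdeal (v.adicCompletionIntegers N)).valuation
      (v.adicCompletion N) ((E N).baseChange (v.adicCompletion N)).Δ = 1 := by
    rw [qa_base, WeierstrassCurve.baseChange, WeierstrassCurve.map_Δ, qa_val]
    exact qa_disc v h3
  have hle := hmax.2 (j := (minChange (E N) v)⁻¹) (by simpa only [hinv] using hint)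
  have htop : WeierstrassCurve.valuation_Δ_aux (v.adicCompletionIntegers N)
      ((minChange (E N) v)⁻¹ • minModel (E N) v) = ⟨1, le_refl _⟩ := by
    rw [hinv]
    apply Subtype.ext
    rw [WeierstrassCurve.valuation_Δ_aux_eq_of_isIntegral]
    exact hv0
  have h1 : WeierstrassCurve.valuation_Δ_aux (v.adicCompletionIntegers N)
      ((1 : WeierstrassCurve.VariableChange (v.adicCompletion N)) • minModel (E N) v) ≤
      WeierstrassCurve.valuation_Δ_aux (v.adicCompletionIntegers N)
        ((minChange (E N) v)⁻¹ • minModel (E N) v) := by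
    rw [htop]
    exact (WeierstrassCurve.valuation_Δ_aux (v.adicCompletionIntegers N) _).2
  have h2 := hle h1
  simp only [htop, one_smul] at h2
  have h4 : (1 : WithZero (Multiplicative ℤ)) ≤
      (WeierstrassCurve.valuation_Δ_aux (v.adicCompletionIntegers N) (minModel (E N) v) : _) := h2
  rw [WeierstrassCurve.valuation_Δ_aux_eq_of_isIntegral] at h4
  refine le_antisymm ?_ h4
  rw [← hr]
  exact HeightOneSpectrum.valuation_le_one _ _

theorem minChange_unit (v : HeightOneSpectrum (𝓞 N)) (h3 : v.valuation N 3 = 1) :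
    Valued.v ((minChange (E N) v).u : v.adicCompletion N) = 1 := by
  have h1 : (minModel (E N) v).Δ =
      (((minChange (E N) v).u⁻¹ : (v.adicCompletion N)ˣ) : v.adicCompletion N) ^ 12 *
        ((E N).baseChange (v.adicCompletion N)).Δ := by
    rw [minModel, WeierstrassCurve.variableChange_Δ]
  have hv0 : Valued.v ((E N).baseChange (v.adicCompletion N)).Δ = 1 := by
    rw [qa_base, WeierstrassCurve.baseChange, WeierstrassCurve.map_Δ]
    exact qa_disc v h3
  have h2 := congrArg Valued.v h1
  rw [map_mul, map_pow, hv0, minModel_disc v h3, mul_one] at h2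
  have h4 : Valued.v (((minChange (E N) v).u⁻¹ : (v.adicCompletion N)ˣ) : v.adicCompletion N) = 1 :=
    (pow_eq_one_iff.mp h2.symm).resolve_right (by norm_num)
  have h5 := congrArg Valued.v (minChange (E N) v).u.mul_inv
  rwa [map_mul, h4, mul_one, map_one] at h5

end Pool.Agent.Lib.MP_1a91b9_ntT.S9
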