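import Pool.Agent.Lib.MP_1a91b9_ntT.S9.QA

/-!
# JOB QB: good reduction, Tamagawa number one

`W' = minModel` has coefficients in `O_v` (`IsMinimal` implies `IsIntegral`; `integralModel`,
`integralModel_a₁_eq` ...) and unit discriminant. Every point `(x, y)` of `W'` is in the generating
set of `nonsing`: if `v(x) > 1` clear. If `v(x) ≤ 1` then `v(y) ≤ 1` (otherwise `v(y²)` is
bigger than all other terms of the equation). Suppose neither `f_y = 2y + a₁x + a₃` nor
`f_x = 3x² + 2a₂x + a₄ - a₁y` is a unit; both are integral, so both reduce to 0: the reduced point is on the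
reduced curve (`integralModel.map residue`, i.e. `reduction`) and is singular, but the reduced
discriminant is not 0: `Affine.equation_iff_nonsingular_of_Δ_ne_zero`, `Affine.nonsingular_iff'`.
So the closure is `⊤` and the index is 1 (`AddSubgroup.index_top`).
-/

set_option autoImplicit false

namespace Pool.Agent.Lib.MP_1a91b9_ntT.S9

open NumberField IsDedekindDomain WeierstrassCurve
open scoped Classical

variable {N : Type*} [Field N] [NumberField N]

/-- A monic quadratic relation makes an element of the fraction field integral. -/
private theorem qb_lift {R K : Type*} [CommRing R] [IsDomain R] [IsIntegrallyClosed R]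
    [Field K] [Algebra R K] [IsFractionRing R K] (x : K) (b c : R)
    (h : x ^ 2 + (algebraMap R K b * x + algebraMap R K c) = 0) :
    ∃ y : R, algebraMap R K y = x := by
  refine IsIntegrallyClosed.isIntegral_iff.mp
    ⟨Polynomial.X ^ 2 + (Polynomial.C b * Polynomial.X + Polynomial.C c), ?_, ?_⟩
  · refine Polynomial.monic_X_pow_add ?_
    compute_degree!
  · simpa using h

private theorem qb_unit (v : HeightOneSpectrum (𝓞 N)) (r : v.adicCompletionIntegers N)
    (h : IsLocalRing.residue (v.adicCompletionIntegers N) r ≠ 0) :
    Valued.v (r : v.adicCompletion N) = 1 := by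
  rw [Ne, MP_1a91b9_nt.residue_eq_zero_iff_valued] at h
  exact le_antisymm r.2 (not_lt.1 h)

private theorem qb_res (v : HeightOneSpectrum (𝓞 N)) (r : v.adicCompletionIntegers N)
    (h : Valued.v (r : v.adicCompletion N) ≠ 1) :
    IsLocalRing.residue (v.adicCompletionIntegers N) r = 0 := by
  by_contra h1
  exact h (qb_unit v r h1)

/-- An integral point of an integral model with unit discriminant is non-singular mod `v`. -/
private theorem qb_point (v : HeightOneSpectrum (𝓞 N))
    (I : WeierstrassCurve (v.adicCompletionIntegers N))
    (hΔ : Valued.v (I.Δ : v.adicCompletion N) = 1) (X Y : v.adicCompletionIntegers N)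
    (h : I.toAffine.Equation X Y) :
    Valued.v ((2 * Y + I.a₁ * X + I.a₃ : v.adicCompletionIntegers N) : v.adicCompletion N) = 1 ∨
      Valued.v ((3 * X ^ 2 + 2 * I.a₂ * X + I.a₄ - I.a₁ * Y : v.adicCompletionIntegers N) :
        v.adicCompletion N) = 1 := by
  by_contra hcon
  rw [not_or] at hcon
  have h1 := qb_res v _ hcon.1
  have h2 := qb_res v _ hcon.2
  have h3 := h.map (IsLocalRing.residue (v.adicCompletionIntegers N))
  have h4 : (I.map (IsLocalRing.residue (v.adicCompletionIntegers N))).Δ ≠ 0 := by
    rw [WeierstrassCurve.map_Δ, Ne, MP_1a91b9_nt.residue_eq_zero_iff_valued, hΔ]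
    exact lt_irrefl 1
  rw [WeierstrassCurve.Affine.equation_iff_nonsingular_of_Δ_ne_zero h4,
    WeierstrassCurve.Affine.nonsingular_iff'] at h3
  rcases h3.2 with h5 | h5
  · apply h5
    simp only [WeierstrassCurve.map_a₁, WeierstrassCurve.map_a₂, WeierstrassCurve.map_a₄]
    simp only [map_add, map_sub, map_mul, map_pow, map_ofNat] at h2
    linear_combination -h2
  · apply h5
    simp only [WeierstrassCurve.map_a₁, WeierstrassCurve.map_a₃]
    simp only [map_add, map_mul, map_ofNat] at h1
    linear_combination h1

theorem tam_good (v : HeightOneSpectrum (𝓞 N)) (h3 : v.valuation N 3 = 1) :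
    tam (E N) v = 1 := by
  have htop : nonsing (E N) v = ⊤ := by
    rw [eq_top_iff]
    rintro P -
    apply AddSubgroup.subset_closure
    rcases P with _ | ⟨x, y, h⟩
    · exact Or.inl rfl
    · refine Or.inr ⟨x, y, h, rfl, ?_⟩
      by_cases hx : 1 < Valued.v x
      · exact Or.inl hx
      refine Or.inr ?_
      obtain ⟨I, hI⟩ : ∃ I : WeierstrassCurve (v.adicCompletionIntegers N),
          minModel (E N) v = I.baseChange (v.adicCompletion N) :=
        (inferInstance : WeierstrassCurve.IsIntegral (v.adicCompletionIntegers N)
          (minModel (E N) v)).integral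
      have hinj : Function.Injective
          (algebraMap (v.adicCompletionIntegers N) (v.adicCompletion N)) :=
        IsFractionRing.injective _ _
      have hΔ : Valued.v (I.Δ : v.adicCompletion N) = 1 := by
        have h1 := minModel_disc v h3
        rw [hI, WeierstrassCurve.baseChange, WeierstrassCurve.map_Δ] at h1
        exact h1
      obtain ⟨X, hX⟩ : ∃ X : v.adicCompletionIntegers N,
          algebraMap (v.adicCompletionIntegers N) (v.adicCompletion N) X = x :=
        ⟨⟨x, not_lt.1 hx⟩, rfl⟩
      have he := h.1
      rw [WeierstrassCurve.Affine.equation_iff'] at he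
      have ha1 : (minModel (E N) v).a₁ =
        algebraMap (v.adicCompletionIntegers N) (v.adicCompletion N) I.a₁ := by rw [hI]; rfl
      have ha2 : (minModel (E N) v).a₂ =
        algebraMap (v.adicCompletionIntegers N) (v.adicCompletion N) I.a₂ := by rw [hI]; rfl
      have ha3 : (minModel (E N) v).a₃ =
        algebraMap (v.adicCompletionIntegers N) (v.adicCompletion N) I.a₃ := by rw [hI]; rfl
      have ha4 : (minModel (E N) v).a₄ =
        algebraMap (v.adicCompletionIntegers N) (v.adicCompletion N) I.a₄ := by rw [hI]; rfl
      have ha6 : (minModel (E N) v).a₆ =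
        algebraMap (v.adicCompletionIntegers N) (v.adicCompletion N) I.a₆ := by rw [hI]; rfl
      rw [ha1, ha2, ha3, ha4, ha6, ← hX] at he
      obtain ⟨Y, hY⟩ := qb_lift (R := v.adicCompletionIntegers N) y (I.a₁ * X + I.a₃)
        (-(X ^ 3 + I.a₂ * X ^ 2 + I.a₄ * X + I.a₆)) (by
          simp only [map_neg, map_add, map_mul, map_pow]
          linear_combination he)
      have hE : I.toAffine.Equation X Y := by
        rw [← WeierstrassCurve.Affine.map_equation _ hinj,
          WeierstrassCurve.Affine.equation_iff', hY]
        exact he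
      have hres := qb_point v I hΔ X Y hE
      have e1 : 2 * y + (minModel (E N) v).a₁ * x + (minModel (E N) v).a₃ =
          algebraMap (v.adicCompletionIntegers N) (v.adicCompletion N)
            (2 * Y + I.a₁ * X + I.a₃) := by
        rw [ha1, ha3, ← hX, ← hY]
        simp only [map_add, map_mul, map_ofNat]
      have e2 : 3 * x ^ 2 + 2 * (minModel (E N) v).a₂ * x + (minModel (E N) v).a₄ -
          (minModel (E N) v).a₁ * y =
          algebraMap (v.adicCompletionIntegers N) (v.adicCompletion N)
            (3 * X ^ 2 + 2 * I.a₂ * X + I.a₄ - I.a₁ * Y) := by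
        rw [ha1, ha2, ha4, ← hX, ← hY]
        simp only [map_add, map_sub, map_mul, map_pow, map_ofNat]
      rw [e1, e2]
      exact hres
  rw [tam, htop, AddSubgroup.index_top]

end Pool.Agent.Lib.MP_1a91b9_ntT.S9
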