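import Mathlib

/-!
# JOB EB: the 2-torsion of `y² + y = x³`

`P + P = 0` iff `P = 0` or `P = (x, y)` with `y = -y-1`, i.e. `y = -1/2`, and then
`4 x³ + 1 = 0` (`y² + y = x³`). If `t³ = 2` and `z² + z + 1 = 0` the three roots of `4 x³ + 1` are
`-t/2`, `-z t/2`, `-z² t/2` (`4 x³ + 1 = 4 (x + t/2)(x + z t/2)(x + z² t/2)`). The sum of the first two points is the third (the three points are collinear: slope
`0`, x-coordinate `0 + t/2 + z t/2 = -z² t/2`, y-coordinate `-(−1/2) − 1 = -1/2`).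
-/

set_option autoImplicit false

namespace Pool.Agent.Lib.MP_1a91b9_ntT.S9

open WeierstrassCurve
open scoped Classical

theorem eqn_iff {F : Type*} [Field F] {W : Affine F} (hW : W = ⟨0, 0, 1, 0, 0⟩) (x y : F) :
    W.Equation x y ↔ y ^ 2 + y = x ^ 3 := by
  subst hW
  rw [Affine.equation_iff]
  simp

/-- all points are nonsingular: `3 ≠ 0` suffices (`2 y + 1 = 0`, `3 x² = 0` and the equation
`(2y+1)² = 4x³+1` contradict each other). -/
theorem nons_iff {F : Type*} [Field F] (h3 : (3 : F) ≠ 0) {W : Affine F}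
    (hW : W = ⟨0, 0, 1, 0, 0⟩) (x y : F) :
    W.Nonsingular x y ↔ y ^ 2 + y = x ^ 3 := by
  rw [Affine.nonsingular_iff, eqn_iff hW]
  subst hW
  simp only [and_iff_left_iff_imp]
  intro h
  by_contra hc
  push Not at hc
  obtain ⟨h1, h2⟩ := hc
  have hx : x = 0 := by
    have : 3 * x ^ 2 = 0 := by simpa using h1.symm
    rcases mul_eq_zero.1 this with h | h
    · exact absurd h h3
    · exact pow_eq_zero_iff (two_ne_zero) |>.1 h
  have h4 : 2 * y + 1 = 0 := by
    have h2' : y = -y - 1 := by simpa using h2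
    linear_combination h2'
  apply one_ne_zero (α := F)
  have : (2 * y + 1) ^ 2 = 4 * x ^ 3 + 1 := by linear_combination 4 * h
  rw [h4, hx] at this
  linear_combination -this

theorem two_tors {F : Type*} [Field F] (h2 : (2 : F) ≠ 0) {W : Affine F}
    (hW : W = ⟨0, 0, 1, 0, 0⟩) (P : W.Point) (hP : P + P = 0) :
    P = 0 ∨ ∃ (x y : F) (h : W.Nonsingular x y), P = Affine.Point.some x y h ∧ 2 * y + 1 = 0 ∧
      4 * x ^ 3 + 1 = 0 := by
  rcases P with _ | ⟨x, y, h⟩
  · exact Or.inl rfl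
  · right
    have hy : y = W.negY x y := by
      by_contra hne
      have := Affine.Point.add_self_of_Y_ne hne (h₁ := h)
      rw [hP] at this
      exact Affine.Point.some_ne_zero _ this.symm
    have hy2 : 2 * y + 1 = 0 := by
      rw [Affine.negY] at hy
      subst hW
      simp only [zero_mul, sub_zero] at hy
      linear_combination hy
    refine ⟨x, y, h, rfl, hy2, ?_⟩
    have he := (eqn_iff hW x y).1 h.1
    linear_combination -4 * he + (2 * y + 1) * hy2

/-- The point `(-t/2, -1/2)`. -/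
noncomputable def tp {F : Type*} [Field F] [CharZero F] {W : Affine F}
    (hW : W = ⟨0, 0, 1, 0, 0⟩) (t : F) (ht : t ^ 3 = 2) : W.Point :=
  Affine.Point.some (-t / 2) (-1 / 2) ((nons_iff three_ne_zero hW _ _).2 (by
    linear_combination (1 / 8 : F) * ht))

theorem tp_ne {F : Type*} [Field F] [CharZero F] {W : Affine F}
    (hW : W = ⟨0, 0, 1, 0, 0⟩) (t : F) (ht : t ^ 3 = 2) : tp hW t ht ≠ 0 := by
  exact Affine.Point.some_ne_zero _

theorem tp_two {F : Type*} [Field F] [CharZero F] {W : Affine F}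
    (hW : W = ⟨0, 0, 1, 0, 0⟩) (t : F) (ht : t ^ 3 = 2) : tp hW t ht + tp hW t ht = 0 := by
  rw [tp]
  apply Affine.Point.add_self_of_Y_eq
  subst hW
  simp only [Affine.negY]
  ring

theorem tp_inj {F : Type*} [Field F] [CharZero F] {W : Affine F}
    (hW : W = ⟨0, 0, 1, 0, 0⟩) (t t' : F) (ht : t ^ 3 = 2) (ht' : t' ^ 3 = 2) :
    tp hW t ht = tp hW t' ht' ↔ t = t' := by
  rw [tp, tp, Affine.Point.some.injEq]
  constructor
  · rintro ⟨h, -⟩
    linear_combination -2 * h
  · rintro rfl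
    exact ⟨rfl, rfl⟩

theorem tp_add {F : Type*} [Field F] [CharZero F] {W : Affine F}
    (hW : W = ⟨0, 0, 1, 0, 0⟩) (t z : F) (ht : t ^ 3 = 2) (hz : z ^ 2 + z + 1 = 0)
    (ht1 : (z * t) ^ 3 = 2) (ht2 : (z ^ 2 * t) ^ 3 = 2) :
    tp hW t ht + tp hW (z * t) ht1 = tp hW (z ^ 2 * t) ht2 := by
  have hz1 : z ≠ 1 := by
    rintro rfl
    norm_num at hz
  have ht0 : t ≠ 0 := by
    rintro rfl
    norm_num at ht
  have hx : -t / 2 ≠ -(z * t) / 2 := by
    intro h
    apply hz1
    have : t * (z - 1) = 0 := by linear_combination 2 * h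
    rcases mul_eq_zero.1 this with h | h
    · exact absurd h ht0
    · linear_combination h
  rw [tp, tp, tp, Affine.Point.add_of_X_ne hx, Affine.Point.some.injEq]
  have hs : W.slope (-t / 2) (-(z * t) / 2) (-1 / 2) (-1 / 2) = 0 := by
    rw [Affine.slope_of_X_ne hx, sub_self, zero_div]
  rw [hs]
  subst hW
  constructor
  · simp only [Affine.addX]
    linear_combination (1 / 2 * t) * hz
  · simp only [Affine.addY, Affine.negAddY, Affine.negY, Affine.addX]
    ring

/-- `P + P = 0` and `P ≠ 0`: `P = tp t'` with `t' = - 2 x(P)`. -/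
theorem two_tors_tp {F : Type*} [Field F] [CharZero F] {W : Affine F}
    (hW : W = ⟨0, 0, 1, 0, 0⟩) (P : W.Point) (hP : P + P = 0) (h0 : P ≠ 0) :
    ∃ (t : F) (ht : t ^ 3 = 2), P = tp hW t ht := by
  rcases two_tors two_ne_zero hW P hP with h | ⟨x, y, h, rfl, hy, hx⟩
  · exact absurd h h0
  · refine ⟨-2 * x, ?_, ?_⟩
    · linear_combination -2 * hx
    · rw [tp, Affine.Point.some.injEq]
      constructor
      · ring
      · linear_combination (1 / 2 : F) * hy

/-- The 2-torsion. -/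
theorem two_tors_all {F : Type*} [Field F] [CharZero F] {W : Affine F}
    (hW : W = ⟨0, 0, 1, 0, 0⟩) (t z : F) (ht : t ^ 3 = 2) (hz : z ^ 2 + z + 1 = 0)
    (ht1 : (z * t) ^ 3 = 2) (P : W.Point) (hP : P + P = 0) :
    P = 0 ∨ P = tp hW t ht ∨ P = tp hW (z * t) ht1 ∨ P = tp hW t ht + tp hW (z * t) ht1 := by
  by_cases h0 : P = 0
  · exact Or.inl h0
  · right
    obtain ⟨t', ht', rfl⟩ := two_tors_tp hW P hP h0
    have h3 : z ^ 3 = 1 := by linear_combination (z - 1) * hz
    have ht2 : (z ^ 2 * t) ^ 3 = 2 := by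
      rw [mul_pow, ht, ← pow_mul, mul_comm 2 3, pow_mul, h3]
      norm_num
    have hprod : (t' - t) * ((t' - z * t) * (t' - z ^ 2 * t)) = 0 := by
      linear_combination ht' - ht * z ^ 3 - 2 * h3 +
        (t * t' * (t * z - t')) * hz
    rcases mul_eq_zero.1 hprod with h | h
    · left
      exact (tp_inj hW _ _ _ _).2 (sub_eq_zero.1 h)
    · rcases mul_eq_zero.1 h with h | h
      · right; left
        exact (tp_inj hW _ _ _ _).2 (sub_eq_zero.1 h)
      · right; right
        rw [tp_add hW t z ht hz ht1 ht2]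
        exact (tp_inj hW _ _ _ _).2 (sub_eq_zero.1 h)

end Pool.Agent.Lib.MP_1a91b9_ntT.S9
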