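import Pool.Agent.Lib.MP_1a91b9_ntT.S9.Gp
import Pool.Agent.Lib.MP_1a91b9_ntT.S9.EB

/-!
# JOB ED: the square root of `4 x(2 P) + 2 t`

`t³ = 2`, `e = -t/2`. For `P = (X, Y)` with `2 Y + 1 ≠ 0` (i.e. `P + P ≠ 0`) put
`sfn P = (2 X² + 2 t X - t²) / (2 Y + 1)` (`= 2 ((X - e)² - 3 e²) / (2 Y + 1)`).
(sfn_sq) `x(2P) = l² - 2X`, `l = 3X²/(2Y+1)`, and `(2Y+1)² = 4X³+1`:
`(4 x(2P) + 2 t)(2Y+1)² = (2X² + 2tX - t²)²`: `4·(9X⁴ - 2X(4X³+1)) + 2t(4X³+1) = 4X⁴ - 8X + 8tX³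
+ 2t`, and `(2X²+2tX-t²)² = 4X⁴ + 8tX³ + (4t² - 4t²)X² - 4t³X + t⁴` with `t³ = 2`.
(sfn_add) for `T + T = 0`: `T = 0` trivial; `T = T₀ = (e, -1/2)`: (`P ≠ T₀`, so `X ≠ e`)
`P + T₀ = (X', Y')`, `X' = e + 3e²/(X - e)`, `2Y'+1 = -3e²(2Y+1)/(X-e)²`, and so
`sfn (P + T₀) = sfn P`. `T = (f, -1/2)`, `f³ = e³`, `f ≠ e`, so `e² + e f + f² = 0`:
`X' = f + 3f²/(X-f)`, `2Y'+1 = -3f²(2Y+1)/(X-f)²`, and
`((f-e)(X-f) + 3f²)² - 3e²(X-f)² = 3f²((X-e)² - 3e²)`, so `sfn (P + T) = - sfn P`.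
(Slope of the chord: `(Y + 1/2)/(X - f)`; `(X-f)·(its square) = (X³ + 1/4)/(X-f) = X² + fX + f²`.)
-/

set_option autoImplicit false

namespace Pool.Agent.Lib.MP_1a91b9_ntT.S9

open WeierstrassCurve
open scoped Classical

/-- The function `(2 X² + 2 t X - t²) / (2 Y + 1)`. -/
noncomputable def sfn {F : Type*} [Field F] {W : Affine F} (t : F) : W.Point → F
  | .zero => 0
  | .some X Y _ => (2 * X ^ 2 + 2 * t * X - t ^ 2) / (2 * Y + 1)

theorem sfn_sq {F : Type*} [Field F] [CharZero F] {W : Affine F}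
    (hW : W = ⟨0, 0, 1, 0, 0⟩) (t : F) (ht : t ^ 3 = 2) (P : W.Point) {x y : F}
    (h : W.Nonsingular x y) (hP : P + P = Affine.Point.some x y h) :
    sfn t P ^ 2 = 4 * x + 2 * t := by
  subst hW
  cases P with
  | zero =>
    exfalso
    have h1 : (Affine.Point.zero : Affine.Point (⟨0, 0, 1, 0, 0⟩ : Affine F)) + Affine.Point.zero = 0 :=
      add_zero _
    rw [h1] at hP
    exact Affine.Point.some_ne_zero h hP.symm
  | some X Y hXY =>
    have hY : Y ≠ Affine.negY (⟨0, 0, 1, 0, 0⟩ : Affine F) X Y := by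
      intro hY
      rw [Affine.Point.add_self_of_Y_eq hY] at hP
      exact Affine.Point.some_ne_zero h hP.symm
    rw [Affine.Point.add_self_of_Y_ne hY] at hP
    injection hP with hx hy
    have hEq : Y ^ 2 + Y = X ^ 3 := (nons_iff three_ne_zero rfl X Y).1 hXY
    have hd : 2 * Y + 1 ≠ 0 := by
      intro h0
      apply hY
      simp only [Affine.negY]
      linear_combination h0
    rw [Affine.slope_of_Y_ne rfl hY] at hx
    simp only [Affine.addX, Affine.negY] at hx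
    have hx2 : x * (2 * Y + 1) ^ 2 = 9 * X ^ 4 - 2 * X * (2 * Y + 1) ^ 2 := by
      rw [← hx]
      have h3 : Y - (-Y - 0 * X - 1) = 2 * Y + 1 := by ring
      rw [h3]
      field_simp
      ring
    show ((2 * X ^ 2 + 2 * t * X - t ^ 2) / (2 * Y + 1)) ^ 2 = 4 * x + 2 * t
    rw [div_pow, div_eq_iff (pow_ne_zero 2 hd)]
    linear_combination (-4 : F) * hx2 + (t - 4 * X) * ht + (32 * X - 8 * t) * hEq

/-- The value of `sfn` at the sum of `P = (X, Y)` and the point `(-t'/2, -1/2)` of order two. -/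
private theorem ed2_sfn {F : Type*} [Field F] [CharZero F] {W : Affine F}
    (hW : W = ⟨0, 0, 1, 0, 0⟩) (t t' : F) (ht' : t' ^ 3 = 2) (X Y : F)
    (h : W.Nonsingular X Y) (hY : 2 * Y + 1 ≠ 0) (ε : F)
    (hε : 2 * ((-t' / 2) * (X + t' / 2) + 3 * (t' / 2) ^ 2) ^ 2 +
        2 * t * ((-t' / 2) * (X + t' / 2) + 3 * (t' / 2) ^ 2) * (X + t' / 2) -
        t ^ 2 * (X + t' / 2) ^ 2 =
        -(3 * (t' / 2) ^ 2) * (ε * (2 * X ^ 2 + 2 * t * X - t ^ 2))) :
    sfn t (Affine.Point.some X Y h + tp hW t' ht') =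
      ε * sfn t (Affine.Point.some X Y h) := by
  have hE : Y ^ 2 + Y = X ^ 3 := (nons_iff three_ne_zero hW X Y).1 h
  have hD : X + t' / 2 ≠ 0 := by
    intro h0
    apply hY
    have hX : X = -t' / 2 := by linear_combination h0
    have h2 : (2 * Y + 1) ^ 2 = 0 := by
      rw [hX] at hE
      linear_combination 4 * hE - (1 / 2) * ht'
    exact pow_eq_zero_iff (two_ne_zero) |>.1 h2
  have ht0 : t' ≠ 0 := by
    rintro rfl
    norm_num at ht'
  have hx : X ≠ -t' / 2 := by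
    intro h0
    exact hD (by linear_combination h0)
  subst hW
  unfold tp
  rw [Affine.Point.add_of_X_ne hx]
  simp only [sfn, Affine.slope_of_X_ne hx, Affine.addX, Affine.addY, Affine.negAddY, Affine.negY]
  set D : F := X + t' / 2 with hDdef
  set l : F := (Y - -1 / 2) / (X - -t' / 2) with hl
  have hlD : l * D = Y + 1 / 2 := by
    have h1 : X - -t' / 2 = D := by rw [hDdef]; ring
    rw [hl, h1]
    field_simp
    ring
  have hl2 : l ^ 2 * D = X ^ 2 - t' / 2 * X + t' ^ 2 / 4 := by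
    apply mul_right_cancel₀ hD
    have e1 : l ^ 2 * D * D = (l * D) ^ 2 := by ring
    rw [e1, hlD, hDdef]
    linear_combination hE - (1 / 8) * ht'
  have hl0 : l ≠ 0 := by
    intro h0
    rw [h0] at hlD
    apply hY
    linear_combination -2 * hlD
  clear_value l D
  obtain ⟨A, hA⟩ : ∃ A : F, A = l ^ 2 + 0 * l - 0 - X - -t' / 2 := ⟨_, rfl⟩
  rw [← hA]
  obtain ⟨B, hB⟩ : ∃ B : F, B = -(l * (A - X) + Y) - 0 * A - 1 := ⟨_, rfl⟩
  rw [← hB]
  have hAD : A * D = (-t' / 2) * D + 3 * (t' / 2) ^ 2 := by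
    rw [hA]
    linear_combination hl2 + (t' - X) * hDdef
  have hBD : (2 * B + 1) * D ^ 2 = -(3 * (t' / 2) ^ 2) * (2 * Y + 1) := by
    rw [hB]
    linear_combination (-2 * l * D) * hAD - 2 * l * D ^ 2 * hDdef +
      (2 * D ^ 2 - 6 * (t' / 2) ^ 2) * hlD
  have hB0 : 2 * B + 1 ≠ 0 := by
    intro h0
    rw [h0, zero_mul] at hBD
    have h2 : (2 : F) ≠ 0 := two_ne_zero
    have h3 : (3 : F) ≠ 0 := three_ne_zero
    have h4 : -(3 * (t' / 2) ^ 2) * (2 * Y + 1) ≠ 0 :=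
      mul_ne_zero (neg_ne_zero.2 (mul_ne_zero h3 (pow_ne_zero 2 (div_ne_zero ht0 h2)))) hY
    exact h4 hBD.symm
  rw [← mul_div_assoc, div_eq_div_iff hB0 hY]
  apply mul_right_cancel₀ (pow_ne_zero 2 hD)
  linear_combination (2 * Y + 1) * hε +
    (2 * Y + 1) * (2 * (A * D + (-t' / 2) * D + 3 * (t' / 2) ^ 2) + 2 * t * D) * hAD -
    ε * (2 * X ^ 2 + 2 * t * X - t ^ 2) * hBD

theorem sfn_add {F : Type*} [Field F] [CharZero F] {W : Affine F}
    (hW : W = ⟨0, 0, 1, 0, 0⟩) (t : F) (ht : t ^ 3 = 2) (P T : W.Point) (hP : P + P ≠ 0)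
    (hT : T + T = 0) :
    sfn t (P + T) = (((pr T (tp hW t ht) : ℤˣ) : ℤ) : F) * sfn t P := by
  by_cases hT0 : T = 0
  · subst hT0
    simp [pr]
  obtain ⟨t', ht', rfl⟩ := two_tors_tp hW T hT hT0
  cases P with
  | zero => exact absurd (show (0 : W.Point) + 0 = 0 from add_zero 0) hP
  | some X Y h =>
    have hY : 2 * Y + 1 ≠ 0 := by
      intro h0
      apply hP
      apply Affine.Point.add_self_of_Y_eq
      rw [hW]
      simp only [Affine.negY]
      linear_combination h0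
    apply ed2_sfn hW t t' ht' X Y h hY
    by_cases htt : t' = t
    · subst htt
      rw [pr, if_pos (Or.inr (Or.inr rfl))]
      push_cast
      ring
    · have hne : tp hW t' ht' ≠ tp hW t ht := fun h0 => htt ((tp_inj hW t' t ht' ht).1 h0)
      rw [pr, if_neg (by simp only [tp_ne, hne, or_self, not_false_eq_true])]
      have hq : t' ^ 2 + t' * t + t ^ 2 = 0 := by
        have h1 : (t' - t) * (t' ^ 2 + t' * t + t ^ 2) = 0 := by
          linear_combination ht' - ht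
        exact (mul_eq_zero.1 h1).resolve_left (sub_ne_zero.2 htt)
      push_cast
      linear_combination (-(X + t' / 2) ^ 2 + 3 / 4 * t' ^ 2) * hq

end Pool.Agent.Lib.MP_1a91b9_ntT.S9
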