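import Pool.Agent.Lib.MP_1a91b9_ntT.S9.Gp

/-!
# JOB GA: the pairing `pr` on the 2-torsion

`pr P Q = 1` if `P = 0`, `Q = 0` or `P = Q`, else `-1`. All proofs: the 2-torsion `V` is
`{0, T₀, T₁, T₀ + T₁}` (four distinct elements, each its own negative); case analysis.
-/

set_option autoImplicit false

namespace Pool.Agent.Lib.MP_1a91b9_ntT.S9

open scoped Classical

/-- symmetry -/
theorem pr_comm {M : Type*} [Zero M] (P Q : M) : pr P Q = pr Q P := by
  unfold pr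
  by_cases h1 : P = 0 <;> by_cases h2 : Q = 0 <;> by_cases h3 : P = Q <;> simp_all [eq_comm]

/-- equivariance under injective additive maps -/
theorem pr_map {M M' : Type*} [AddCommGroup M] [AddCommGroup M'] (f : M →+ M')
    (hf : Function.Injective f) (P Q : M) : pr (f P) (f Q) = pr P Q := by
  unfold pr
  have h1 : f P = 0 ↔ P = 0 := map_eq_zero_iff f hf
  have h2 : f Q = 0 ↔ Q = 0 := map_eq_zero_iff f hf
  have h3 : f P = f Q ↔ P = Q := hf.eq_iff
  simp only [h1, h2, h3]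

/-- bilinearity on the group `V = {0, T₀, T₁, T₀ + T₁}`. -/
theorem pr_add {M : Type*} [AddCommGroup M] {T₀ T₁ : M} (ne0 : T₀ ≠ 0) (ne1 : T₁ ≠ 0)
    (ne01 : T₀ ≠ T₁) (two0 : T₀ + T₀ = 0) (two1 : T₁ + T₁ = 0)
    (all : ∀ x, x + x = 0 → x = 0 ∨ x = T₀ ∨ x = T₁ ∨ x = T₀ + T₁) {P P' Q : M}
    (hP : P + P = 0) (hP' : P' + P' = 0) (hQ : Q + Q = 0) :
    pr (P + P') Q = pr P Q * pr P' Q := by
  have hs0 : T₀ + T₁ ≠ 0 := by
    intro h
    exact ne01 (by rw [← add_left_inj T₁, h, two1])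
  have hs1 : T₀ + T₁ ≠ T₀ := by
    intro h
    exact ne1 (by simpa using h)
  have hs2 : T₀ + T₁ ≠ T₁ := by
    intro h
    exact ne0 (by simpa using h)
  have e1 : T₀ + (T₀ + T₁) = T₁ := by rw [← add_assoc, two0, zero_add]
  have e2 : T₁ + (T₀ + T₁) = T₀ := by rw [add_comm T₀ T₁, ← add_assoc, two1, zero_add]
  have e3 : T₀ + T₁ + T₀ = T₁ := by rw [add_comm, e1]
  have e4 : T₀ + T₁ + T₁ = T₀ := by rw [add_comm, e2]
  have e5 : T₀ + T₁ + (T₀ + T₁) = 0 := by rw [add_add_add_comm, two0, two1, add_zero]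
  have e6 : T₁ + T₀ = T₀ + T₁ := add_comm _ _
  unfold pr
  rcases all P hP with rfl | rfl | rfl | rfl <;> rcases all P' hP' with rfl | rfl | rfl | rfl <;>
    rcases all Q hQ with rfl | rfl | rfl | rfl <;>
    simp [ne0, ne1, ne01, ne0.symm, ne1.symm, ne01.symm, hs0, hs1, hs2, hs0.symm, hs1.symm, hs2.symm, two0, two1, e1, e2, e3, e4, e5, e6]

/-- `P` is determined by its pairings with the non-zero 2-torsion elements. -/
theorem eq_zero_of_pr {M : Type*} [AddCommGroup M] {T₀ T₁ : M} (ne0 : T₀ ≠ 0) (ne1 : T₁ ≠ 0)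
    (ne01 : T₀ ≠ T₁) (two0 : T₀ + T₀ = 0) (two1 : T₁ + T₁ = 0)
    (all : ∀ x, x + x = 0 → x = 0 ∨ x = T₀ ∨ x = T₁ ∨ x = T₀ + T₁) {P : M}
    (hP : P + P = 0) (h : ∀ T, T ≠ 0 → T + T = 0 → pr P T = 1) : P = 0 := by
  have hs0 : T₀ + T₁ ≠ 0 := by
    intro h
    exact ne01 (by rw [← add_left_inj T₁, h, two1])
  have hs1 : T₀ + T₁ ≠ T₀ := by
    intro h
    exact ne1 (by simpa using h)
  have hs2 : T₀ + T₁ ≠ T₁ := by
    intro h
    exact ne0 (by simpa using h)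
  have h0 := h T₀ ne0 two0
  have h1 := h T₁ ne1 two1
  unfold pr at h0 h1
  by_contra hP0
  have h0' : P = T₀ := by
    by_contra hc
    simp [hP0, ne0, hc] at h0
  have h1' : P = T₁ := by
    by_contra hc
    simp [hP0, ne1, hc] at h1
  exact ne01 (h0'.symm.trans h1')

end Pool.Agent.Lib.MP_1a91b9_ntT.S9
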