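import Pool.Agent.Lib.MP_1a91b9_ntT.S9.KB

/-!
# JOB TA: transfer of local triviality to a bigger field and a given embedding

`k ⊆ L ⊆ L'`, `c` takes values in the 2-torsion and is trivial over `L`.
Let `i₀ : kbar → L'bar` be an embedding over `k` (`ι`), `j : Lbar → L'bar` an embedding over `L`
(`IsAlgClosed.lift`), `i : kbar → Lbar` an embedding over `k`. By `exists_comp` (`Ω = kbar`,
`F = L'bar`, `f = j ∘ i`, `g = ι`) there is `ρ` with `ι x = j (i (ρ x))`; put `i' = i ∘ ρ`, so
`ι = j ∘ i'`. `trivOver` for `i'` gives `P`. Put `P' = j P`.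
(a) for `σ ∈ Gal L'`, `τ ∈ Gal k` with `ι (τ x) = σ (ι x)`: by `exists_comp` (`k := L`, `Ω = Lbar`,
`F = L'bar`, `f = j`, `g = σ ∘ j`) there is `σ' ∈ Gal L` with `σ (j x) = j (σ' x)`; then
`j (i' (τ x)) = ι (τ x) = σ (j (i' x)) = j (σ' (i' x))`, so `i' (τ x) = σ' (i' x)` and
`i' (c τ) = σ' P - P`; apply `j`.
(b) for `σ' ∈ Gal L` there is `τ ∈ Gal k` with `i' (τ x) = σ' (i' x)` (`exists_comp`, `f = i'`,
`g = σ' ∘ i'`), so `σ' P - P = i' (c τ)` is killed by 2 and `2 P = P + P` is fixed by `Gal L`;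
`fixed_pt`: `P + P` comes from a point `Q` of `W(L)`.
(`Affine.Point.map_map` for compositions.)
-/

set_option autoImplicit false

namespace Pool.Agent.Lib.MP_1a91b9_ntT.S9

open WeierstrassCurve
open scoped Classical

theorem transfer {k L L' : Type*} [Field k] [Field L] [CharZero L] [Algebra k L] [Field L']
    [Algebra k L'] [Algebra L L'] [IsScalarTower k L L'] (W : WeierstrassCurve k)
    (c : Gal k → Pts W (AlgebraicClosure k)) (hc : c ∈ trivOver W L) (h2 : ∀ σ, c σ + c σ = 0)
    (ι : AlgebraicClosure k →ₐ[k] AlgebraicClosure L') :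
    ∃ (P : Pts W (AlgebraicClosure L')) (Q : Pts W L),
      P + P = up W L' (AlgebraicClosure L') (up W L L' Q) ∧
      ∀ (σ : Gal L') (τ : Gal k), (∀ x, ι (τ x) = σ (ι x)) →
        Affine.Point.map ι (c τ) =
          Affine.Point.map ((σ : AlgebraicClosure L' →ₐ[L'] _).restrictScalars k) P - P := by
  have : CharZero k := (algebraMap k L).charZero
  have : CharZero L' := charZero_of_injective_algebraMap (algebraMap L L').injective
  let j : AlgebraicClosure L →ₐ[L] AlgebraicClosure L' := IsAlgClosed.lift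
  let jk : AlgebraicClosure L →ₐ[k] AlgebraicClosure L' := j.restrictScalars k
  let i : AlgebraicClosure k →ₐ[k] AlgebraicClosure L := IsAlgClosed.lift
  obtain ⟨ρ, hρ⟩ := exists_comp (jk.comp i) ι
  let i' : AlgebraicClosure k →ₐ[k] AlgebraicClosure L := i.comp (ρ : _ →ₐ[k] _)
  have hι : ∀ x, ι x = jk (i' x) := hρ
  have hι' : jk.comp i' = ι := by
    ext x
    exact (hι x).symm
  obtain ⟨P, hP⟩ := hc i'
  have key : ∀ σ' : Gal L, Affine.Point.map ((σ' : AlgebraicClosure L →ₐ[L] _).restrictScalars k)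
      (P + P) = P + P := by
    intro σ'
    obtain ⟨τ, hτ⟩ := exists_comp i' (((σ' : AlgebraicClosure L →ₐ[L] _).restrictScalars k).comp i')
    have h1 := hP σ' τ (fun x => (hτ x).symm)
    have h3 : Affine.Point.map i' (c τ) + Affine.Point.map i' (c τ) = 0 := by
      rw [← _root_.map_add, h2, _root_.map_zero]
    rw [h1] at h3
    rw [_root_.map_add]
    have h4 : ∀ a b : Pts W (AlgebraicClosure L), (a - b) + (a - b) = 0 → a + a = b + b := by
      intro a b h
      have : a + a - (b + b) = 0 := by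
        rw [← h]; abel
      exact sub_eq_zero.1 this
    exact h4 _ _ h3
  obtain ⟨Q, hQ⟩ := fixed_pt W (P + P) key
  refine ⟨Affine.Point.map jk P, Q, ?_, ?_⟩
  · rw [← _root_.map_add, ← hQ]
    simp only [up]
    rw [Affine.Point.map_map, Affine.Point.map_map]
    congr 2
    ext x
    simp [jk]
    rw [← IsScalarTower.algebraMap_apply]
  · intro σ τ hστ
    obtain ⟨σ', hσ'⟩ := exists_comp j (((σ : AlgebraicClosure L' →ₐ[L'] _).restrictScalars L).comp j)
    have h5 : ∀ x, i' (τ x) = σ' (i' x) := by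
      intro x
      apply jk.injective
      change jk (i' (τ x)) = jk (σ' (i' x))
      rw [← hι, hστ, hι]
      exact hσ' (i' x)
    have h6 := hP σ' τ h5
    have h7 := congrArg (Affine.Point.map jk) h6
    rw [Affine.Point.map_map, hι', _root_.map_sub, Affine.Point.map_map] at h7
    rw [h7, Affine.Point.map_map]
    congr 3
    ext x
    exact (hσ' x).symm

end Pool.Agent.Lib.MP_1a91b9_ntT.S9
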