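import Pool.Agent.Lib.MP_1a91b9_ntT.Base
import Pool.Agent.Lib.MP_1a91b9_ntT.S9.TA
import Pool.Agent.Lib.MP_1a91b9_ntT.S9.GA
import Pool.Agent.Lib.MP_1a91b9_ntT.S9.ED

/-!
# JOB LB: a shift by a point of order three; JOB LC: the local computation
-/

set_option autoImplicit false

namespace Pool.Agent.Lib.MP_1a91b9_ntT.S9

open WeierstrassCurve
open scoped Classical

theorem E_bc (k F : Type*) [Field k] [Field F] [Algebra k F] :
    Affine.baseChange (E k) F = ⟨0, 0, 1, 0, 0⟩ := by
  simp [E, WeierstrassCurve.map, WeierstrassCurve.baseChange]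

private theorem lb_three {F : Type*} [Field F] (h3 : (3 : F) ≠ 0) {W : Affine F}
    (hW : W = ⟨0, 0, 1, 0, 0⟩) : ∃ R : W.Point, R + R = -R ∧ R ≠ 0 := by
  subst hW
  have hns : Affine.Nonsingular (⟨0, 0, 1, 0, 0⟩ : Affine F) 0 0 :=
    (nons_iff h3 rfl 0 0).2 (by simp)
  have hy : (0 : F) ≠ Affine.negY (⟨0, 0, 1, 0, 0⟩ : Affine F) 0 0 := by simp [Affine.negY]
  refine ⟨Affine.Point.some 0 0 hns, ?_, Affine.Point.some_ne_zero hns⟩
  rw [Affine.Point.add_self_of_Y_ne' hy]
  congr 1
  have hs : Affine.slope (⟨0, 0, 1, 0, 0⟩ : Affine F) 0 0 0 0 = 0 := by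
    rw [Affine.slope_of_Y_ne rfl hy]
    simp
  simp [hs, Affine.addX, Affine.negAddY]

/-- JOB LB. Let `R₀ = (0,0)`, a point of order 3 over `L` (`R₀ + R₀ = -R₀ = (0,-1)`, tangent
slope 0). The three points `Q`, `Q + (R₀ + R₀)`, `Q + (-R₀ - R₀)` are distinct, so are their images
(`Affine.Point.map_injective`), and at least one of them is different from `0` and `T`:
take `R = 0`, `R₀` or `-R₀`. -/
theorem exists_shift {k L L' : Type*} [Field k] [Field L] [CharZero L] [Algebra k L] [Field L']
    [Algebra k L'] [Algebra L L'] [IsScalarTower k L L'] (Q : Pts (E k) L) (T : Pts (E k) L') :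
    ∃ R : Pts (E k) L, up (E k) L L' (Q + (R + R)) ≠ 0 ∧ up (E k) L L' (Q + (R + R)) ≠ T := by
  obtain ⟨R₀, h1, h2⟩ := lb_three (F := L) three_ne_zero (E_bc k L)
  have hinj : Function.Injective (up (E k) L L') := Affine.Point.map_injective _
  have hA : Q + (0 + 0) ≠ Q + (R₀ + R₀) := by
    intro h
    have h3 := add_left_cancel h
    rw [h1, add_zero] at h3
    exact h2 (neg_eq_zero.1 h3.symm)
  have hB : Q + (0 + 0) ≠ Q + (-R₀ + -R₀) := by
    intro h
    have h3 := add_left_cancel h
    rw [← neg_add, h1, neg_neg, add_zero] at h3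
    exact h2 h3.symm
  have hC : Q + (R₀ + R₀) ≠ Q + (-R₀ + -R₀) := by
    intro h
    have h3 := add_left_cancel h
    rw [← neg_add, h1, neg_neg] at h3
    rw [h3] at h1
    exact h2 (by simpa using h1)
  by_contra hcon
  push Not at hcon
  have c0 := hcon 0
  have c1 := hcon R₀
  have c2 := hcon (-R₀)
  by_cases e0 : up (E k) L L' (Q + (0 + 0)) = 0
  · by_cases e1 : up (E k) L L' (Q + (R₀ + R₀)) = 0
    · exact hA (hinj (e0.trans e1.symm))
    · by_cases e2 : up (E k) L L' (Q + (-R₀ + -R₀)) = 0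
      · exact hB (hinj (e0.trans e2.symm))
      · exact hC (hinj ((c1 e1).trans (c2 e2).symm))
  · by_cases e1 : up (E k) L L' (Q + (R₀ + R₀)) = 0
    · by_cases e2 : up (E k) L L' (Q + (-R₀ + -R₀)) = 0
      · exact hC (hinj (e1.trans e2.symm))
      · exact hB (hinj ((c0 e0).trans (c2 e2).symm))
    · exact hA (hinj ((c0 e0).trans (c1 e1).symm))

private theorem lc_exists_j {k L' A : Type*} [Field k] [Field L'] [Algebra k L']
    [Field A] [Algebra k A] [Algebra A L'] [IsScalarTower k A L'] (ι : A →ₐ[k] AlgebraicClosure k) :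
    ∃ j : AlgebraicClosure k →ₐ[k] AlgebraicClosure L',
      ∀ a : A, j (ι a) = algebraMap L' (AlgebraicClosure L') (algebraMap A L' a) := by
  let _ : Algebra A (AlgebraicClosure k) := ι.toRingHom.toAlgebra
  have : IsScalarTower k A (AlgebraicClosure k) :=
    IsScalarTower.of_algebraMap_eq fun x => (ι.commutes x).symm
  have : Algebra.IsAlgebraic A (AlgebraicClosure k) :=
    Algebra.IsAlgebraic.tower_top (K := k) A
  let j₀ : AlgebraicClosure k →ₐ[A] AlgebraicClosure L' := IsAlgClosed.lift
  refine ⟨j₀.restrictScalars k, fun a => ?_⟩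
  have h1 : j₀ (algebraMap A (AlgebraicClosure k) a) = algebraMap A (AlgebraicClosure L') a :=
    j₀.commutes a
  exact h1

private theorem lc_sfn_map {k F F' : Type*} [Field k] [Field F] [Field F'] [Algebra k F]
    [Algebra k F'] (W : WeierstrassCurve k) (f : F →ₐ[k] F') (t : F) (P : Pts W F) :
    sfn (f t) (Affine.Point.map (W' := W) f P) = f (sfn t P) := by
  cases P with
  | zero => exact (map_zero f).symm
  | some X Y h =>
    rw [Affine.Point.map_some]
    show (2 * f X ^ 2 + 2 * f t * f X - f t ^ 2) / (2 * f Y + 1) =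
      f ((2 * X ^ 2 + 2 * t * X - t ^ 2) / (2 * Y + 1))
    simp only [map_div₀, map_sub, map_add, map_mul, map_pow, map_one, map_ofNat]

private theorem lc_tp_map {k F F' : Type*} [Field k] [Field F] [Field F'] [CharZero F]
    [CharZero F'] [Algebra k F] [Algebra k F'] (f : F →ₐ[k] F') (t : F) (ht : t ^ 3 = 2)
    (ht' : f t ^ 3 = 2) :
    Affine.Point.map (W' := E k) f (tp (E_bc k F) t ht) = tp (E_bc k F') (f t) ht' := by
  unfold tp
  rw [Affine.Point.map_some]
  congr 1
  · simp only [map_div₀, map_neg, map_ofNat]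
  · simp only [map_div₀, map_neg, map_one, map_ofNat]

private theorem lc_unit_sq {F : Type*} [Field F] (u : ℤˣ) : ((u : ℤ) : F) * ((u : ℤ) : F) = 1 := by
  rcases Int.units_eq_one_or u with h | h <;> simp [h]

/-- JOB LC. `k ⊆ L ⊆ L'`, `k ⊆ A ⊆ L'`, `A` embedded in `kbar` by `ι`; `t ∈ A` is a cube root of 2.
`b ∈ kbar`, `b² = ι α`, and `σ b = pr (c σ) T₀ * b` for the `σ` fixing `A`, where
`T₀ = tp (ι t)`. `kbar` is algebraic over `A` (through `ι`; `letI := ι.toRingHom.toAlgebra`), so
there is an embedding `j : kbar → L'bar` with `j (ι a) = a` (`IsAlgClosed.lift`), over `k`.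
`transfer`: `P`, `Q`, `P + P = Q`. `exists_shift` with `T` a point of `E(L')` equal to
`tp t` (over `L'`): `R`, and replace `P` by `P' = P + R`, `Q' = Q + (R + R)`: `P' + P' = Q' ≠ 0`,
`Q' ≠ tp t`, and `j (c τ) = σ P' - P'` still holds (`σ R = R`). `Q' = (x, y)`.
`s = sfn (j (ι t)) P'`: `s² = 4 x + 2 t` (`sfn_sq`). For `σ ∈ Gal L'` choose `τ` with
`j (τ x) = σ (j x)` (`exists_comp`); `τ` fixes `ι A`. `σ s = sfn (σ P') = sfn (P' + j (c τ)) =
pr (j (c τ)) (tp (j (ι t))) * s = pr (c τ) (tp (ι t)) * s` (`sfn_add`, `pr_map`), and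
`σ (j b) = j (τ b) = pr (c τ) (tp (ι t)) * j b`. So `j b * s` is fixed, `= β ∈ L'` (`fixed_elem`),
`β² = α (4 x + 2 t)`. If `4 x + 2 t = 0` then `x³ = -1/4`, `(2y+1)² = 4x³+1 = 0` and
`Q' = tp t`, excluded. -/
theorem local_main {k L L' A : Type*} [Field k] [CharZero k] [Field L] [CharZero L] [Algebra k L]
    [Field L'] [CharZero L'] [Algebra k L'] [Algebra L L'] [IsScalarTower k L L']
    [Field A] [Algebra k A] [Algebra A L'] [IsScalarTower k A L']
    (c : Gal k → Pts (E k) (AlgebraicClosure k)) (hc : c ∈ trivOver (E k) L)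
    (h2 : ∀ σ, c σ + c σ = 0) (t : A) (ht : t ^ 3 = 2) (ι : A →ₐ[k] AlgebraicClosure k)
    (ht' : ι t ^ 3 = 2) (b : AlgebraicClosure k) (α : A) (hα : ι α = b ^ 2)
    (hb : ∀ σ : Gal k, (∀ x : A, σ (ι x) = ι x) →
      σ b = (((pr (c σ) (tp (E_bc k (AlgebraicClosure k)) (ι t) ht') : ℤˣ) : ℤ) :
        AlgebraicClosure k) * b) :
    ∃ (x y : L) (β : L'), y ^ 2 + y = x ^ 3 ∧
      4 * algebraMap L L' x + 2 * algebraMap A L' t ≠ 0 ∧
      algebraMap A L' α * (4 * algebraMap L L' x + 2 * algebraMap A L' t) = β ^ 2 := by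
  obtain ⟨j, hj⟩ := lc_exists_j (L' := L') ι
  obtain ⟨P, Q, hPQ, hP⟩ := transfer (L := L) (E k) c hc h2 j
  have htL : algebraMap A L' t ^ 3 = 2 := by
    rw [← map_pow, ht, map_ofNat]
  obtain ⟨R, hR0, hRT⟩ := exists_shift (L' := L') Q (tp (E_bc k L') (algebraMap A L' t) htL)
  set U := up (E k) L' (AlgebraicClosure L') with hU
  set V := up (E k) L L' with hV
  set P' := P + U (V R) with hP'
  have hPP : P' + P' = U (V (Q + (R + R))) := by
    rw [hP', map_add, map_add, map_add V R R, map_add, ← hPQ]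
    abel
  -- coordinates of `Q'`
  obtain ⟨Q', hQ'⟩ : ∃ Q', Q' = Q + (R + R) := ⟨_, rfl⟩
  rw [← hQ'] at hPP hR0 hRT
  cases Q' with
  | zero => exact absurd rfl hR0
  | some x y h =>
    have hne : P' + P' ≠ 0 := by
      rw [hPP]
      intro h0
      exact Affine.Point.some_ne_zero _ h0
    obtain ⟨hn1, hVQ⟩ : ∃ hn1, V (Affine.Point.some x y h) = Affine.Point.some (algebraMap L L' x)
        (algebraMap L L' y) hn1 := ⟨_, rfl⟩
    obtain ⟨hn2, hUV⟩ : ∃ hn2, U (V (Affine.Point.some x y h)) = Affine.Point.some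
        (algebraMap L' (AlgebraicClosure L') (algebraMap L L' x))
        (algebraMap L' (AlgebraicClosure L') (algebraMap L L' y)) hn2 := ⟨_, rfl⟩
    have hjt : j (ι t) ^ 3 = 2 := by rw [← map_pow, ht', map_ofNat]
    have hsq := sfn_sq (E_bc k (AlgebraicClosure L')) (j (ι t)) hjt P' _ (hPP.trans hUV)
    -- the Galois action
    have hfix : ∀ σ : Gal L', σ (j b * sfn (j (ι t)) P') = j b * sfn (j (ι t)) P' := by
      intro σ
      obtain ⟨τ, hτ⟩ := exists_comp j
        ((((σ : AlgebraicClosure L' →ₐ[L'] AlgebraicClosure L')).restrictScalars k).comp j)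
      have hτ' : ∀ z, j (τ z) = σ (j z) := fun z => (hτ z).symm
      have hτι : ∀ z : A, τ (ι z) = ι z := by
        intro z
        apply j.injective
        show j (τ (ι z)) = j (ι z)
        rw [hτ', hj, σ.commutes]
      have hcτ := hP σ τ hτ'
      set S := Affine.Point.map (W' := E k)
        ((σ : AlgebraicClosure L' →ₐ[L'] AlgebraicClosure L').restrictScalars k) with hS
      have hSP' : S P' = P' + Affine.Point.map j (c τ) := by
        have hSU : S (U (V R)) = U (V R) := by
          rw [hS, hU]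
          show Affine.Point.map _ (Affine.Point.map _ _) = _
          rw [Affine.Point.map_map]
          have hcomp : ((σ : AlgebraicClosure L' →ₐ[L'] AlgebraicClosure L').restrictScalars k).comp
              (IsScalarTower.toAlgHom k L' (AlgebraicClosure L')) =
              IsScalarTower.toAlgHom k L' (AlgebraicClosure L') :=
            AlgHom.ext fun z => σ.commutes z
          rw [hcomp]
        rw [hP', map_add, hSU, hcτ]
        abel
      have hTT : Affine.Point.map (W' := E k) j (c τ) + Affine.Point.map (W' := E k) j (c τ) = 0 := by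
        rw [← map_add, h2, map_zero]
      have hpr : pr (Affine.Point.map (W' := E k) j (c τ))
          (tp (E_bc k (AlgebraicClosure L')) (j (ι t)) hjt) =
          pr (c τ) (tp (E_bc k (AlgebraicClosure k)) (ι t) ht') := by
        rw [← lc_tp_map j (ι t) ht' hjt]
        exact pr_map _ (Affine.Point.map_injective j) _ _
      have hs : σ (sfn (j (ι t)) P') =
          (((pr (c τ) (tp (E_bc k (AlgebraicClosure k)) (ι t) ht') : ℤˣ) : ℤ) :
            AlgebraicClosure L') * sfn (j (ι t)) P' := by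
        have h1 := lc_sfn_map (E k)
          ((σ : AlgebraicClosure L' →ₐ[L'] AlgebraicClosure L').restrictScalars k) (j (ι t)) P'
        have h3 : ((σ : AlgebraicClosure L' →ₐ[L'] AlgebraicClosure L').restrictScalars k)
            (j (ι t)) = j (ι t) := by
          show σ (j (ι t)) = j (ι t)
          rw [← hτ', hτι]
        rw [h3] at h1
        have h4 := sfn_add (E_bc k (AlgebraicClosure L')) (j (ι t)) hjt P'
          (Affine.Point.map (W' := E k) j (c τ)) hne hTT
        rw [← hpr, ← h4, ← hSP']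
        exact h1.symm
      have hb' : σ (j b) = (((pr (c τ) (tp (E_bc k (AlgebraicClosure k)) (ι t) ht') : ℤˣ) : ℤ) :
            AlgebraicClosure L') * j b := by
        rw [← hτ', hb τ hτι, map_mul, map_intCast]
      rw [map_mul, hs, hb']
      have hu := lc_unit_sq (F := AlgebraicClosure L')
        (pr (c τ) (tp (E_bc k (AlgebraicClosure k)) (ι t) ht'))
      linear_combination (j b * sfn (j (ι t)) P') * hu
    obtain ⟨β, hβ⟩ := fixed_elem _ hfix
    refine ⟨x, y, β, ?_, ?_, ?_⟩
    · exact (nons_iff three_ne_zero (E_bc k L) x y).1 h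
    · intro h0
      apply hRT
      have hx : algebraMap L L' x = - algebraMap A L' t / 2 := by
        linear_combination (1 / 4 : L') * h0
      have hxy : y ^ 2 + y = x ^ 3 := (nons_iff three_ne_zero (E_bc k L) x y).1 h
      have hxy' : algebraMap L L' y ^ 2 + algebraMap L L' y = algebraMap L L' x ^ 3 := by
        rw [← map_pow, ← map_pow, ← map_add, hxy]
      have hy2 : (2 * algebraMap L L' y + 1) ^ 2 = 0 := by
        have h5 : algebraMap L L' x ^ 3 = - 1 / 4 := by
          rw [hx]
          linear_combination (- 1 / 8 : L') * htL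
        linear_combination 4 * hxy' + 4 * h5
      have hy : algebraMap L L' y = -1 / 2 := by
        have h6 : 2 * algebraMap L L' y + 1 = 0 := by simpa using hy2
        linear_combination (1 / 2 : L') * h6
      rw [hVQ]
      unfold tp
      congr 1
    · apply (algebraMap L' (AlgebraicClosure L')).injective
      have h7 : j b ^ 2 = algebraMap L' (AlgebraicClosure L') (algebraMap A L' α) := by
        rw [← map_pow, ← hα, hj]
      rw [map_pow, hβ, mul_pow, hsq, h7, hj]
      simp only [map_mul, map_add, map_ofNat]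

end Pool.Agent.Lib.MP_1a91b9_ntT.S9
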