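import Mathlib

/-!
# JOB EA: halving a point of `y² + y = x³`

Put `c = 2 y₀ + 1` (`c² = 4 x₀³ + 1`), `T = (l² - 3 x₀) / 2`, `X = x₀ + T = (l² - x₀) / 2`,
`Y = l T - y₀ - 1`. Identities (`g = l⁴ - 6 x₀ l² - 4 c l - 3 x₀²`, `ring`):
`(2Y+1)² - 4X³ - 1 = g (l²/2 - 3 x₀/2)` modulo `c² = 4 x₀³ + 1`;
`3 X² - l (2Y+1) = - g / 4`. So `P = (X, Y)` is on the curve and `3 X² = l (2 Y + 1)`.
`2 Y + 1 ≠ 0`: otherwise `3 X² = 0`, `4 X³ + 1 = 0`, so `X ≠ 0` and `3 = 0`; excluded by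
`h3`. So the slope of the tangent at `P` is `3 X² / (2 Y + 1) = l` and `P + P` has
x-coordinate `l² - 2 X = x₀` and y-coordinate `-(l (x₀ - X) + Y) - 1 = l T - Y - 1 = y₀`.
(`Affine.Point.add_self_of_Y_ne`, `slope_of_Y_ne`, `addX`, `addY`.)
-/

set_option autoImplicit false

namespace Pool.Agent.Lib.MP_1a91b9_ntT.S9

open WeierstrassCurve
open scoped Classical

theorem half {F : Type*} [Field F] (h2 : (2 : F) ≠ 0) (h3 : (3 : F) ≠ 0)
    {W : Affine F} (hW : W = ⟨0, 0, 1, 0, 0⟩) {x₀ y₀ : F} (h : W.Nonsingular x₀ y₀) (l : F)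
    (hl : l ^ 4 - 6 * x₀ * l ^ 2 - 4 * (2 * y₀ + 1) * l - 3 * x₀ ^ 2 = 0) :
    ∃ P : W.Point, P + P = Affine.Point.some x₀ y₀ h := by
  have a1 : W.a₁ = 0 := by rw [hW]
  have a2 : W.a₂ = 0 := by rw [hW]
  have a3 : W.a₃ = 1 := by rw [hW]
  have a4 : W.a₄ = 0 := by rw [hW]
  have a6 : W.a₆ = 0 := by rw [hW]
  have h4 : (4 : F) ≠ 0 := by
    have : (4 : F) = 2 * 2 := by norm_num
    rw [this]
    exact mul_ne_zero h2 h2
  have he : y₀ ^ 2 + y₀ = x₀ ^ 3 := by
    have h1 := h.1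
    rw [Affine.equation_iff, a1, a2, a3, a4, a6] at h1
    linear_combination h1
  obtain ⟨X, hX⟩ : ∃ X : F, X = (l ^ 2 - x₀) / 2 := ⟨_, rfl⟩
  obtain ⟨Y, hY⟩ : ∃ Y : F, Y = l * ((l ^ 2 - 3 * x₀) / 2) - y₀ - 1 := ⟨_, rfl⟩
  have hX' : 2 * X = l ^ 2 - x₀ := by rw [hX]; field_simp
  have hY' : 2 * Y = l ^ 3 - 3 * x₀ * l - 2 * y₀ - 2 := by
    rw [hY]; field_simp
  -- the point is on the curve
  have e1 : Y ^ 2 + Y = X ^ 3 := by
    have h8 : (8 : F) ≠ 0 := by
      have : (8 : F) = 2 * 4 := by norm_num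
      rw [this]
      exact mul_ne_zero h2 h4
    have key : 8 * (Y ^ 2 + Y) = 8 * X ^ 3 := by
      have hx3 : 8 * X ^ 3 = (l ^ 2 - x₀) ^ 3 := by
        rw [← hX']; ring
      have hy2 : 8 * (Y ^ 2 + Y) =
          2 * (l ^ 3 - 3 * x₀ * l - 2 * y₀ - 2) ^ 2 + 4 * (l ^ 3 - 3 * x₀ * l - 2 * y₀ - 2) := by
        rw [← hY']; ring
      rw [hx3, hy2]
      linear_combination (l ^ 2 - 3 * x₀) * hl + 8 * he
    exact mul_left_cancel₀ h8 key
  have e2 : 3 * X ^ 2 = l * (2 * Y + 1) := by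
    have key : 4 * (3 * X ^ 2) = 4 * (l * (2 * Y + 1)) := by
      have hx2 : 4 * (3 * X ^ 2) = 3 * (l ^ 2 - x₀) ^ 2 := by
        rw [← hX']; ring
      rw [hx2, hY']
      linear_combination (-1) * hl
    exact mul_left_cancel₀ h4 key
  have e3 : 2 * Y + 1 ≠ 0 := by
    intro h0
    have hX0 : X = 0 := by
      have : 3 * X ^ 2 = 0 := by rw [e2, h0, mul_zero]
      rcases mul_eq_zero.1 this with h' | h'
      · exact absurd h' h3
      · exact pow_eq_zero_iff (two_ne_zero) |>.1 h'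
    have : (1 : F) = 0 := by
      have h5 : (2 * Y + 1) ^ 2 = 4 * X ^ 3 + 1 := by linear_combination 4 * e1
      rw [h0, hX0] at h5
      linear_combination (-1) * h5
    exact one_ne_zero this
  have hne : Y ≠ -Y - (0 : F) * X - 1 := by
    intro h0
    apply e3
    linear_combination h0
  have hns : W.Nonsingular X Y := by
    rw [Affine.nonsingular_iff]
    refine ⟨?_, Or.inr ?_⟩
    · rw [Affine.equation_iff, a1, a2, a3, a4, a6]
      linear_combination e1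
    · rw [a1, a3]
      exact hne
  have hneg : Y ≠ W.negY X Y := by
    rw [Affine.negY, a1, a3]
    exact hne
  have hsl : W.slope X X Y Y = l := by
    rw [Affine.slope_of_Y_ne rfl hneg]
    simp only [Affine.negY]
    rw [a1, a2, a3, a4]
    have hden : Y - (-Y - 0 * X - 1) = 2 * Y + 1 := by ring
    rw [hden, div_eq_iff e3]
    linear_combination e2
  refine ⟨Affine.Point.some X Y hns, ?_⟩
  rw [Affine.Point.add_self_of_Y_ne hneg]
  have hx : W.addX X X (W.slope X X Y Y) = x₀ := by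
    rw [hsl, Affine.addX, a1, a2]
    linear_combination (-1) * hX'
  have hy : W.addY X X Y (W.slope X X Y Y) = y₀ := by
    rw [Affine.addY, Affine.negAddY, hx, Affine.negY, hsl, a1, a3]
    have : 2 * (-(l * (x₀ - X) + Y) - 0 * x₀ - 1) = 2 * y₀ := by
      linear_combination l * hX' - hY'
    exact mul_left_cancel₀ h2 this
  simp only [Affine.Point.some.injEq]
  exact ⟨hx, hy⟩

/-- Over an algebraically closed field doubling is surjective. (A root `l` of the quartic: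
`IsAlgClosed.exists_root`.) -/
theorem exists_half_closed {F : Type*} [Field F] [IsAlgClosed F] [CharZero F]
    {W : Affine F} (hW : W = ⟨0, 0, 1, 0, 0⟩) (Q : W.Point) : ∃ P : W.Point, P + P = Q := by
  rcases Q with _ | ⟨x₀, y₀, h⟩
  · exact ⟨0, by rw [add_zero]; rfl⟩
  · obtain ⟨p, hp⟩ : ∃ p : Polynomial F, p = Polynomial.X ^ 4
        - Polynomial.C (6 * x₀) * Polynomial.X ^ 2
        - Polynomial.C (4 * (2 * y₀ + 1)) * Polynomial.X - Polynomial.C (3 * x₀ ^ 2) := ⟨_, rfl⟩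
    have hdeg : p.degree = 4 := by
      rw [hp]
      compute_degree!
    obtain ⟨l, hl⟩ := IsAlgClosed.exists_root p (by rw [hdeg]; norm_num)
    refine half (by norm_num) (by norm_num) hW h l ?_
    rw [Polynomial.IsRoot, hp] at hl
    simp only [Polynomial.eval_sub, Polynomial.eval_mul, Polynomial.eval_pow, Polynomial.eval_X,
      Polynomial.eval_C] at hl
    linear_combination hl

end Pool.Agent.Lib.MP_1a91b9_ntT.S9
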