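import Pool.Agent.Lib.MP_1a91b9_ntT.S9.QC
import Pool.Agent.Lib.MP_1a91b9_ntT.S9.QD
import Pool.Agent.Lib.MP_1a91b9_ntT.S9.EA
import Pool.Agent.Lib.MP_1a91b9_ntT.S9.EB

/-!
# JOB QE: the points over `N_v`, `v` above 3 and tame, are divisible by 2

`g(l) = l⁴ - 6 x₀ l² - 4 c l - 3 x₀²`, `c = 2 y₀ + 1`, `c² = 4 x₀³ + 1`. Values: `ρ = v(3) < 1`.
Case `v(x₀) ≤ 1`: `v(c)² ≥ ρ` (`tame_bound`) and `v(c) ≤ 1`. `l₀ = -3 x₀²/(4c)`, so
`v(l₀) ≤ ρ/v(c)` and `v(l₀)² ≤ ρ²/v(c)² ≤ ρ`; `g(l₀) = l₀² (l₀² - 6 x₀)` has value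
`≤ ρ³/v(c)²`. Put `l = l₀ + c m`:
`g(l)/c² = A + B m + C m² + D m³ + F m⁴` with `A = g(l₀)/c²` (`v(A) ≤ ρ³/v(c)⁴ ≤ ρ < 1`),
`B = (4 l₀³ - 12 x₀ l₀ - 4 c)/c` (`v(l₀) v(l₀)² < v(c)` as `v(l₀)/v(c) ≤ ρ/v(c)² ≤ 1`, `v(l₀)² ≤ ρ`;
`v(12 x₀ l₀) ≤ ρ ρ/v(c) < v(c)`; `v(4) = 1`, so `v(B) = 1`), `C = 6 l₀² - 6 x₀`, `D = 4 l₀ c`, `F = c²`.
`hensel_small`.
Case `v(x₀) > 1`: `v(c)² = v(x₀)³ > 1`; `w = x₀³/c²`, `4 w = 1 - c⁻²`, so `v(w) = 1`; `hensel_small` with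
`A = -3w²`, `B = -4w`, `C = -6w`, `D = 0`, `F = 1` gives `m`; `l = m c/x₀`:
`g(l) = (c/x₀)⁴ (m⁴ - 6 w m² - 4 w m - 3 w²)` (using `x₀³ = w c²`).
Then `half` (with `nons_iff`, `eqn_iff`).
-/

set_option autoImplicit false

namespace Pool.Agent.Lib.MP_1a91b9_ntT.S9

open NumberField IsDedekindDomain WithZero WeierstrassCurve
open scoped Classical

variable {N : Type*} [Field N] [NumberField N]

private theorem qe_three (v : HeightOneSpectrum (𝓞 N)) :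
    Valued.v (3 : v.adicCompletion N) = v.valuation N 3 := by
  rw [← Pool.Agent.Lib.MP_1a91b9_nt.valued_algebraMap v 3, map_ofNat (algebraMap N _) 3]

private theorem qe_ne (v : HeightOneSpectrum (𝓞 N)) (n : ℕ) (hn : n ≠ 0) :
    (n : v.adicCompletion N) ≠ 0 := by
  have h1 : (n : N) ≠ 0 := by exact_mod_cast hn
  rw [← map_natCast (algebraMap N (v.adicCompletion N)) n]
  exact (map_ne_zero _).mpr h1

private theorem qe_two {v : HeightOneSpectrum (𝓞 N)}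
    (hρ : Valued.v (3 : v.adicCompletion N) < 1) : Valued.v (2 : v.adicCompletion N) = 1 := by
  have h0 : Valued.v (3 : v.adicCompletion N) < Valued.v (1 : v.adicCompletion N) := by
    rw [Valuation.map_one]
    exact hρ
  have h1 : Valued.v ((3 : v.adicCompletion N) + 1) = Valued.v (1 : v.adicCompletion N) :=
    Valuation.map_add_eq_of_lt_right _ h0
  rw [map_one, show (3 : v.adicCompletion N) + 1 = 2 ^ 2 by norm_num, map_pow] at h1
  exact (pow_eq_one_iff_of_nonneg zero_le two_ne_zero).mp h1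

private theorem qe_caseA (v : HeightOneSpectrum (𝓞 N))
    (hρ : Valued.v (3 : v.adicCompletion N) < 1) (hρ0 : Valued.v (3 : v.adicCompletion N) ≠ 0)
    (hv4 : Valued.v (4 : v.adicCompletion N) = 1)
    (hv6 : Valued.v (6 : v.adicCompletion N) = Valued.v (3 : v.adicCompletion N))
    (x₀ c : v.adicCompletion N) (hc2 : c ^ 2 = 4 * x₀ ^ 3 + 1) (hx : Valued.v x₀ ≤ 1)
    (hb : Valued.v (3 : v.adicCompletion N) ≤ Valued.v (4 * x₀ ^ 3 + 1)) :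
    ∃ l, l ^ 4 - 6 * x₀ * l ^ 2 - 4 * c * l - 3 * x₀ ^ 2 = 0 := by
  have hγρ : Valued.v (3 : v.adicCompletion N) ≤ Valued.v c ^ 2 := by
    rw [← map_pow, hc2]
    exact hb
  have hγ0 : Valued.v c ≠ 0 := by
    intro h0
    rw [h0, zero_pow two_ne_zero] at hγρ
    exact hρ0 (le_zero_iff.mp hγρ)
  have hc0 : c ≠ 0 := (Valuation.ne_zero_iff _).mp hγ0
  have h40 : (4 : v.adicCompletion N) ≠ 0 := by
    have := qe_ne (N := N) v 4 (by norm_num)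
    exact_mod_cast this
  have hγ1 : Valued.v c ≤ 1 := by
    have h1 : Valued.v c ^ 2 ≤ 1 := by
      rw [← map_pow, hc2]
      refine (Valuation.map_add _ _ _).trans (max_le ?_ (Valuation.map_one _).le)
      rw [map_mul, hv4, one_mul, map_pow]
      exact pow_le_one' hx 3
    exact (pow_le_one_iff two_ne_zero).mp h1
  obtain ⟨l₀, hl₀⟩ : ∃ l₀, l₀ = -3 * x₀ ^ 2 / (4 * c) := ⟨_, rfl⟩
  have hl : 4 * c * l₀ = - (3 * x₀ ^ 2) := by
    rw [hl₀]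
    field_simp
  have ha : Valued.v c * Valued.v l₀ ≤ Valued.v (3 : v.adicCompletion N) := by
    have h1 := congrArg Valued.v hl
    rw [map_mul, map_mul, hv4, one_mul, Valuation.map_neg, map_mul, map_pow] at h1
    rw [h1]
    exact mul_le_of_le_one_right' (pow_le_one' hx 2)
  have ha1 : Valued.v l₀ ≤ Valued.v c := by
    have h1 : Valued.v c * Valued.v l₀ ≤ Valued.v c * Valued.v c := by
      rw [← pow_two]
      exact ha.trans hγρ
    exact (mul_le_mul_iff_right₀ (zero_lt_iff.mpr hγ0)).mp h1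
  have ha2 : Valued.v l₀ ^ 2 ≤ Valued.v (3 : v.adicCompletion N) := by
    rw [pow_two]
    exact (mul_le_mul' ha1 le_rfl).trans ha
  have ha3 : Valued.v l₀ ≤ 1 := ha1.trans hγ1
  have hx12 : Valued.v (12 * x₀ * l₀) ≤ Valued.v (3 : v.adicCompletion N) * Valued.v l₀ := by
    rw [show (12 : v.adicCompletion N) * x₀ * l₀ = 4 * (3 * (x₀ * l₀)) by ring, map_mul, hv4, one_mul,
      map_mul, map_mul]
    exact mul_le_mul' le_rfl (mul_le_of_le_one_left' hx)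
  have h1 : Valued.v (4 * l₀ ^ 3 - 12 * x₀ * l₀) < Valued.v (4 * c) := by
    have h2 : Valued.v (4 * l₀ ^ 3 - 12 * x₀ * l₀) ≤ Valued.v (3 : v.adicCompletion N) * Valued.v l₀ := by
      refine (Valuation.map_sub _ _ _).trans (max_le ?_ hx12)
      rw [map_mul, hv4, one_mul, map_pow, pow_succ]
      exact mul_le_mul' ha2 le_rfl
    refine h2.trans_lt ?_
    rw [map_mul, hv4, one_mul]
    refine (mul_le_mul' le_rfl ha1).trans_lt ?_
    exact mul_lt_of_lt_one_left (zero_lt_iff.mpr hγ0) hρ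
  have hB : Valued.v ((4 * l₀ ^ 3 - 12 * x₀ * l₀ - 4 * c) / c) = 1 := by
    have h3 : Valued.v (4 * l₀ ^ 3 - 12 * x₀ * l₀ - 4 * c) = Valued.v c := by
      rw [Valuation.map_sub_eq_of_lt_right _ h1, map_mul, hv4, one_mul]
    rw [map_div₀, h3, div_self hγ0]
  have hA : Valued.v (l₀ ^ 2 * (l₀ ^ 2 - 6 * x₀) / c ^ 2) < 1 := by
    rw [map_div₀, div_lt_one₀ (by rw [map_pow]; exact pow_pos (zero_lt_iff.mpr hγ0) 2), map_mul, map_pow,
      map_pow]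
    have h4 : Valued.v (l₀ ^ 2 - 6 * x₀) ≤ Valued.v (3 : v.adicCompletion N) := by
      refine (Valuation.map_sub _ _ _).trans (max_le ?_ ?_)
      · rw [map_pow]
        exact ha2
      · rw [map_mul, hv6]
        exact mul_le_of_le_one_right' hx
    refine (mul_le_mul' (pow_le_pow_left' ha1 2) h4).trans_lt ?_
    exact mul_lt_of_lt_one_right (pow_pos (zero_lt_iff.mpr hγ0) 2) hρ
  have hC : Valued.v (6 * l₀ ^ 2 - 6 * x₀) ≤ 1 := by
    refine (Valuation.map_sub _ _ _).trans (max_le ?_ ?_)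
    · rw [map_mul, hv6, map_pow]
      exact mul_le_one' hρ.le (pow_le_one' ha3 2)
    · rw [map_mul, hv6]
      exact mul_le_one' hρ.le hx
  have hD : Valued.v (4 * l₀ * c) ≤ 1 := by
    rw [map_mul, map_mul, hv4, one_mul]
    exact mul_le_one' ha3 hγ1
  have hF : Valued.v (c ^ 2) ≤ 1 := by
    rw [map_pow]
    exact pow_le_one' hγ1 2
  obtain ⟨m, _, hm⟩ := hensel_small v _ _ _ _ _ hA hB hC hD hF
  refine ⟨l₀ + c * m, ?_⟩
  have h5 : (l₀ + c * m) ^ 4 - 6 * x₀ * (l₀ + c * m) ^ 2 - 4 * c * (l₀ + c * m) - 3 * x₀ ^ 2 =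
      c ^ 2 * (l₀ ^ 2 * (l₀ ^ 2 - 6 * x₀) / c ^ 2 +
        (4 * l₀ ^ 3 - 12 * x₀ * l₀ - 4 * c) / c * m + (6 * l₀ ^ 2 - 6 * x₀) * m ^ 2 +
        4 * l₀ * c * m ^ 3 + c ^ 2 * m ^ 4) - (4 * c * l₀ + 3 * x₀ ^ 2) := by
    field_simp
    ring
  rw [h5, hm, hl]
  ring

private theorem qe_caseB (v : HeightOneSpectrum (𝓞 N))
    (hρ : Valued.v (3 : v.adicCompletion N) < 1)
    (hv4 : Valued.v (4 : v.adicCompletion N) = 1)
    (hv6 : Valued.v (6 : v.adicCompletion N) = Valued.v (3 : v.adicCompletion N))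
    (x₀ c : v.adicCompletion N) (hc2 : c ^ 2 = 4 * x₀ ^ 3 + 1) (hx : 1 < Valued.v x₀) :
    ∃ l, l ^ 4 - 6 * x₀ * l ^ 2 - 4 * c * l - 3 * x₀ ^ 2 = 0 := by
  have hx0 : x₀ ≠ 0 := by
    intro h0
    rw [h0, map_zero] at hx
    exact not_lt_zero hx
  have hX : (1 : ℤᵐ⁰) < Valued.v x₀ ^ 3 := one_lt_pow₀ hx three_ne_zero
  have hγ : Valued.v c ^ 2 = Valued.v x₀ ^ 3 := by
    rw [← map_pow, hc2, Valuation.map_add_eq_of_lt_left, map_mul, hv4, one_mul, map_pow]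
    rw [map_mul, hv4, one_mul, map_pow, Valuation.map_one]
    exact hX
  have hc0 : c ≠ 0 := by
    intro h0
    rw [h0, map_zero, zero_pow two_ne_zero] at hγ
    rw [← hγ] at hX
    exact not_lt_zero hX
  obtain ⟨w, hw⟩ : ∃ w, w = x₀ ^ 3 / c ^ 2 := ⟨_, rfl⟩
  have hwc : w * c ^ 2 = x₀ ^ 3 := by
    rw [hw]
    field_simp
  have hvw : Valued.v w = 1 := by
    rw [hw, map_div₀, map_pow, map_pow, hγ, div_self]
    exact (zero_lt_one.trans hX).ne'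
  have hA : Valued.v (-(3 * w ^ 2)) < 1 := by
    rw [Valuation.map_neg, map_mul, map_pow, hvw, one_pow, mul_one]
    exact hρ
  have hB : Valued.v (-(4 * w)) = 1 := by
    rw [Valuation.map_neg, map_mul, hvw, hv4, one_mul]
  have hC : Valued.v (-(6 * w)) ≤ 1 := by
    rw [Valuation.map_neg, map_mul, hvw, hv6, mul_one]
    exact hρ.le
  obtain ⟨m, _, hm⟩ := hensel_small v _ _ _ 0 1 hA hB hC (by rw [map_zero]; exact zero_le)
    (Valuation.map_one _).le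
  refine ⟨m * c / x₀, ?_⟩
  have h1 : x₀ ^ 4 * ((m * c / x₀) ^ 4 - 6 * x₀ * (m * c / x₀) ^ 2 - 4 * c * (m * c / x₀) - 3 * x₀ ^ 2) =
      c ^ 4 * m ^ 4 - 6 * m ^ 2 * c ^ 2 * x₀ ^ 3 - 4 * m * c ^ 2 * x₀ ^ 3 - 3 * (x₀ ^ 3) ^ 2 := by
    field_simp
  have h2 : x₀ ^ 4 * ((m * c / x₀) ^ 4 - 6 * x₀ * (m * c / x₀) ^ 2 - 4 * c * (m * c / x₀) - 3 * x₀ ^ 2) =
      0 := by
    rw [h1, ← hwc]
    linear_combination c ^ 4 * hm
  exact (mul_eq_zero.mp h2).resolve_left (pow_ne_zero 4 hx0)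

theorem exists_quartic (v : HeightOneSpectrum (𝓞 N)) (h3 : v.valuation N 3 < 1)
    (ht : ∀ m : ℤ, v.valuation N 3 ≠ exp (3 * m)) (x₀ y₀ : v.adicCompletion N)
    (h : y₀ ^ 2 + y₀ = x₀ ^ 3) :
    ∃ l, l ^ 4 - 6 * x₀ * l ^ 2 - 4 * (2 * y₀ + 1) * l - 3 * x₀ ^ 2 = 0 := by
  have hρ : Valued.v (3 : v.adicCompletion N) < 1 := by
    rw [qe_three]
    exact h3
  have hρ0 : Valued.v (3 : v.adicCompletion N) ≠ 0 := by
    rw [Valuation.ne_zero_iff]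
    exact qe_ne (N := N) v 3 (by norm_num)
  have hv2 := qe_two hρ
  have hv4 : Valued.v (4 : v.adicCompletion N) = 1 := by
    rw [show (4 : v.adicCompletion N) = 2 * 2 by norm_num, map_mul, hv2, one_mul]
  have hv6 : Valued.v (6 : v.adicCompletion N) = Valued.v (3 : v.adicCompletion N) := by
    rw [show (6 : v.adicCompletion N) = 2 * 3 by norm_num, map_mul, hv2, one_mul]
  obtain ⟨c, hc⟩ : ∃ c, c = 2 * y₀ + 1 := ⟨_, rfl⟩
  have hc2 : c ^ 2 = 4 * x₀ ^ 3 + 1 := by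
    rw [hc]
    linear_combination 4 * h
  rw [← hc]
  rcases le_or_gt (Valued.v x₀) 1 with hx | hx
  · exact qe_caseA v hρ hρ0 hv4 hv6 x₀ c hc2 hx (by
      rw [qe_three]
      exact tame_bound v h3 ht x₀ hx)
  · exact qe_caseB v hρ hv4 hv6 x₀ c hc2 hx

theorem div_local (v : HeightOneSpectrum (𝓞 N)) (h3 : v.valuation N 3 < 1)
    (ht : ∀ m : ℤ, v.valuation N 3 ≠ exp (3 * m)) {W : Affine (v.adicCompletion N)}
    (hW : W = ⟨0, 0, 1, 0, 0⟩) (Q : W.Point) : ∃ P : W.Point, P + P = Q := by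
  rcases Q with (_ | ⟨x₀, y₀, h⟩)
  · exact ⟨0, add_zero 0⟩
  · obtain ⟨l, hl⟩ := exists_quartic v h3 ht x₀ y₀ ((eqn_iff hW x₀ y₀).mp h.1)
    exact half (by exact_mod_cast qe_ne (N := N) v 2 two_ne_zero)
      (by exact_mod_cast qe_ne (N := N) v 3 three_ne_zero) hW h l hl

end Pool.Agent.Lib.MP_1a91b9_ntT.S9
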