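import Pool.Agent.Lib.MP_1a91b9_ntT.S9.QC
import Pool.Agent.Lib.MP_1a91b9_ntT.S9.EB

/-!
# JOB QG1: close points; JOB QG2: finiteness of balls modulo small balls; JOB QG3: covering

(close) `P = (x₁,y₁)`, `Q = (x₂,y₂)`, `P ≠ Q`. `c = 2 y₁ + 1`, `c² = 4x₁³+1`: `v(c)² ≥ ρ = v(3)`
(`tame_bound` if `v(x₁) ≤ 1`; if `v(x₁) > 1`, `v(c)² = v(x₁)³ > 1`). `-Q = (x₂, -y₂-1)`.
`y₁ + y₂ + 1 = c + (y₂ - y₁)` has value `v(c)` since `v(y₁-y₂)² < ρ`. So `y₁ + y₂ + 1 ≠ 0`, and if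
`x₁ = x₂` then `y₁ = y₂` (the only other point is `-P`, `y₂ = -y₁-1`), excluded. So
`P - Q = P + (-Q)` has x-coordinate `l² - x₁ - x₂` with `l = (y₁ + y₂ + 1)/(x₁ - x₂)`,
`v(l)² = v(c)²/v(x₁-x₂)² ≥ ρ/v(x₁-x₂)² > M ≥ v(x₁), v(x₂)`.
(finite_ball) choose a uniformizer `π ∈ N` (`valuation_exists_uniformizer`) and `a` with `exp a ≥ M`;
`x π^a` is integral; the residue ring `O_N / v^b` is finite and every element of `O_v` is congruent to an
element of `O_N` up to `exp (-b)`: density of `N` in `N_v` and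
`HeightOneSpectrum.exists_valuation_sub_lt_of_integer`; or compactness.
(cover) `v(y) ≤ max 1 M²`-type bound for `v(x) ≤ M`, `1 ≤ M`: `v(y)² ≤ max(v(y), M³)`. Choose for each pair of
classes of `(x, y)` (finitely many) a point of the curve in it, if there is one; plus the point 0.
-/

set_option autoImplicit false

namespace Pool.Agent.Lib.MP_1a91b9_ntT.S9

open NumberField IsDedekindDomain WithZero WeierstrassCurve
open scoped Classical

variable {N : Type*} [Field N] [NumberField N]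

private theorem qg_three (v : HeightOneSpectrum (𝓞 N)) :
    Valued.v (3 : v.adicCompletion N) = v.valuation N 3 := by
  rw [← Pool.Agent.Lib.MP_1a91b9_nt.valued_algebraMap v 3, map_ofNat (algebraMap N _) 3]

private theorem qg_ne (v : HeightOneSpectrum (𝓞 N)) (n : ℕ) (hn : n ≠ 0) :
    (n : v.adicCompletion N) ≠ 0 := by
  have h1 : (n : N) ≠ 0 := by exact_mod_cast hn
  rw [← map_natCast (algebraMap N (v.adicCompletion N)) n]
  exact (map_ne_zero _).mpr h1

private theorem qg_four {v : HeightOneSpectrum (𝓞 N)}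
    (hρ : Valued.v (3 : v.adicCompletion N) < 1) : Valued.v (4 : v.adicCompletion N) = 1 := by
  have h0 : Valued.v (3 : v.adicCompletion N) < Valued.v (1 : v.adicCompletion N) := by
    rw [Valuation.map_one]
    exact hρ
  have h1 : Valued.v ((3 : v.adicCompletion N) + 1) = Valued.v (1 : v.adicCompletion N) :=
    Valuation.map_add_eq_of_lt_right _ h0
  rwa [Valuation.map_one, show (3 : v.adicCompletion N) + 1 = 4 by norm_num] at h1

private theorem qg_cb (v : HeightOneSpectrum (𝓞 N)) (h3 : v.valuation N 3 < 1)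
    (ht : ∀ m : ℤ, v.valuation N 3 ≠ exp (3 * m)) (x y : v.adicCompletion N)
    (h : y ^ 2 + y = x ^ 3) :
    Valued.v (3 : v.adicCompletion N) ≤ Valued.v (2 * y + 1) ^ 2 := by
  have hρ : Valued.v (3 : v.adicCompletion N) < 1 := by
    rw [qg_three]
    exact h3
  have hc2 : (2 * y + 1) ^ 2 = 4 * x ^ 3 + 1 := by
    linear_combination 4 * h
  rw [← map_pow, hc2]
  rcases le_or_gt (Valued.v x) 1 with hx | hx
  · rw [qg_three]
    exact tame_bound v h3 ht x hx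
  · have hX : (1 : ℤᵐ⁰) < Valued.v x ^ 3 := one_lt_pow₀ hx three_ne_zero
    rw [Valuation.map_add_eq_of_lt_left, map_mul, qg_four hρ, one_mul, map_pow]
    · exact hρ.le.trans hX.le
    · rw [map_mul, qg_four hρ, one_mul, map_pow, Valuation.map_one]
      exact hX

/-- JOB QG1 -/
theorem close (v : HeightOneSpectrum (𝓞 N)) (h3 : v.valuation N 3 < 1)
    (ht : ∀ m : ℤ, v.valuation N 3 ≠ exp (3 * m)) {W : Affine (v.adicCompletion N)}
    (hW : W = ⟨0, 0, 1, 0, 0⟩) (M : ℤᵐ⁰) (hM : 1 ≤ M) {x₁ y₁ x₂ y₂ : v.adicCompletion N}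
    (h₁ : W.Nonsingular x₁ y₁) (h₂ : W.Nonsingular x₂ y₂) (hx₁ : Valued.v x₁ ≤ M)
    (hx₂ : Valued.v x₂ ≤ M) (hx : Valued.v (x₁ - x₂) ^ 2 * M < v.valuation N 3)
    (hy : Valued.v (y₁ - y₂) ^ 2 < v.valuation N 3)
    (hne : Affine.Point.some x₁ y₁ h₁ ≠ Affine.Point.some x₂ y₂ h₂) :
    ∃ (x y : v.adicCompletion N) (h : W.Nonsingular x y),
      Affine.Point.some x₁ y₁ h₁ - Affine.Point.some x₂ y₂ h₂ = Affine.Point.some x y h ∧
        M < Valued.v x := by
  have hρ : Valued.v (3 : v.adicCompletion N) < 1 := by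
    rw [qg_three]
    exact h3
  have hρ0 : Valued.v (3 : v.adicCompletion N) ≠ 0 := by
    rw [Valuation.ne_zero_iff]
    exact_mod_cast qg_ne (N := N) v 3 three_ne_zero
  rw [← qg_three] at hx hy
  have e1 := (eqn_iff hW x₁ y₁).mp h₁.1
  have e2 := (eqn_iff hW x₂ y₂).mp h₂.1
  have hg := qg_cb v h3 ht x₁ y₁ e1
  have hγ : Valued.v (y₁ + y₂ + 1) = Valued.v (2 * y₁ + 1) := by
    rw [show y₁ + y₂ + 1 = (2 * y₁ + 1) - (y₁ - y₂) by ring]
    refine Valuation.map_sub_eq_of_lt_left _ ?_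
    exact lt_of_pow_lt_pow_left' 2 (hy.trans_le hg)
  have hγ0 : Valued.v (y₁ + y₂ + 1) ≠ 0 := by
    intro h0
    rw [← hγ, h0, zero_pow two_ne_zero] at hg
    exact hρ0 (le_zero_iff.mp hg)
  have hs0 : y₁ + y₂ + 1 ≠ 0 := (Valuation.ne_zero_iff _).mp hγ0
  have hx12 : x₁ ≠ x₂ := by
    intro h0
    have h1 : (y₁ - y₂) * (y₁ + y₂ + 1) = 0 := by
      rw [h0] at e1
      linear_combination e1 - e2
    have h2 : y₁ = y₂ := sub_eq_zero.mp ((mul_eq_zero.mp h1).resolve_right hs0)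
    subst h0
    subst h2
    exact hne rfl
  have hneg : W.negY x₂ y₂ = -y₂ - 1 := by
    rw [hW]
    simp [Affine.negY]
  have hns : W.Nonsingular x₂ (W.negY x₂ y₂) := (Affine.nonsingular_neg x₂ y₂).mpr h₂
  have hslope : W.slope x₁ x₂ y₁ (W.negY x₂ y₂) = (y₁ + y₂ + 1) / (x₁ - x₂) := by
    rw [Affine.slope_of_X_ne hx12, hneg]
    congr 1
    ring
  have hX : W.addX x₁ x₂ (W.slope x₁ x₂ y₁ (W.negY x₂ y₂)) =
      ((y₁ + y₂ + 1) / (x₁ - x₂)) ^ 2 - (x₁ + x₂) := by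
    rw [hslope]
    rw [hW]
    simp only [Affine.addX]
    ring
  refine ⟨W.addX x₁ x₂ (W.slope x₁ x₂ y₁ (W.negY x₂ y₂)),
    W.addY x₁ x₂ y₁ (W.slope x₁ x₂ y₁ (W.negY x₂ y₂)),
    Affine.nonsingular_add h₁ hns fun h => hx12 h.1, ?_, ?_⟩
  · rw [sub_eq_add_neg, Affine.Point.neg_some]
    exact Affine.Point.add_of_X_ne hx12
  · have hd0 : x₁ - x₂ ≠ 0 := sub_ne_zero.mpr hx12
    have hdv : 0 < Valued.v (x₁ - x₂) ^ 2 :=
      pow_pos (zero_lt_iff.mpr ((Valuation.ne_zero_iff _).mpr hd0)) 2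
    have h5 : M < Valued.v (((y₁ + y₂ + 1) / (x₁ - x₂)) ^ 2) := by
      rw [map_pow, map_div₀, hγ, div_pow, lt_div_iff₀ hdv, mul_comm]
      exact hx.trans_le hg
    have h6 : Valued.v (x₁ + x₂) ≤ M := (Valuation.map_add _ _ _).trans (max_le hx₁ hx₂)
    rw [hX, Valuation.map_sub_eq_of_lt_left _ (h6.trans_lt h5)]
    exact h5

private theorem qg2_int (v : HeightOneSpectrum (𝓞 N)) (n : ℕ) :
    ∃ S : Finset (v.adicCompletion N), ∀ x : v.adicCompletion N, Valued.v x ≤ 1 →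
      ∃ s ∈ S, Valued.v (x - s) ≤ exp (-(n : ℤ)) := by
  have hfin : Finite (𝓞 N ⧸ v.asIdeal ^ n) :=
    Ideal.finiteQuotientOfFreeOfNeBot _ (pow_ne_zero n v.ne_bot)
  have := Fintype.ofFinite (𝓞 N ⧸ v.asIdeal ^ n)
  let g : (𝓞 N ⧸ v.asIdeal ^ n) → v.adicCompletion N := fun q =>
    algebraMap N (v.adicCompletion N) (algebraMap (𝓞 N) N (Quotient.out q))
  refine ⟨Finset.univ.image g, fun x hx => ?_⟩
  obtain ⟨c, hc⟩ := HeightOneSpectrum.valuedAdicCompletion_surjective N v (exp (-(n : ℤ)))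
  have hcr : Valued.v.restrict c ≠ 0 := by
    rw [Ne, Valuation.restrict_eq_zero_iff, hc]
    exact exp_ne_zero
  have hO : IsOpen ((fun y : v.adicCompletion N => x - y) ⁻¹'
      {z : v.adicCompletion N | Valued.v.restrict z ≤ Valued.v.restrict c}) :=
    (Valued.isOpen_closedBall _ hcr).preimage (continuous_const.sub continuous_id)
  obtain ⟨z, hz⟩ := (HeightOneSpectrum.denseRange_algebraMap N v).exists_mem_open hO
    ⟨x, by
      rw [Set.mem_preimage, sub_self, Set.mem_ofPred_eq, map_zero]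
      exact zero_le⟩
  rw [Set.mem_preimage, Set.mem_ofPred_eq, Valuation.restrict_le_iff, hc] at hz
  have hn1 : exp (-(n : ℤ)) ≤ (1 : ℤᵐ⁰) := by
    rw [← exp_zero, exp_le_exp]
    omega
  have hvz : v.valuation N z ≤ 1 := by
    have e1 : Valued.v (algebraMap N (v.adicCompletion N) z) = v.valuation N z :=
      HeightOneSpectrum.valuedAdicCompletion_eq_valuation' v _
    rw [← e1]
    have e2 : algebraMap N (v.adicCompletion N) z =
      x - (x - algebraMap N (v.adicCompletion N) z) := by rw [sub_sub_cancel]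
    rw [e2]
    exact Valuation.map_sub_le _ hx (hz.trans hn1)
  obtain ⟨r, hr⟩ := v.exists_valuation_sub_lt_of_integer hvz (Units.mk0 (exp (-(n : ℤ))) exp_ne_zero)
  rw [Units.val_mk0] at hr
  refine ⟨g (Ideal.Quotient.mk _ r), Finset.mem_image_of_mem g (Finset.mem_univ _), ?_⟩
  have hq : r - Quotient.out (Ideal.Quotient.mk (v.asIdeal ^ n) r) ∈ v.asIdeal ^ n := by
    rw [← Ideal.Quotient.mk_eq_mk_iff_sub_mem]
    exact (Quotient.out_eq (Ideal.Quotient.mk (v.asIdeal ^ n) r)).symm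
  have hq' : v.valuation N (algebraMap (𝓞 N) N
      (r - Quotient.out (Ideal.Quotient.mk (v.asIdeal ^ n) r))) ≤ exp (-(n : ℤ)) := by
    rw [HeightOneSpectrum.valuation_of_algebraMap, HeightOneSpectrum.intValuation_le_pow_iff_mem]
    exact hq
  have e3 : x - g (Ideal.Quotient.mk _ r) = (x - algebraMap N (v.adicCompletion N) z) +
      (algebraMap N (v.adicCompletion N) (-(algebraMap (𝓞 N) N r - z)) +
        algebraMap N (v.adicCompletion N) (algebraMap (𝓞 N) N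
          (r - Quotient.out (Ideal.Quotient.mk (v.asIdeal ^ n) r)))) := by
    show x - algebraMap N (v.adicCompletion N) (algebraMap (𝓞 N) N
      (Quotient.out (Ideal.Quotient.mk (v.asIdeal ^ n) r))) = _
    rw [map_sub (algebraMap (𝓞 N) N), ← map_add]
    have e4 : -(algebraMap (𝓞 N) N r - z) + (algebraMap (𝓞 N) N r - algebraMap (𝓞 N) N
        (Quotient.out (Ideal.Quotient.mk (v.asIdeal ^ n) r))) =
        z - algebraMap (𝓞 N) N (Quotient.out (Ideal.Quotient.mk (v.asIdeal ^ n) r)) := by ring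
    rw [e4, map_sub]
    exact (sub_add_sub_cancel _ _ _).symm
  have e5 : Valued.v (algebraMap N (v.adicCompletion N) (-(algebraMap (𝓞 N) N r - z))) ≤
      exp (-(n : ℤ)) := by
    have e6 : Valued.v (algebraMap N (v.adicCompletion N) (-(algebraMap (𝓞 N) N r - z))) =
      v.valuation N (-(algebraMap (𝓞 N) N r - z)) :=
      HeightOneSpectrum.valuedAdicCompletion_eq_valuation' v _
    rw [e6, Valuation.map_neg]
    exact hr.le
  have e7 : Valued.v (algebraMap N (v.adicCompletion N) (algebraMap (𝓞 N) N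
          (r - Quotient.out (Ideal.Quotient.mk (v.asIdeal ^ n) r)))) ≤ exp (-(n : ℤ)) := by
    have e8 : Valued.v (algebraMap N (v.adicCompletion N) (algebraMap (𝓞 N) N
          (r - Quotient.out (Ideal.Quotient.mk (v.asIdeal ^ n) r)))) =
      v.valuation N (algebraMap (𝓞 N) N
          (r - Quotient.out (Ideal.Quotient.mk (v.asIdeal ^ n) r))) :=
      HeightOneSpectrum.valuedAdicCompletion_eq_valuation' v _
    rw [e8]
    exact hq'
  rw [e3]
  exact Valuation.map_add_le _ hz (Valuation.map_add_le _ e5 e7)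

/-- JOB QG2 -/
theorem finite_ball (v : HeightOneSpectrum (𝓞 N)) (M e : ℤᵐ⁰) (he : e ≠ 0) :
    ∃ S : Finset (v.adicCompletion N), ∀ x : v.adicCompletion N, Valued.v x ≤ M →
      ∃ s ∈ S, Valued.v (x - s) ≤ e := by
  rcases eq_or_ne M 0 with rfl | hM
  · refine ⟨{0}, fun x hx => ⟨0, Finset.mem_singleton_self _, ?_⟩⟩
    rw [sub_zero]
    exact hx.trans zero_le
  · obtain ⟨p, hp⟩ := HeightOneSpectrum.valuedAdicCompletion_surjective N v M
    have hp0 : p ≠ 0 := by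
      intro h
      rw [h, map_zero] at hp
      exact hM hp.symm
    obtain ⟨S, hS⟩ := qg2_int v (log M - log e).toNat
    refine ⟨S.image fun s => p * s, fun x hx => ?_⟩
    have h1 : Valued.v (x / p) ≤ 1 := by
      rw [map_div₀, hp]
      exact div_le_one_of_le₀ hx zero_le
    obtain ⟨s, hs, hs2⟩ := hS _ h1
    refine ⟨p * s, Finset.mem_image_of_mem _ hs, ?_⟩
    have e1 : x - p * s = p * (x / p - s) := by
      rw [mul_sub, mul_div_cancel₀ _ hp0]
    rw [e1, map_mul, hp]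
    refine (mul_le_mul_right hs2 _).trans ?_
    rw [← exp_log hM, ← exp_log he, ← exp_add, exp_le_exp]
    rw [log_exp, log_exp]
    omega

private theorem qg_eps (ρ : ℤᵐ⁰) (hρ0 : ρ ≠ 0) (hρ : ρ < 1) (M : ℤᵐ⁰) (hM : 1 ≤ M) :
    ∃ e : ℤᵐ⁰, e ≠ 0 ∧ e ^ 2 * M < ρ ∧ e ^ 2 < ρ := by
  have hM0 : M ≠ 0 := (zero_lt_one.trans_le hM).ne'
  have h1 : ρ * ρ < ρ := mul_lt_of_lt_one_right (zero_lt_iff.mpr hρ0) hρ
  have hMi : M⁻¹ ≤ 1 := inv_le_one_of_one_le₀ hM
  have h2 : (ρ * M⁻¹) ^ 2 * M < ρ := by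
    have h3 : (ρ * M⁻¹) ^ 2 * M = ρ * ρ * M⁻¹ := by
      field_simp
    rw [h3]
    exact (mul_le_of_le_one_right' hMi).trans_lt h1
  refine ⟨ρ * M⁻¹, mul_ne_zero hρ0 (inv_ne_zero hM0), h2, ?_⟩
  exact (le_mul_of_one_le_right' hM).trans_lt h2

private theorem qg_ybound (v : HeightOneSpectrum (𝓞 N)) {M : ℤᵐ⁰} (hM : 1 ≤ M)
    {x y : v.adicCompletion N} (hx : Valued.v x ≤ M) (h : y ^ 2 + y = x ^ 3) :
    Valued.v y ≤ M ^ 3 := by
  rcases le_or_gt (Valued.v y) 1 with hy | hy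
  · exact hy.trans (one_le_pow_of_one_le' hM 3)
  · have h1 : Valued.v y < Valued.v y ^ 2 := by
      rw [pow_two]
      exact lt_mul_of_one_lt_right (zero_lt_one.trans hy) hy
    have h2 : Valued.v (y ^ 2 + y) = Valued.v y ^ 2 := by
      rw [Valuation.map_add_eq_of_lt_left, map_pow]
      rw [map_pow]
      exact h1
    rw [h, map_pow] at h2
    rw [← h2] at h1
    exact h1.le.trans (pow_le_pow_left' hx 3)

/-- JOB QG3 -/
theorem cover (v : HeightOneSpectrum (𝓞 N)) (h3 : v.valuation N 3 < 1)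
    (ht : ∀ m : ℤ, v.valuation N 3 ≠ exp (3 * m)) {W : Affine (v.adicCompletion N)}
    (hW : W = ⟨0, 0, 1, 0, 0⟩) (M : ℤᵐ⁰) :
    ∃ T : Finset W.Point, ∀ P : W.Point, ∃ t ∈ T, P - t = 0 ∨
      ∃ (x y : v.adicCompletion N) (h : W.Nonsingular x y), P - t = Affine.Point.some x y h ∧
        M < Valued.v x := by
  obtain ⟨M', hM'⟩ : ∃ M', M' = max 1 M := ⟨_, rfl⟩
  have hM1 : 1 ≤ M' := hM' ▸ le_max_left 1 M
  have hMM : M ≤ M' := hM' ▸ le_max_right 1 M
  obtain ⟨e, he0, he1, he2⟩ := qg_eps (v.valuation N 3) (by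
    rw [← qg_three, Valuation.ne_zero_iff]
    exact_mod_cast qg_ne (N := N) v 3 three_ne_zero) h3 M' hM1
  obtain ⟨S, hS⟩ := finite_ball v M' e he0
  obtain ⟨S', hS'⟩ := finite_ball v (M' ^ 3) e he0
  obtain ⟨t, ht'⟩ : ∃ t : (v.adicCompletion N) × (v.adicCompletion N) → W.Point,
      ∀ q, (∃ Q : W.Point, ∃ (x y : v.adicCompletion N) (h : W.Nonsingular x y),
        Q = Affine.Point.some x y h ∧ Valued.v x ≤ M' ∧ Valued.v (x - q.1) ≤ e ∧
          Valued.v (y - q.2) ≤ e) →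
        ∃ (x y : v.adicCompletion N) (h : W.Nonsingular x y),
        t q = Affine.Point.some x y h ∧ Valued.v x ≤ M' ∧ Valued.v (x - q.1) ≤ e ∧
          Valued.v (y - q.2) ≤ e := by
    refine ⟨fun q => if H : (∃ Q : W.Point, ∃ (x y : v.adicCompletion N) (h : W.Nonsingular x y),
        Q = Affine.Point.some x y h ∧ Valued.v x ≤ M' ∧ Valued.v (x - q.1) ≤ e ∧
          Valued.v (y - q.2) ≤ e) then H.choose else 0, fun q H => ?_⟩
    beta_reduce
    rw [dif_pos H]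
    exact H.choose_spec
  refine ⟨insert 0 ((S ×ˢ S').image t), fun P => ?_⟩
  rcases P with (_ | ⟨x₁, y₁, h₁⟩)
  · exact ⟨0, Finset.mem_insert_self _ _, Or.inl (sub_self _)⟩
  rcases lt_or_ge M' (Valued.v x₁) with hx₁ | hx₁
  · refine ⟨0, Finset.mem_insert_self _ _, Or.inr ⟨x₁, y₁, h₁, sub_zero _, hMM.trans_lt hx₁⟩⟩
  · have e1 := (eqn_iff hW x₁ y₁).mp h₁.1
    have hy₁ := qg_ybound v hM1 hx₁ e1
    obtain ⟨s, hs, hs1⟩ := hS x₁ hx₁
    obtain ⟨s', hs', hs1'⟩ := hS' y₁ hy₁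
    obtain ⟨x₂, y₂, h₂, hQ, hx₂, hxs, hys⟩ := ht' (s, s') ⟨_, x₁, y₁, h₁, rfl, hx₁, hs1, hs1'⟩
    refine ⟨t (s, s'), Finset.mem_insert_of_mem (Finset.mem_image_of_mem _
      (Finset.mem_product.mpr ⟨hs, hs'⟩)), ?_⟩
    rw [hQ]
    have hdx : Valued.v (x₁ - x₂) ≤ e := by
      rw [show x₁ - x₂ = (x₁ - s) - (x₂ - s) by ring]
      exact (Valuation.map_sub _ _ _).trans (max_le hs1 hxs)
    have hdy : Valued.v (y₁ - y₂) ≤ e := by
      rw [show y₁ - y₂ = (y₁ - s') - (y₂ - s') by ring]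
      exact (Valuation.map_sub _ _ _).trans (max_le hs1' hys)
    by_cases hPQ : Affine.Point.some x₁ y₁ h₁ = Affine.Point.some x₂ y₂ h₂
    · left
      rw [hPQ, sub_self]
    · right
      obtain ⟨x, y, h, h5, h6⟩ := close v h3 ht hW M' hM1 h₁ h₂ hx₁ hx₂
        ((mul_le_mul' (pow_le_pow_left' hdx 2) le_rfl).trans_lt he1)
        ((pow_le_pow_left' hdy 2).trans_lt he2) hPQ
      exact ⟨x, y, h, h5, hMM.trans_lt h6⟩

end Pool.Agent.Lib.MP_1a91b9_ntT.S9
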