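import Pool.Agent.Lib.MP_1a91b9_nt.VcPoint
import Pool.Agent.Lib.MP_1a91b9_ntT.S9.QB
import Pool.Agent.Lib.MP_1a91b9_ntT.S9.QE
import Pool.Agent.Lib.MP_1a91b9_ntT.S9.QG
import Pool.Agent.Lib.MP_1a91b9_ntT.S9.GD
import Pool.Agent.Lib.MP_1a91b9_ntT.S9.LB

/-!
# JOB QH: the Tamagawa numbers of `E` are odd

`e : (minModel).Point ≃+ W.Point`, `W = E ⊗ N_v` (`exists_point_equiv` of `VcPoint`, `k := N_v`,
`C := minChange`), `e (x, y) = (u² x + r, ..)`. (div_min) from `div_local` through `e`.
(finiteIndex) Let `M ≥ v(r)`, `M ≥ v(u)²`, `M ≥ 1`, and `T` from `cover`. For a point `P` of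
`minModel` there is `t ∈ T` with `e P - t = 0` or `e P - t = (X, Y)`, `v(X) > M`; `P - e⁻¹ t` is then `0` or
a point `(x, y)` with `u² x + r = X`, so `v(u² x) = v(X) > v(u)²` and `v(x) > 1`: it is in
`nonsing`. So the finite set `e⁻¹ T` meets all cosets of `nonsing`: the quotient is finite
(`AddSubgroup.finiteIndex_of_finite_quotient`). (tam_odd) `v(3) = 1`: `tam_good`; `v(3) < 1`:
`odd_index_of_div`. (`v.valuation_le_one` for `3 : 𝓞 N`.)
-/

set_option autoImplicit false

namespace Pool.Agent.Lib.MP_1a91b9_ntT.S9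

open NumberField IsDedekindDomain WithZero WeierstrassCurve
open scoped Classical

variable {N : Type*} [Field N] [NumberField N]

private theorem qh_equiv (v : HeightOneSpectrum (𝓞 N)) :
    ∃ e : (minModel (E N) v).toAffine.Point ≃+
        ((E N).baseChange (v.adicCompletion N)).toAffine.Point,
      ∀ (x y : v.adicCompletion N) (h : (minModel (E N) v).toAffine.Nonsingular x y), ∃ h',
        e (Affine.Point.some x y h) = Affine.Point.some
          (((minChange (E N) v).u : v.adicCompletion N) ^ 2 * x + (minChange (E N) v).r)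
          (((minChange (E N) v).u : v.adicCompletion N) ^ 3 * y +
            ((minChange (E N) v).u : v.adicCompletion N) ^ 2 * (minChange (E N) v).s * x +
            (minChange (E N) v).t) h' :=
  Pool.Agent.Lib.MP_1a91b9_nt.exists_point_equiv
    ((E N).baseChange (v.adicCompletion N)) (minChange (E N) v)

theorem div_min (v : HeightOneSpectrum (𝓞 N)) (h3 : v.valuation N 3 < 1)
    (ht : ∀ m : ℤ, v.valuation N 3 ≠ exp (3 * m)) (Q : (minModel (E N) v).toAffine.Point) :
    ∃ P, P + P = Q := by
  obtain ⟨e, _⟩ := qh_equiv (N := N) v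
  obtain ⟨P, hP⟩ := div_local v h3 ht (W := ((E N).baseChange (v.adicCompletion N)).toAffine)
    (E_bc N (v.adicCompletion N)) (e Q)
  refine ⟨e.symm P, ?_⟩
  rw [← _root_.map_add, hP]
  exact e.symm_apply_apply Q

theorem nonsing_finiteIndex (v : HeightOneSpectrum (𝓞 N)) (h3 : v.valuation N 3 < 1)
    (ht : ∀ m : ℤ, v.valuation N 3 ≠ exp (3 * m)) : (nonsing (E N) v).FiniteIndex := by
  obtain ⟨e, he⟩ := qh_equiv (N := N) v
  obtain ⟨M, hM⟩ : ∃ M, M = max (Valued.v (minChange (E N) v).r)
    (Valued.v ((minChange (E N) v).u : v.adicCompletion N) ^ 2) := ⟨_, rfl⟩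
  obtain ⟨T, hT⟩ := cover v h3 ht (W := ((E N).baseChange (v.adicCompletion N)).toAffine)
    (E_bc N (v.adicCompletion N)) M
  have hu0 : Valued.v ((minChange (E N) v).u : v.adicCompletion N) ≠ 0 :=
    (Valuation.ne_zero_iff _).mpr (minChange (E N) v).u.ne_zero
  have hkey : ∀ P : (minModel (E N) v).toAffine.Point, ∃ t ∈ T,
      P - e.symm t ∈ nonsing (E N) v := by
    intro P
    obtain ⟨t, ht1, ht2⟩ := hT (e P)
    refine ⟨t, ht1, ?_⟩
    obtain ⟨R, hR⟩ : ∃ R, R = P - e.symm t := ⟨_, rfl⟩
    have heR : e R = e P - t := by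
      rw [hR, _root_.map_sub]
      congr 1
      exact e.apply_symm_apply t
    rw [← hR]
    rw [← heR] at ht2
    apply AddSubgroup.subset_closure
    rcases ht2 with h0 | ⟨X, Y, h, hXY, hX⟩
    · left
      exact (map_eq_zero_iff e e.injective).mp h0
    · right
      rcases R with (_ | ⟨x, y, hxy⟩)
      · exfalso
        have h1 : e (0 : (minModel (E N) v).toAffine.Point) = Affine.Point.some X Y h := hXY
        rw [_root_.map_zero] at h1
        exact Affine.Point.some_ne_zero _ h1.symm
      · refine ⟨x, y, hxy, rfl, Or.inl ?_⟩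
        obtain ⟨h', hh'⟩ := he x y hxy
        rw [hh'] at hXY
        obtain ⟨hX1, _⟩ := (Affine.Point.some.injEq ..).mp hXY
        have h5 : Valued.v (((minChange (E N) v).u : v.adicCompletion N) ^ 2 * x) = Valued.v X := by
          rw [show ((minChange (E N) v).u : v.adicCompletion N) ^ 2 * x =
            X - (minChange (E N) v).r by rw [← hX1]; ring]
          refine Valuation.map_sub_eq_of_lt_left _ (lt_of_le_of_lt ?_ hX)
          rw [hM]
          exact le_max_left _ _
        have h6 : Valued.v ((minChange (E N) v).u : v.adicCompletion N) ^ 2 <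
            Valued.v ((minChange (E N) v).u : v.adicCompletion N) ^ 2 * Valued.v x := by
          rw [← map_pow, ← map_mul, h5, map_pow]
          refine lt_of_le_of_lt ?_ hX
          rw [hM]
          exact le_max_right _ _
        by_contra hc
        rw [not_lt] at hc
        exact (mul_le_of_le_one_right' hc).not_gt h6
  have hfin : Finite ((minModel (E N) v).toAffine.Point ⧸ nonsing (E N) v) := by
    refine Finite.of_surjective (fun t : T => (QuotientAddGroup.mk (e.symm t) :
      (minModel (E N) v).toAffine.Point ⧸ nonsing (E N) v)) ?_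
    intro q
    obtain ⟨P, rfl⟩ := QuotientAddGroup.mk_surjective q
    obtain ⟨t, ht1, ht2⟩ := hkey P
    refine ⟨⟨t, ht1⟩, ?_⟩
    rw [QuotientAddGroup.eq]
    rw [neg_add_eq_sub]
    exact ht2
  exact AddSubgroup.finiteIndex_of_finite_quotient

theorem tam_odd (ht : ∀ v : HeightOneSpectrum (𝓞 N), v.valuation N 3 < 1 →
      ∀ m : ℤ, v.valuation N 3 ≠ exp (3 * m)) (v : HeightOneSpectrum (𝓞 N)) :
    Odd (tam (E N) v) := by
  rcases eq_or_ne (v.valuation N 3) 1 with h3 | h3
  · rw [tam_good v h3]
    exact odd_one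
  · have h31 : v.valuation N 3 ≤ 1 := by
      have := v.valuation_le_one (K := N) (3 : 𝓞 N)
      exact this
    have h32 : v.valuation N 3 < 1 := lt_of_le_of_ne h31 h3
    have := nonsing_finiteIndex v h32 (ht v h32)
    exact odd_index_of_div (nonsing (E N) v) (div_min v h32 (ht v h32))

end Pool.Agent.Lib.MP_1a91b9_ntT.S9
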