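import Pool.Agent.Lib.MP_1a91b9_ntT.P.Unit
import Pool.Agent.Lib.MP_1a91b9_ntT.S9.QA

/-!
# The finite part of the period is a unit above 2
-/

set_option autoImplicit false

namespace Pool.Agent.Lib.MP_1a91b9_ntT.S9

open NumberField IsDedekindDomain WeierstrassCurve
open scoped Classical

variable {N : Type*} [Field N] [NumberField N]

theorem absNorm_odd (v : HeightOneSpectrum (𝓞 N)) (h3 : v.valuation N 3 < 1) :
    Odd (Ideal.absNorm v.asIdeal) := by
  have h1 : (3 : 𝓞 N) ∈ v.asIdeal := by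
    have e : v.valuation N (algebraMap (𝓞 N) N 3) < 1 := by
      rwa [map_ofNat]
    exact (v.valuation_lt_one_iff_mem (K := N) 3).1 e
  have h2 : Ideal.absNorm v.asIdeal ∣ Ideal.absNorm (Ideal.span {(3 : 𝓞 N)}) :=
    Ideal.absNorm_dvd_absNorm_of_le ((Ideal.span_singleton_le_iff_mem _).2 h1)
  rw [Ideal.absNorm_span_singleton] at h2
  have h4 : (Algebra.norm ℤ (3 : 𝓞 N)).natAbs = 3 ^ Module.finrank ℤ (𝓞 N) := by
    have e : (3 : 𝓞 N) = algebraMap ℤ (𝓞 N) 3 := by simp
    rw [e, Algebra.norm_algebraMap, Int.natAbs_pow]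
    rfl
  rw [h4] at h2
  exact Odd.of_dvd_nat (Odd.pow (by decide)) h2

theorem val_natCast {A : ValuationSubring ℂ} (hA : Two A) {n : ℕ} (hn : Odd n) :
    A.valuation (n : ℂ) = 1 := by
  have h := S3.v_odd hA (n := (n : ℤ)) (by exact_mod_cast hn)
  simpa using h

theorem val_normFactor {A : ValuationSubring ℂ} (hA : Two A) (v : HeightOneSpectrum (𝓞 N)) :
    A.valuation ((normFactor (E N) v : ℝ) : ℂ) = 1 := by
  rcases (v.valuation_le_one (K := N) (3 : 𝓞 N)).lt_or_eq with h | h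
  · have h3 : v.valuation N 3 < 1 := h
    rw [normFactor, Complex.ofReal_zpow, map_zpow₀]
    have e : (((Ideal.absNorm v.asIdeal : ℕ) : ℝ) : ℂ) = ((Ideal.absNorm v.asIdeal : ℕ) : ℂ) := by
      push_cast; rfl
    rw [e, val_natCast hA (absNorm_odd v h3), one_zpow]
  · have h3 : v.valuation N 3 = 1 := h
    rw [normFactor, minChange_unit v h3, WithZero.log_one, neg_zero, zpow_zero, Complex.ofReal_one,
      map_one]

theorem val_finprod {A : ValuationSubring ℂ} (hA : Two A) :
    A.valuation ((∏ᶠ v : HeightOneSpectrum (𝓞 N), normFactor (E N) v : ℝ) : ℂ) = 1 := by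
  refine finprod_induction (p := fun x : ℝ => A.valuation (x : ℂ) = 1) ?_ ?_ ?_
  · rw [Complex.ofReal_one, map_one]
  · intro x y hx hy
    rw [Complex.ofReal_mul, map_mul, hx, hy, one_mul]
  · exact fun v => val_normFactor hA v

theorem val_period {A : ValuationSubring ℂ} (hA : Two A) :
    A.valuation ((period (E N) : ℝ) : ℂ) = A.valuation Om ^ Module.finrank ℚ N := by
  rw [period, Complex.ofReal_mul, map_mul, val_finprod hA, one_mul, Per.val_prod hA]

theorem val_sqrt_discr {A : ValuationSubring ℂ} (hA : Two A) (hd : ¬ (2 : ℤ) ∣ discr N) :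
    A.valuation ((√|(discr N : ℝ)| : ℝ) : ℂ) = 1 := by
  have h : ((√|(discr N : ℝ)| : ℝ) : ℂ) ^ 2 = ((|discr N| : ℤ) : ℂ) := by
    rw [← Complex.ofReal_pow, Real.sq_sqrt (abs_nonneg _), ← Int.cast_abs,
      Complex.ofReal_intCast]
  have h2 := congrArg A.valuation h
  rw [map_pow, S3.v_odd hA (n := |discr N|)] at h2
  · exact (pow_eq_one_iff_of_nonneg zero_le (by norm_num)).1 h2
  · rw [← Int.not_even_iff_odd, even_abs, even_iff_two_dvd]
    exact hd

end Pool.Agent.Lib.MP_1a91b9_ntT.S9
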