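import Pool.Agent.Lib.MP_1a91b9_ntT.S9.GA

/-!
# JOB GB: a cocycle which is `0` or `T₀` on the stabiliser of `T₀` is a coboundary

Write `X` for the set of the three non-zero elements of the 2-torsion. For `T ∈ X` choose `γ T`
with `a (γ T) T₀ = T` (`tr`) and put `s T = pr (c (γ T)) T`.
(1) `pr (c g) T = s T` for EVERY `g` with `a g T₀ = T`: `g = γ T * h`, `h = (γ T)⁻¹ * g`,
`a h T₀ = T₀` so `c h = 0` or `T₀` and `pr (c h) T₀ = 1`;
`c g = c (γ T) + a (γ T) (c h)` and `pr (a (γ T) (c h)) T = pr (c h) T₀ = 1`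
(`pr_map` for `a (γ T)`, injective since `a` is an action; `T = a (γ T) T₀`), `pr_add`.
(2) for `g` and `T ∈ X` (`T = a γ' T₀`, `γ' = γ T`): `a (g * γ') T₀ = a g T`, so
`s (a g T) = pr (c (g γ')) (a g T) = pr (c g) (a g T) * pr (a g (c γ')) (a g T)
= pr (c g) (a g T) * s T`. Hence `pr (c g) (a g T) = s T * s (a g T)` (signs).
(3) there are `S` in the 2-torsion and a sign `ε` with `s T = ε * pr S T` for all `T ∈ X`: if all
three values of `s` agree take `S = 0`; otherwise there is exactly one `T' ∈ X` whose value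
differs from the other two; `S = T'`, `ε = s T'` (`pr T' T' = 1`, `pr T' T = -1` for `T ≠ T'`).
(4) `pr (c g) (a g T) = pr S T * pr S (a g T) = pr (a g S) (a g T) * pr S (a g T)
= pr (a g S + S) (a g T)`, so `pr (c g + (a g S + S)) T' = 1` for all `T' ∈ X` (`T' = a g T` with
`T = a g⁻¹ T'`), so by `eq_zero_of_pr` `c g = a g S + S = a g S - S`.
-/

set_option autoImplicit false

namespace Pool.Agent.Lib.MP_1a91b9_ntT.S9

open scoped Classical

theorem Setting.cob_of_stab {G M : Type*} [Group G] [AddCommGroup M] {a : G → M →+ M} {T₀ T₁ : M}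
    {c : G → M} (S : Setting a T₀ T₁ c) (h : ∀ g, a g T₀ = T₀ → c g = 0 ∨ c g = T₀) :
    ∃ R, R + R = 0 ∧ ∀ g, c g = a g R - R := by
  have hinv : ∀ g x, a g⁻¹ (a g x) = x := by
    intro g x
    rw [← S.mul, inv_mul_cancel, S.one]
  have hinv' : ∀ g x, a g (a g⁻¹ x) = x := by
    intro g x
    rw [← S.mul, mul_inv_cancel, S.one]
  have hinj : ∀ g, Function.Injective (a g) := by
    intro g x y hxy
    rw [← hinv g x, hxy, hinv]
  have hadd : ∀ {P P' Q : M}, P + P = 0 → P' + P' = 0 → Q + Q = 0 →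
      pr (P + P') Q = pr P Q * pr P' Q := fun h1 h2 h3 =>
    pr_add S.ne0 S.ne1 S.ne01 S.two0 S.two1 S.all h1 h2 h3
  have htwo : ∀ g {x : M}, x + x = 0 → a g x + a g x = 0 := by
    intro g x hx
    rw [← map_add, hx, map_zero]
  have hne : ∀ g {x : M}, x ≠ 0 → a g x ≠ 0 := by
    intro g x hx h0
    exact hx (hinj g (by rw [h0, map_zero]))
  have hex : ∀ T : M, ∃ g, T ≠ 0 → T + T = 0 → a g T₀ = T := by
    intro T
    by_cases hT : T ≠ 0 ∧ T + T = 0
    · obtain ⟨g, hg⟩ := S.tr T hT.1 hT.2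
      exact ⟨g, fun _ _ => hg⟩
    · exact ⟨1, fun h1 h2 => absurd ⟨h1, h2⟩ hT⟩
  choose γ hγ using hex
  -- step 1
  have key1 : ∀ g T, T ≠ 0 → T + T = 0 → a g T₀ = T → pr (c g) T = pr (c (γ T)) T := by
    intro g T hT0 hT2 hg
    have hγT := hγ T hT0 hT2
    have hk : a ((γ T)⁻¹ * g) T₀ = T₀ := by
      rw [S.mul, hg]
      nth_rewrite 2 [← hγT]
      rw [hinv]
    have hcg : c g = c (γ T) + a (γ T) (c ((γ T)⁻¹ * g)) := by
      rw [← S.coc, mul_inv_cancel_left]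
    rw [hcg, hadd (S.two _) (htwo _ (S.two _)) hT2]
    have h1 : pr (a (γ T) (c ((γ T)⁻¹ * g))) T = 1 := by
      nth_rewrite 3 [← hγT]
      rw [pr_map _ (hinj _)]
      rcases h _ hk with h0 | h0
      · rw [h0]; simp [pr]
      · rw [h0]; simp [pr]
    rw [h1, mul_one]
  -- step 2
  have key2 : ∀ g T, T ≠ 0 → T + T = 0 →
      pr (c g) (a g T) = pr (c (γ T)) T * pr (c (γ (a g T))) (a g T) := by
    intro g T hT0 hT2
    have hγT := hγ T hT0 hT2
    have h1 := key1 (g * γ T) (a g T) (hne g hT0) (htwo g hT2) (by rw [S.mul, hγT])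
    rw [S.coc, hadd (S.two _) (htwo _ (S.two _)) (htwo g hT2), pr_map _ (hinj g)] at h1
    rw [← h1, mul_comm (pr (c g) (a g T)), ← mul_assoc, Int.units_mul_self, one_mul]
  -- step 3
  have hne2 : T₀ + T₁ ≠ 0 := by
    intro h0
    apply S.ne01
    have : T₀ + T₁ = T₁ + T₁ := by rw [h0, S.two1]
    exact add_right_cancel this
  have hne02 : T₀ ≠ T₀ + T₁ := by
    intro h0
    exact S.ne1 (by simpa using h0.symm)
  have hne12 : T₁ ≠ T₀ + T₁ := by
    intro h0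
    exact S.ne0 (by simpa using h0.symm)
  have htwo2 : (T₀ + T₁) + (T₀ + T₁) = 0 := by
    rw [add_add_add_comm, S.two0, S.two1, add_zero]
  have key3 : ∃ R, R + R = 0 ∧ ∃ ε : ℤˣ, ∀ T, T ≠ 0 → T + T = 0 →
      pr (c (γ T)) T = ε * pr R T := by
    have ne0 := S.ne0
    have ne1 := S.ne1
    have ne01 := S.ne01
    have pr00 : pr T₀ T₀ = 1 := by simp [pr]
    have pr11 : pr T₁ T₁ = 1 := by simp [pr]
    have pr22 : pr (T₀ + T₁) (T₀ + T₁) = 1 := by unfold pr; rw [if_pos]; exact Or.inr (Or.inr rfl)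
    have pr01 : pr T₀ T₁ = -1 := by
      unfold pr; rw [if_neg]; rintro (h0 | h0 | h0)
      exacts [ne0 h0, ne1 h0, ne01 h0]
    have pr02 : pr T₀ (T₀ + T₁) = -1 := by
      unfold pr; rw [if_neg]; rintro (h0 | h0 | h0)
      exacts [ne0 h0, hne2 h0, hne02 h0]
    have pr12 : pr T₁ (T₀ + T₁) = -1 := by
      unfold pr; rw [if_neg]; rintro (h0 | h0 | h0)
      exacts [ne1 h0, hne2 h0, hne12 h0]
    have pr0 : ∀ x : M, pr (0 : M) x = 1 := by intro x; simp [pr]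
    have red : ∀ (R : M) (ε : ℤˣ), pr (c (γ T₀)) T₀ = ε * pr R T₀ →
        pr (c (γ T₁)) T₁ = ε * pr R T₁ →
        pr (c (γ (T₀ + T₁))) (T₀ + T₁) = ε * pr R (T₀ + T₁) →
        ∀ T, T ≠ 0 → T + T = 0 → pr (c (γ T)) T = ε * pr R T := by
      intro R ε h0 h1 h2 T hT0 hT2
      rcases S.all T hT2 with hh | hh | hh | hh
      · exact absurd hh hT0
      · rw [hh]; exact h0
      · rw [hh]; exact h1
      · rw [hh]; exact h2
    rcases Int.units_eq_one_or (pr (c (γ T₀)) T₀) with e0 | e0 <;>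
      rcases Int.units_eq_one_or (pr (c (γ T₁)) T₁) with e1 | e1 <;>
      rcases Int.units_eq_one_or (pr (c (γ (T₀ + T₁))) (T₀ + T₁)) with e2 | e2
    · refine ⟨0, by simp, 1, red _ _ ?_ ?_ ?_⟩
      · rw [e0, pr0]; rfl
      · rw [e1, pr0]; rfl
      · rw [e2, pr0]; rfl
    · refine ⟨T₀ + T₁, htwo2, -1, red _ _ ?_ ?_ ?_⟩
      · rw [e0, pr_comm, pr02]; rfl
      · rw [e1, pr_comm, pr12]; rfl
      · rw [e2, pr22]; rfl
    · refine ⟨T₁, S.two1, -1, red _ _ ?_ ?_ ?_⟩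
      · rw [e0, pr_comm, pr01]; rfl
      · rw [e1, pr11]; rfl
      · rw [e2, pr12]; rfl
    · refine ⟨T₀, S.two0, 1, red _ _ ?_ ?_ ?_⟩
      · rw [e0, pr00]; rfl
      · rw [e1, pr01]; rfl
      · rw [e2, pr02]; rfl
    · refine ⟨T₀, S.two0, -1, red _ _ ?_ ?_ ?_⟩
      · rw [e0, pr00]; rfl
      · rw [e1, pr01]; rfl
      · rw [e2, pr02]; rfl
    · refine ⟨T₁, S.two1, 1, red _ _ ?_ ?_ ?_⟩
      · rw [e0, pr_comm, pr01]; rfl
      · rw [e1, pr11]; rfl
      · rw [e2, pr12]; rfl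
    · refine ⟨T₀ + T₁, htwo2, 1, red _ _ ?_ ?_ ?_⟩
      · rw [e0, pr_comm, pr02]; rfl
      · rw [e1, pr_comm, pr12]; rfl
      · rw [e2, pr22]; rfl
    · refine ⟨0, by simp, -1, red _ _ ?_ ?_ ?_⟩
      · rw [e0, pr0]; rfl
      · rw [e1, pr0]; rfl
      · rw [e2, pr0]; rfl
  obtain ⟨R, hR2, ε, hR⟩ := key3
  refine ⟨R, hR2, ?_⟩
  intro g
  have hP2 : (a g R + R) + (a g R + R) = 0 := by
    rw [add_add_add_comm, htwo g hR2, hR2, add_zero]
  have hz : c g + (a g R + R) = 0 := by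
    apply eq_zero_of_pr S.ne0 S.ne1 S.ne01 S.two0 S.two1 S.all
    · rw [add_add_add_comm, S.two g, hP2, add_zero]
    · intro T' hT0 hT2
      have hT : a g (a g⁻¹ T') = T' := hinv' g T'
      have hT0' : a g⁻¹ T' ≠ 0 := hne _ hT0
      have hT2' : a g⁻¹ T' + a g⁻¹ T' = 0 := htwo _ hT2
      have h1 := key2 g (a g⁻¹ T') hT0' hT2'
      rw [hT, hR _ hT0' hT2', hR _ hT0 hT2] at h1
      have h2 : pr (a g R) T' = pr R (a g⁻¹ T') := by
        nth_rewrite 1 [← hT]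
        rw [pr_map _ (hinj g)]
      rw [hadd (S.two g) hP2 hT2, hadd (htwo g hR2) hR2 hT2, h1, h2]
      have e1 : ∀ u v w : ℤˣ, (u * v) * (u * w) * (v * w) = 1 := by decide
      exact e1 _ _ _
  have h3 : a g R + a g R = 0 := htwo g hR2
  have h4 : c g = -(a g R + R) := eq_neg_of_add_eq_zero_left hz
  rw [h4, neg_add, ← sub_eq_add_neg, neg_eq_of_add_eq_zero_left h3]

end Pool.Agent.Lib.MP_1a91b9_ntT.S9
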