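import Pool.Agent.Lib.MP_1a91b9_ntT.S9.GA

/-!
# JOB GC: the product of the three conjugates of `b` is fixed

`r g` is an action of `G` on the field `Ω` by ring homomorphisms. `T₂ = T₀ + T₁`,
`X = {T₀, T₁, T₂}`, `γ T₀ = 1`, `γ T₁ = g₁`, `γ T₂ = g₂`. Signs are regarded as elements of `Ω`.
For `g` with `a g T₀ = T` put `β g = pr (c g) T * r g b`. (1) `β g` depends only on `T`: if
`g' = g h`, `a h T₀ = T₀`: `c g' = c g + a g (c h)`, so (`pr_add`, `pr_map`)
`pr (c g') T = pr (c g) T * pr (c h) T₀`, and `r g' b = r g (pr (c h) T₀ * b)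
= pr (c h) T₀ * r g b`; the product of the two equal signs is 1. (2) `r g (β γ) =
pr (c γ) T * r (g γ) b` and `β (g γ) = pr (c (g γ)) (a g T) * r (g γ) b
= pr (c g) (a g T) * pr (c γ) T * r (g γ) b`; so `r g (β γ) = pr (c g) (a g T) * β (g γ)`,
and `β (g γ) = β (γ')` for the chosen `γ'` with `a γ' T₀ = a g T`.
(3) `Π = ∏_{T ∈ X} β (γ T)`: `r g Π = (∏_{T ∈ X} pr (c g) (a g T)) * Π`, as `T ↦ a g T` permutes
`X`; and `∏_{T ∈ X} pr P T = 1` for every `P` in the 2-torsion (`P = 0`: all 1; `P ∈ X`: one 1 and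
two `-1`). So `r g Π = Π`; finally `Π = ± (b * r g₁ b * r g₂ b)` and `r g (±1) = ±1`.
(Alternatively enumerate the six possible permutations.)
-/

set_option autoImplicit false

namespace Pool.Agent.Lib.MP_1a91b9_ntT.S9

open scoped Classical

private theorem gc_sq {Ω : Type*} [Field Ω] (u : ℤˣ) :
    (((u : ℤˣ) : ℤ) : Ω) * (((u : ℤˣ) : ℤ) : Ω) = 1 := by
  rcases Int.units_eq_one_or u with h | h
  · rw [h]; norm_num
  · rw [h]; norm_num

theorem Setting.prod_fixed {G M Ω : Type*} [Group G] [AddCommGroup M] [Field Ω]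
    {a : G → M →+ M} {T₀ T₁ : M} {c : G → M} (S : Setting a T₀ T₁ c) (r : G → Ω →+* Ω)
    (r1 : ∀ x, r 1 x = x) (rm : ∀ g h x, r (g * h) x = r g (r h x)) (b : Ω)
    (hb : ∀ g, a g T₀ = T₀ → r g b = (((pr (c g) T₀ : ℤˣ) : ℤ) : Ω) * b) (g₁ g₂ : G)
    (h₁ : a g₁ T₀ = T₁) (h₂ : a g₂ T₀ = T₀ + T₁) (g : G) :
    r g (b * r g₁ b * r g₂ b) = b * r g₁ b * r g₂ b := by
  have hinj : ∀ g, Function.Injective (a g) := by
    intro g x y h
    have := congrArg (a g⁻¹) h
    rwa [← S.mul, ← S.mul, inv_mul_cancel, S.one, S.one] at this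
  have c1 : c 1 = 0 := by
    have := S.coc 1 1
    rw [mul_one, S.one] at this
    exact left_eq_add.mp this
  obtain ⟨e, he⟩ : ∃ e : ℤˣ → Ω, ∀ u : ℤˣ, e u = (((u : ℤˣ) : ℤ) : Ω) := ⟨_, fun _ => rfl⟩
  have ee : ∀ u, e u * e u = 1 := by
    intro u; rw [he]; exact gc_sq u
  have emul : ∀ u v, e (u * v) = e u * e v := by
    intro u v; rw [he, he, he, Units.val_mul, Int.cast_mul]
  have re : ∀ g u, r g (e u) = e u := by
    intro g u; rw [he]; exact map_intCast (r g) _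
  have hb' : ∀ g, a g T₀ = T₀ → r g b = e (pr (c g) T₀) * b := by
    intro g hg; rw [he]; exact hb g hg
  obtain ⟨β, hβ⟩ : ∃ β : G → Ω, ∀ g, β g = e (pr (c g) (a g T₀)) * r g b := ⟨_, fun _ => rfl⟩
  have tw : ∀ g T, T + T = 0 → a g T + a g T = 0 := by
    intro g T h; rw [← map_add, h, map_zero]
  have hpr : ∀ g γ, pr (c (g * γ)) (a (g * γ) T₀) =
      pr (c g) (a (g * γ) T₀) * pr (c γ) (a γ T₀) := by
    intro g γ
    rw [S.coc, pr_add S.ne0 S.ne1 S.ne01 S.two0 S.two1 S.all (S.two g) (tw g _ (S.two γ))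
      (tw _ _ S.two0)]
    congr 1
    rw [S.mul, pr_map (a g) (hinj g)]
  have hA : ∀ g g', a g T₀ = a g' T₀ → β g = β g' := by
    intro g g' h
    have hh : a (g⁻¹ * g') T₀ = T₀ := by
      rw [S.mul, ← h, ← S.mul, inv_mul_cancel, S.one]
    have hg : g * (g⁻¹ * g') = g' := by group
    have h2 := hpr g (g⁻¹ * g')
    rw [hg, hh] at h2
    have h3 : r g' b = e (pr (c (g⁻¹ * g')) T₀) * r g b := by
      have h4 := rm g (g⁻¹ * g') b
      rw [hg, hb' _ hh, map_mul, re] at h4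
      exact h4
    rw [hβ, hβ, h2, emul, h3, h]
    have h5 := ee (pr (c (g⁻¹ * g')) T₀)
    linear_combination (-(e (pr (c g) (a g' T₀)) * r g b)) * h5
  have hB : ∀ g γ, r g (β γ) = e (pr (c g) (a (g * γ) T₀)) * β (g * γ) := by
    intro g γ
    rw [hβ, hβ, map_mul, re, hpr, emul, rm]
    have h5 := ee (pr (c g) (a (g * γ) T₀))
    linear_combination (-(e (pr (c γ) (a γ T₀)) * r g (r γ b))) * h5
  have hsign : ∀ P, P + P = 0 → e (pr P T₀) * e (pr P T₁) * e (pr P (T₀ + T₁)) = 1 := by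
    intro P hP
    have h6 : pr P (T₀ + T₁) = pr P T₀ * pr P T₁ := by
      rw [pr_comm P, pr_add S.ne0 S.ne1 S.ne01 S.two0 S.two1 S.all S.two0 S.two1 hP,
        pr_comm T₀, pr_comm T₁]
    rw [h6, emul]
    have h7 := ee (pr P T₀)
    have h8 := ee (pr P T₁)
    linear_combination (e (pr P T₁) * e (pr P T₁)) * h7 + h8
  have hβ0 : ∀ γ, a γ T₀ = T₀ → β γ = β 1 := fun γ h => hA γ 1 (by rw [h, S.one])
  have hβ1 : ∀ γ, a γ T₀ = T₁ → β γ = β g₁ := fun γ h => hA γ g₁ (by rw [h, h₁])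
  have hβ2 : ∀ γ, a γ T₀ = T₀ + T₁ → β γ = β g₂ := fun γ h => hA γ g₂ (by rw [h, h₂])
  have e0 : a (g * 1) T₀ = a g T₀ := by rw [mul_one]
  have e1 : a (g * g₁) T₀ = a g T₁ := by rw [S.mul, h₁]
  have e2 : a (g * g₂) T₀ = a g T₀ + a g T₁ := by rw [S.mul, h₂, map_add]
  have n0 : a g T₀ ≠ 0 := fun h => S.ne0 (hinj g (by rw [h, map_zero]))
  have n1 : a g T₁ ≠ 0 := fun h => S.ne1 (hinj g (by rw [h, map_zero]))
  have n01 : a g T₀ ≠ a g T₁ := fun h => S.ne01 (hinj g h)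
  have s1 : T₀ + (T₀ + T₁) = T₁ := by rw [← add_assoc, S.two0, zero_add]
  have s2 : T₁ + (T₀ + T₁) = T₀ := by rw [add_comm T₀ T₁, ← add_assoc, S.two1, zero_add]
  have s3 : T₀ + T₁ + T₀ = T₁ := by rw [add_comm, s1]
  have s4 : T₀ + T₁ + T₁ = T₀ := by rw [add_comm, s2]
  have hs := hsign (c g) (S.two g)
  have hprod : r g (β 1 * β g₁ * β g₂) = β 1 * β g₁ * β g₂ := by
    rw [map_mul, map_mul, hB g 1, hB g g₁, hB g g₂]
    rcases S.all _ (tw g T₀ S.two0) with h | h | h | h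
    · exact absurd h n0
    · rcases S.all _ (tw g T₁ S.two1) with k | k | k | k
      · exact absurd k n1
      · exact absurd (h.trans k.symm) n01
      · rw [h] at e0
        rw [k] at e1
        rw [h, k] at e2
        rw [hβ0 _ e0, hβ1 _ e1, hβ2 _ e2, e0, e1, e2]
        linear_combination (β 1 * β g₁ * β g₂) * hs
      · rw [h] at e0
        rw [k] at e1
        rw [h, k, s1] at e2
        rw [hβ0 _ e0, hβ2 _ e1, hβ1 _ e2, e0, e1, e2]
        linear_combination (β 1 * β g₁ * β g₂) * hs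
    · rcases S.all _ (tw g T₁ S.two1) with k | k | k | k
      · exact absurd k n1
      · rw [h] at e0
        rw [k] at e1
        rw [h, k, add_comm] at e2
        rw [hβ1 _ e0, hβ0 _ e1, hβ2 _ e2, e0, e1, e2]
        linear_combination (β 1 * β g₁ * β g₂) * hs
      · exact absurd (h.trans k.symm) n01
      · rw [h] at e0
        rw [k] at e1
        rw [h, k, s2] at e2
        rw [hβ1 _ e0, hβ2 _ e1, hβ0 _ e2, e0, e1, e2]
        linear_combination (β 1 * β g₁ * β g₂) * hs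
    · rcases S.all _ (tw g T₁ S.two1) with k | k | k | k
      · exact absurd k n1
      · rw [h] at e0
        rw [k] at e1
        rw [h, k, s3] at e2
        rw [hβ2 _ e0, hβ0 _ e1, hβ1 _ e2, e0, e1, e2]
        linear_combination (β 1 * β g₁ * β g₂) * hs
      · rw [h] at e0
        rw [k] at e1
        rw [h, k, s4] at e2
        rw [hβ2 _ e0, hβ1 _ e1, hβ0 _ e2, e0, e1, e2]
        linear_combination (β 1 * β g₁ * β g₂) * hs
      · exact absurd (h.trans k.symm) n01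
  have hb1 : β 1 = b := by
    rw [hβ, c1, r1, he]
    have : pr (0 : M) (a 1 T₀) = 1 := by
      unfold pr
      rw [if_pos (Or.inl rfl)]
    rw [this]
    simp
  have hx1 : r g₁ b = e (pr (c g₁) (a g₁ T₀)) * β g₁ := by
    rw [hβ]
    have h5 := ee (pr (c g₁) (a g₁ T₀))
    linear_combination (-(r g₁ b)) * h5
  have hx2 : r g₂ b = e (pr (c g₂) (a g₂ T₀)) * β g₂ := by
    rw [hβ]
    have h5 := ee (pr (c g₂) (a g₂ T₀))
    linear_combination (-(r g₂ b)) * h5
  have hfin : b * r g₁ b * r g₂ b = (e (pr (c g₁) (a g₁ T₀)) * e (pr (c g₂) (a g₂ T₀))) *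
      (β 1 * β g₁ * β g₂) := by
    rw [hx1, hx2, hb1]
    ring
  rw [hfin, map_mul, hprod, map_mul, re, re]

end Pool.Agent.Lib.MP_1a91b9_ntT.S9
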