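import Pool.Agent.Lib.MP_1a91b9_ntT.S5.Places

/-!
# JOB LA: the map between completions

`v = below N w`. `N → A` is continuous for the valuations (`S5.val_below`:
`w(x) = v(x)^e`, `e = ram N w > 0`), so it extends to a ring homomorphism of the completions
(`adicCompletion.equiv`, `UniformSpace.Completion.mapRingHom`, `mapRingHom_coe`).
Second claim: for `x = 0` clear. For `x ≠ 0` choose `a ∈ N` so close to `x` that
`v(x - a) < v(x)` (so `v(x) = v(a)`) and `w(φ x - φ a) < w(φ x)` (continuity of `φ`; density:
`HeightOneSpectrum.denseRange_algebraMap`, `Valued.mem_nhds`); then `w(φ x) = w(a) = v(a)^e = v(x)^e`.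
(or: both sides are continuous maps to `ℤᵐ⁰`/locally constant.)
-/

set_option autoImplicit false

namespace Pool.Agent.Lib.MP_1a91b9_ntT.S9

open IsDedekindDomain NumberField S5

private theorem la_over {N A : Type*} [Field N] [NumberField N] [Field A] [NumberField A]
    [Algebra N A] (w : HeightOneSpectrum (𝓞 A)) : w.asIdeal.LiesOver (below N w).asIdeal :=
  ⟨rfl⟩

private theorem la_cont (N : Type*) {A : Type*} [Field N] [NumberField N] [Field A]
    [NumberField A] [Algebra N A] (w : HeightOneSpectrum (𝓞 A)) :
    Continuous (algebraMap (WithVal ((below N w).valuation N)) (WithVal (w.valuation A))) := by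
  have := la_over (N := N) w
  exact (HeightOneSpectrum.uniformContinuous_algebraMap_liesOver N A (below N w) w).continuous

open HeightOneSpectrum in
theorem exists_compMap (N : Type*) {A : Type*} [Field N] [NumberField N] [Field A] [NumberField A]
    [Algebra N A] (w : HeightOneSpectrum (𝓞 A)) :
    ∃ φ : (below N w).adicCompletion N →+* w.adicCompletion A,
      (∀ x : N, φ (algebraMap N _ x) = algebraMap A _ (algebraMap N A x)) ∧
      ∀ x, Valued.v (φ x) = (Valued.v x) ^ ram N w := by
  have hc := la_cont N w
  let ψ := UniformSpace.Completion.mapRingHom _ hc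
  let φ : (below N w).adicCompletion N →+* w.adicCompletion A :=
    (adicCompletion.equiv A w).symm.toRingHom.comp
      (ψ.comp (adicCompletion.equiv N (below N w)).toRingHom)
  have hφ : ∀ x, φ x = adicCompletion.ofCompletion (ψ x.toCompletion) := fun x => rfl
  have hφc : Continuous φ := by
    have h1 : Continuous ψ := UniformSpace.Completion.continuous_map
    exact (adicCompletion.continuous_ofCompletion A w).comp
      (h1.comp (adicCompletion.continuous_toCompletion N (below N w)))
  have h1 : ∀ x : N, φ (algebraMap N _ x) = algebraMap A _ (algebraMap N A x) := by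
    intro x
    rw [hφ]
    apply adicCompletion.ext
    exact UniformSpace.Completion.mapRingHom_coe hc _
  refine ⟨φ, h1, fun x => ?_⟩
  by_cases hx : x = 0
  · subst hx
    rw [map_zero, map_zero, map_zero, zero_pow (ram_pos N w).ne']
  · have e1 : {y : (below N w).adicCompletion N | (Valued.v y : WithZero (Multiplicative ℤ)) =
        Valued.v x} ∈ nhds x := Valued.locally_const ((Valuation.ne_zero_iff _).mpr hx)
    have hφx : φ x ≠ 0 := (map_ne_zero φ).mpr hx
    have e2 : {y : w.adicCompletion A | (Valued.v y : WithZero (Multiplicative ℤ)) =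
        Valued.v (φ x)} ∈ nhds (φ x) := Valued.locally_const ((Valuation.ne_zero_iff _).mpr hφx)
    have e3 := Filter.inter_mem e1 (hφc.continuousAt.preimage_mem_nhds e2)
    obtain ⟨a, ha1, ha2⟩ := (denseRange_algebraMap N (below N w)).mem_nhds e3
    have ha1' : Valued.v (algebraMap N ((below N w).adicCompletion N) a) = Valued.v x := ha1
    have ha2' : Valued.v (φ (algebraMap N ((below N w).adicCompletion N) a)) =
      Valued.v (φ x) := ha2
    rw [← ha2', ← ha1', h1]
    have e4 : Valued.v (algebraMap A (w.adicCompletion A) (algebraMap N A a)) =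
      w.valuation A (algebraMap N A a) := valuedAdicCompletion_eq_valuation' w _
    have e5 : Valued.v (algebraMap N ((below N w).adicCompletion N) a) =
      (below N w).valuation N a := valuedAdicCompletion_eq_valuation' (below N w) _
    rw [e4, e5, val_below]

end Pool.Agent.Lib.MP_1a91b9_ntT.S9
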