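import Pool.Agent.Lib.MP_1a91b9_ntT.S5.Image

/-!
# JOB LD: the values of `4 x + 2 t` at a place not above 6, local version

Copy of the proof of `S5.image_val` in the field `A_w = w.adicCompletion A` with the valuation
`Valued.v` (`Valued.v (a : A_w) = w.valuation A a`, `HeightOneSpectrum.valuedAdicCompletion_eq_valuation'`);
then `v(α) v(4 x + 2 t) = v(β)²` gives `IsSquare (v(α))` (`S5.isSquare_of_mul`).
-/

set_option autoImplicit false

namespace Pool.Agent.Lib.MP_1a91b9_ntT.S9

open IsDedekindDomain NumberField S5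

private theorem ld_gen {K : Type*} [Field K] (V : Valuation K (WithZero (Multiplicative ℤ)))
    (h2 : V 2 = 1) (h3 : V 3 = 1) (θ : K) (hcube : θ ^ 3 = 2) (x y : K)
    (hxy' : y ^ 2 + y = x ^ 3) : IsSquare (V (4 * x + 2 * θ)) := by
  have hθ : V θ = 1 := by
    apply pow_left_inj' (n := 3) (by norm_num)
    rw [← map_pow, hcube, h2, one_pow]
  set X : K := 4 * x with hX
  set Y : K := 4 * (2 * y + 1) with hY
  have hYX : Y ^ 2 = X ^ 3 + 16 := by
    rw [hX, hY]
    linear_combination 64 * hxy'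
  have h16 : V 16 = 1 := by
    rw [show (16 : K) = 2 ^ 4 by norm_num, map_pow, h2, one_pow]
  have h4 : V 4 = 1 := by
    rw [show (4 : K) = 2 ^ 2 by norm_num, map_pow, h2, one_pow]
  have h2θ : V (2 * θ) = 1 := by rw [map_mul, h2, hθ, one_mul]
  rcases lt_or_ge 1 (V X) with hX1 | hX1
  · have h5 : V (X + 2 * θ) = V X := by
      apply Valuation.map_add_eq_of_lt_left
      rw [h2θ]
      exact hX1
    rw [h5]
    have h6 : V (X ^ 3 + 16) = V (X ^ 3) := by
      apply Valuation.map_add_eq_of_lt_left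
      rw [h16, map_pow]
      exact one_lt_pow₀ hX1 (by norm_num)
    have h7 : V Y ^ 2 = V X ^ 3 := by
      rw [← map_pow, hYX, h6, map_pow]
    obtain ⟨m, hm, _⟩ := exists_of_sq_eq_cube (ne_of_gt (lt_trans zero_lt_one hX1)) h7
    rw [hm, isSquare_exp]
    exact even_two_mul m
  · have h5 : V (X + 2 * θ) ≤ 1 :=
      (Valuation.map_add _ _ _).trans (max_le hX1 h2θ.le)
    rcases h5.eq_or_lt with h6 | h6
    · rw [h6]
      exact ⟨1, (mul_one 1).symm⟩
    · have h7 : V (X - 4 * θ) ≤ 1 := by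
        refine (Valuation.map_sub _ _ _).trans (max_le hX1 ?_)
        rw [map_mul, h4, hθ, one_mul]
      have h8 : V (12 * θ ^ 2) = 1 := by
        rw [show (12 : K) = 4 * 3 by norm_num, map_mul, map_mul, h4, h3, map_pow, hθ]
        simp
      have h9 : V ((X + 2 * θ) * (X - 4 * θ)) < V (12 * θ ^ 2) := by
        rw [h8, map_mul]
        calc V (X + 2 * θ) * V (X - 4 * θ)
            ≤ V (X + 2 * θ) * 1 := mul_le_mul_right h7 _
          _ < 1 := by rw [mul_one]; exact h6
      have h10 : V ((X + 2 * θ) * (X - 4 * θ) + 12 * θ ^ 2) = 1 := by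
        rw [Valuation.map_add_eq_of_lt_right _ h9, h8]
      refine ⟨V Y, ?_⟩
      rw [← map_mul, show Y * Y = (X + 2 * θ) * ((X + 2 * θ) * (X - 4 * θ) + 12 * θ ^ 2) by
        linear_combination hYX - 8 * hcube, map_mul, h10, mul_one]

theorem val_even {A : Type*} [Field A] [NumberField A] (w : HeightOneSpectrum (𝓞 A))
    (h2 : w.valuation A 2 = 1) (h3 : w.valuation A 3 = 1) (t : A) (ht : t ^ 3 = 2)
    (x y β : w.adicCompletion A) (h : y ^ 2 + y = x ^ 3)
    (hne : 4 * x + 2 * algebraMap A _ t ≠ 0) (α : A)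
    (hα : algebraMap A _ α * (4 * x + 2 * algebraMap A _ t) = β ^ 2) :
    IsSquare (w.valuation A α) := by
  have hv : ∀ a : A, (Valued.v (algebraMap A (w.adicCompletion A) a) : WithZero (Multiplicative ℤ))
      = w.valuation A a := fun a => HeightOneSpectrum.valuedAdicCompletion_eq_valuation' w a
  have hV2 : (Valued.v (2 : w.adicCompletion A) : WithZero (Multiplicative ℤ)) = 1 := by
    have h1 := hv 2
    rw [map_ofNat] at h1
    rw [h1, h2]
  have hV3 : (Valued.v (3 : w.adicCompletion A) : WithZero (Multiplicative ℤ)) = 1 := by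
    have h1 := hv 3
    rw [map_ofNat] at h1
    rw [h1, h3]
  have hcube : (algebraMap A (w.adicCompletion A) t) ^ 3 = 2 := by
    rw [← map_pow, ht, map_ofNat]
  have h1 := ld_gen (Valued.v : Valuation (w.adicCompletion A) (WithZero (Multiplicative ℤ)))
    hV2 hV3 _ hcube x y h
  have h4 : (Valued.v (4 * x + 2 * algebraMap A (w.adicCompletion A) t) :
      WithZero (Multiplicative ℤ)) ≠ 0 := (Valuation.ne_zero_iff _).mpr hne
  refine isSquare_of_mul h4 h1 ?_
  rw [← hv α, ← map_mul, hα, map_pow]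
  exact ⟨_, pow_two _⟩

end Pool.Agent.Lib.MP_1a91b9_ntT.S9
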