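import Pool.Agent.Lib.MP_1a91b9_ntT.S5.Image

/-!
# JOB LE: `4 x + 2 t` at a place above 2, local version

(two_local) Copy of the proof of `S5.image_two`, with `x y` in `N_v`, `v = below N w`, and
`φ : N_v → A_w` (`w(φ x) = v(x)^e`, `e = ram N w ≥ 1`) instead of `algebraMap N A`.
Let `w(θ) = exp (-a)`, `a ≥ 1`, `w(2) = exp (-3 a)`.
Case `w(φ x) ≤ 1`: `s = θ⁻²`, `(4 x + 2 θ) s² - 1 = x θ²`. Case `w(φ x) > 1`, so `v(x) > 1`: then
`v(y)² = v(x)³`, so `v(x) = exp (2 m)`, `m ≥ 1`, `v(4 x) = exp (2 m - 2) ≥ 1`;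
`s = x / (2 y)` satisfies `(4 x + 2 θ) s² = (1 + 1 / y) (1 + θ / (2 x))`.
(two_global) From `α (4 x + 2 t) = β²`: `α s'² - 1` with `s' = (4 x + 2 t) s / β` is
`(4 x + 2 t) s² - 1` (`β ≠ 0`, since `α ≠ 0`). Then choose `s'' ∈ A` with
`w(α (s''² - s'²)) ≤ exp (-2)`: density (`HeightOneSpectrum.denseRange_algebraMap`) and continuity
of `s ↦ α s² - 1` and `Valued.mem_nhds`.
-/

set_option autoImplicit false

namespace Pool.Agent.Lib.MP_1a91b9_ntT.S9

open IsDedekindDomain NumberField S5 WithZero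

variable {N A : Type*} [Field N] [NumberField N] [Field A] [NumberField A] [Algebra N A]

theorem two_local (w : HeightOneSpectrum (𝓞 A)) (h2 : w.valuation A 2 < 1)
    (hunr : (below N w).valuation N 2 = exp (-1 : ℤ))
    (φ : (below N w).adicCompletion N →+* w.adicCompletion A)
    (hφ : ∀ x, Valued.v (φ x) = (Valued.v x) ^ ram N w) (t : A) (ht : t ^ 3 = 2)
    (x y : (below N w).adicCompletion N) (h : y ^ 2 + y = x ^ 3) :
    ∃ s : w.adicCompletion A,
      Valued.v ((4 * φ x + 2 * algebraMap A _ t) * s ^ 2 - 1) ≤ exp (-2 : ℤ) := by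
  have hCA : CharZero (w.adicCompletion A) :=
    charZero_of_injective_algebraMap (algebraMap A (w.adicCompletion A)).injective
  set V : Valuation (w.adicCompletion A) ℤᵐ⁰ := Valued.v with hV
  set θ : w.adicCompletion A := algebraMap A _ t with hθdef
  have hcube : θ ^ 3 = 2 := by rw [hθdef, ← map_pow, ht, map_ofNat]
  have h2' : V 2 < 1 := by
    have h3 : V (algebraMap A (w.adicCompletion A) 2) = w.valuation A 2 :=
      HeightOneSpectrum.valuedAdicCompletion_eq_valuation' w 2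
    rw [map_ofNat] at h3
    rw [h3]
    exact h2
  have hθ0 : θ ≠ 0 := by
    intro h0
    rw [h0] at hcube
    norm_num at hcube
  have hVθ : V θ ^ 3 = V 2 := by rw [← map_pow, hcube]
  have hVθ1 : V θ < 1 := by
    by_contra hc
    push Not at hc
    have h1 : 1 ≤ V θ ^ 3 := one_le_pow₀ hc
    rw [hVθ] at h1
    exact absurd h2' (not_lt.mpr h1)
  have hVθe : V θ ≤ exp (-1 : ℤ) := lt_one_iff.mp hVθ1
  rcases le_or_gt (V (φ x)) 1 with hx | hx
  · refine ⟨(θ⁻¹) ^ 2, ?_⟩
    have e1 : (4 * φ x + 2 * θ) * ((θ⁻¹) ^ 2) ^ 2 - 1 = θ ^ 2 * φ x := by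
      have h4 : (4 : w.adicCompletion A) = θ ^ 6 := by
        calc (4 : w.adicCompletion A) = 2 ^ 2 := by norm_num
          _ = (θ ^ 3) ^ 2 := by rw [hcube]
          _ = θ ^ 6 := by ring
      rw [h4, hcube.symm]
      field_simp
      ring
    rw [e1, map_mul, map_pow]
    calc V θ ^ 2 * V (φ x) ≤ (exp (-1 : ℤ)) ^ 2 * 1 :=
          mul_le_mul' (pow_le_pow_left₀ zero_le hVθe 2) hx
      _ = exp (-2 : ℤ) := by rw [mul_one, ← exp_nsmul]; norm_num
  · set v : Valuation ((below N w).adicCompletion N) ℤᵐ⁰ := Valued.v with hv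
    have hval : ∀ z, V (φ z) = v z ^ ram N w := fun z => hφ z
    have he : 0 < ram N w := ram_pos N w
    have hvx : 1 < v x := by
      by_contra hc
      push Not at hc
      rw [hval] at hx
      exact absurd hx (not_lt.mpr (pow_le_one₀ zero_le hc))
    have hv2' : v 2 = exp (-1 : ℤ) := by
      have h3 : v (algebraMap N ((below N w).adicCompletion N) 2) = (below N w).valuation N 2 :=
        HeightOneSpectrum.valuedAdicCompletion_eq_valuation' (below N w) 2
      rw [map_ofNat] at h3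
      rw [h3]
      exact hunr
    have hvx0 : v x ≠ 0 := (lt_trans zero_lt_one hvx).ne'
    have hx0 : x ≠ 0 := by
      rintro rfl
      simp at hvx0
    have hvy : 1 < v y := by
      by_contra hc
      push Not at hc
      have h1 : v (y ^ 2 + y) ≤ 1 := by
        refine le_trans (v.map_add _ _) (max_le ?_ hc)
        rw [map_pow]
        exact pow_le_one₀ zero_le hc
      rw [h, map_pow] at h1
      have h3 : 1 < v x ^ 3 := one_lt_pow₀ hvx (by norm_num)
      exact absurd h3 (not_lt.mpr h1)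
    have hy0 : y ≠ 0 := by
      rintro rfl
      simp at hvy
    have hvyx : v y ^ 2 = v x ^ 3 := by
      have h1 : v y < v (y ^ 2) := by
        rw [map_pow, pow_two]
        exact lt_mul_of_one_lt_left (lt_trans zero_lt_one hvy) hvy
      have h3 : v (y ^ 2 + y) = v (y ^ 2) := Valuation.map_add_eq_of_lt_left v h1
      rw [h, map_pow, map_pow] at h3
      exact h3.symm
    obtain ⟨m, hm1, hm2⟩ := exists_of_sq_eq_cube hvx0 hvyx
    have hm : 1 ≤ m := by
      rw [hm1, ← exp_zero, exp_lt_exp] at hvx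
      omega
    have hX0 : φ x ≠ 0 := (map_ne_zero _).mpr hx0
    have hY0 : φ y ≠ 0 := (map_ne_zero _).mpr hy0
    have hXY : (φ y) ^ 2 + φ y = (φ x) ^ 3 := by
      rw [← map_pow, ← map_pow, ← map_add, h]
    have h4x : 1 ≤ V (4 * φ x) := by
      have h1 : (4 : w.adicCompletion A) * φ x = φ (4 * x) := by
        rw [map_mul, map_ofNat]
      rw [h1, hval]
      apply one_le_pow₀
      have h4 : (4 : (below N w).adicCompletion N) = 2 ^ 2 := by norm_num
      rw [map_mul, h4, map_pow, hv2', hm1, ← exp_nsmul, ← exp_add, ← exp_zero, exp_le_exp]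
      simp only [nsmul_eq_mul, Nat.cast_ofNat]
      omega
    refine ⟨φ x / (2 * φ y), ?_⟩
    have e1 : (4 * φ x + 2 * θ) * (φ x / (2 * φ y)) ^ 2 - 1
        = (φ y)⁻¹ + (2 * θ) * (4 * φ x)⁻¹ + (2 * θ) * (4 * φ x)⁻¹ * (φ y)⁻¹ := by
      have e2 : (4 * φ x + 2 * θ) * (φ x / (2 * φ y)) ^ 2 =
          (4 * φ x + 2 * θ) * (φ x) ^ 3 / (4 * φ x * (φ y) ^ 2) := by
        field_simp
        norm_num
      rw [e2, ← hXY]
      field_simp
      ring
    have b1 : V ((φ y)⁻¹) ≤ exp (-2 : ℤ) := by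
      rw [map_inv₀, hval, hm2, ← exp_nsmul, ← exp_neg, exp_le_exp, nsmul_eq_mul]
      have h1 : (1 : ℤ) ≤ (ram N w : ℤ) := by exact_mod_cast he
      nlinarith
    have b2 : V ((2 * θ) * (4 * φ x)⁻¹) ≤ exp (-2 : ℤ) := by
      rw [map_mul, map_inv₀]
      have h1 : V (2 * θ) ≤ exp (-2 : ℤ) := by
        rw [map_mul, ← hVθ, ← pow_succ]
        calc V θ ^ (3 + 1) ≤ (exp (-1 : ℤ)) ^ (3 + 1) := pow_le_pow_left₀ zero_le hVθe _
          _ = exp (-4 : ℤ) := by rw [← exp_nsmul]; norm_num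
          _ ≤ exp (-2 : ℤ) := by rw [exp_le_exp]; norm_num
      calc V (2 * θ) * (V (4 * φ x))⁻¹ ≤ exp (-2 : ℤ) * 1 :=
            mul_le_mul' h1 (inv_le_one_of_one_le₀ h4x)
        _ = exp (-2 : ℤ) := mul_one _
    have b3 : V ((2 * θ) * (4 * φ x)⁻¹ * (φ y)⁻¹) ≤ exp (-2 : ℤ) := by
      rw [map_mul V ((2 * θ) * (4 * φ x)⁻¹)]
      have h1 : V ((φ y)⁻¹) ≤ 1 := by
        refine le_trans b1 ?_
        rw [← exp_zero, exp_le_exp]
        norm_num
      calc _ ≤ exp (-2 : ℤ) * 1 := mul_le_mul' b2 h1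
        _ = exp (-2 : ℤ) := mul_one _
    rw [e1]
    exact le_trans (V.map_add _ _) (max_le (le_trans (V.map_add _ _) (max_le b1 b2)) b3)

theorem two_global (w : HeightOneSpectrum (𝓞 A)) (X β s : w.adicCompletion A) (α : A)
    (h0 : α ≠ 0) (hX : X ≠ 0) (hα : algebraMap A _ α * X = β ^ 2)
    (hs : Valued.v (X * s ^ 2 - 1) ≤ exp (-2 : ℤ)) :
    ∃ s : A, w.valuation A (α * s ^ 2 - 1) ≤ exp (-2 : ℤ) := by
  obtain ⟨c, hc⟩ := HeightOneSpectrum.valuedAdicCompletion_surjective A w (exp (-2 : ℤ))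
  have hα0 : (algebraMap A (w.adicCompletion A)) α ≠ 0 := by
    rw [Ne, map_eq_zero]
    exact h0
  have hβ : β ≠ 0 := by
    intro hb
    rw [hb] at hα
    exact mul_ne_zero hα0 hX (by rw [hα]; ring)
  have hO : IsOpen {y : w.adicCompletion A |
      Valued.v (algebraMap A (w.adicCompletion A) α * y ^ 2 - 1) ≤
        (Valued.v c : WithZero (Multiplicative ℤ))} := by
    have h1 : IsOpen {x : w.adicCompletion A | Valued.v.restrict x ≤ Valued.v.restrict c} := by
      apply Valued.isOpen_closedBall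
      rw [Ne, Valuation.restrict_eq_zero_iff, hc]
      exact exp_ne_zero
    have h2 : Continuous fun y : w.adicCompletion A =>
        algebraMap A (w.adicCompletion A) α * y ^ 2 - 1 := by fun_prop
    have h3 := h1.preimage h2
    convert h3 using 1
    ext y
    simp only [Set.mem_ofPred_eq, Set.mem_preimage, Valuation.restrict_le_iff]
  have hm : (X * s / β) ∈ {y : w.adicCompletion A |
      Valued.v (algebraMap A (w.adicCompletion A) α * y ^ 2 - 1) ≤
        (Valued.v c : WithZero (Multiplicative ℤ))} := by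
    have e1 : algebraMap A (w.adicCompletion A) α * (X * s / β) ^ 2 = X * s ^ 2 := by
      field_simp
      rw [hα]
      ring
    rw [Set.mem_ofPred_eq, e1, hc]
    exact hs
  obtain ⟨a, ha⟩ := (HeightOneSpectrum.denseRange_algebraMap A w).exists_mem_open hO ⟨_, hm⟩
  refine ⟨a, ?_⟩
  rw [Set.mem_ofPred_eq, hc] at ha
  have e2 : algebraMap A (w.adicCompletion A) (α * a ^ 2 - 1) =
      algebraMap A (w.adicCompletion A) α * (algebraMap A (w.adicCompletion A) a) ^ 2 - 1 := by
    rw [map_sub, map_mul, map_pow, map_one]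
  rw [← e2] at ha
  have e3 : Valued.v (algebraMap A (w.adicCompletion A) (α * a ^ 2 - 1)) =
      w.valuation A (α * a ^ 2 - 1) := HeightOneSpectrum.valuedAdicCompletion_eq_valuation' w _
  rw [← e3]
  exact ha

end Pool.Agent.Lib.MP_1a91b9_ntT.S9
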