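import Pool.Agent.Lib.MP_1a91b9_ntT.S5.Main
import Pool.Agent.Lib.MP_1a91b9_ntT.S9.LD
import Pool.Agent.Lib.MP_1a91b9_ntT.S9.LE

/-!
# JOB LF: local conditions give the Selmer condition

As in `S5.image_sel`. `val` at `w(2) < 1` follows from `two` (`w(α s²) = 1`), at `w(3) < 1`
from `S5.unique_three` and `S5.even_of_unique`, otherwise `val_even` with `x := φ x`, `y := φ y`.
`two`: `two_local`, `two_global`.
-/

set_option autoImplicit false

namespace Pool.Agent.Lib.MP_1a91b9_ntT.S9

open IsDedekindDomain NumberField S5 WithZero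

variable {N A : Type*} [Field N] [NumberField N] [Field A] [NumberField A] [Algebra N A]

theorem sel_of_local {t : A} (h : Cub N A t)
    (hunr : ∀ v : HeightOneSpectrum (𝓞 N), v.valuation N 2 < 1 →
      v.valuation N 2 = exp (-1 : ℤ))
    (ht : ∀ v : HeightOneSpectrum (𝓞 N), v.valuation N 3 < 1 →
      ∀ m : ℤ, v.valuation N 3 ≠ exp (3 * m)) (α : A) (h0 : α ≠ 0)
    (hn : IsSquare (Algebra.norm N α))
    (hl : ∀ w : HeightOneSpectrum (𝓞 A), ∃ φ : (below N w).adicCompletion N →+*
      w.adicCompletion A, (∀ x, Valued.v (φ x) = (Valued.v x) ^ ram N w) ∧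
      ∃ (x y : (below N w).adicCompletion N) (β : w.adicCompletion A), y ^ 2 + y = x ^ 3 ∧
        4 * φ x + 2 * algebraMap A _ t ≠ 0 ∧
        algebraMap A _ α * (4 * φ x + 2 * algebraMap A _ t) = β ^ 2) :
    Sel N A α := by
  have htwo : ∀ w : HeightOneSpectrum (𝓞 A), w.valuation A 2 < 1 →
      ∃ s : A, w.valuation A (α * s ^ 2 - 1) ≤ exp (-2 : ℤ) := by
    intro w h2
    obtain ⟨φ, hφ, x, y, β, hxy, hne, hα⟩ := hl w
    have hb : (below N w).valuation N 2 < 1 := by
      by_contra hc
      push Not at hc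
      have h1 : w.valuation A (algebraMap N A 2) = (below N w).valuation N 2 ^ ram N w :=
        val_below N w 2
      rw [map_ofNat] at h1
      rw [h1] at h2
      exact absurd h2 (not_lt.mpr (one_le_pow₀ hc))
    obtain ⟨s, hs⟩ := two_local w h2 (hunr _ hb) φ hφ t h.cube x y hxy
    exact two_global w _ β s α h0 hne hα hs
  refine ⟨h0, hn, ?_, htwo⟩
  intro w
  set V := w.valuation A with hV
  have hle2 : V 2 ≤ 1 := by
    have h1 := w.valuation_le_one (K := A) (2 : 𝓞 A)
    exact h1
  have hle3 : V 3 ≤ 1 := by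
    have h1 := w.valuation_le_one (K := A) (3 : 𝓞 A)
    exact h1
  rcases lt_or_eq_of_le hle2 with h2 | h2
  · obtain ⟨s, hs⟩ := htwo w h2
    rw [← hV] at hs
    have hlt : V (α * s ^ 2 - 1) < 1 := by
      refine lt_of_le_of_lt hs ?_
      rw [← exp_zero, exp_lt_exp]
      norm_num
    have h1 : V (α * s ^ 2) = 1 := by
      have h3 : α * s ^ 2 = 1 + (α * s ^ 2 - 1) := by ring
      rw [h3]
      exact Valuation.map_one_add_of_lt V hlt
    rw [map_mul, map_pow] at h1
    have hs0 : V s ^ 2 ≠ 0 := by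
      intro h3
      rw [h3, mul_zero] at h1
      exact zero_ne_one h1
    refine isSquare_of_mul (b := V s ^ 2) hs0 ⟨V s, pow_two _⟩ ?_
    rw [h1]
    exact ⟨1, (mul_one 1).symm⟩
  · rcases lt_or_eq_of_le hle3 with h3 | h3
    · have hb : (below N w).valuation N 3 < 1 := by
        by_contra hc
        push Not at hc
        have h1 : V (algebraMap N A 3) = (below N w).valuation N 3 ^ ram N w := val_below N w 3
        rw [map_ofNat] at h1
        rw [h1] at h3
        exact absurd h3 (not_lt.mpr (one_le_pow₀ hc))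
      exact even_of_unique h.deg w (fun w' hw' => unique_three h w w' h3 (ht _ hb) hw') _ h0 hn
    · obtain ⟨φ, hφ, x, y, β, hxy, hne, hα⟩ := hl w
      refine val_even w h2 h3 t h.cube (φ x) (φ y) β ?_ hne α hα
      rw [← map_pow, ← map_pow, ← map_add, hxy]

end Pool.Agent.Lib.MP_1a91b9_ntT.S9
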