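import Pool.Agent.Lib.MP_1a91b9_ntT.S5.CubBasic

/-!
# JOB NA: the norm from the cubic field as a product of conjugates

`α = a + b t + c t²` (`Cub.repr`), `norm α = a³ + 2 b³ + 4 c³ - 6 a b c` (`Cub.norm_eq`).
With `T = ι t`, `g₁ T = z T`, `g₂ T = z² T`:
`(a + b T + c T²)(a + b z T + c z² T²)(a + b z² T + c z T²) = a³ + 2 b³ + 4 c³ - 6 a b c`
modulo `T³ = 2`, `z² + z + 1 = 0`.
-/

set_option autoImplicit false

namespace Pool.Agent.Lib.MP_1a91b9_ntT.S9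

open S5

private theorem na_alg {Ω : Type*} [Field Ω] (A B C T z : Ω) (hz : z ^ 2 + z + 1 = 0)
    (hT : T ^ 3 = 2) :
    A ^ 3 + 2 * B ^ 3 + 4 * C ^ 3 - 6 * A * B * C =
      (A + B * T + C * T ^ 2) * (A + B * (z * T) + C * (z * T) ^ 2) *
        (A + B * (z ^ 2 * T) + C * (z ^ 2 * T) ^ 2) := by
  have hz3 : z ^ 3 = 1 := by linear_combination (z - 1) * hz
  have hz4 : z ^ 4 = z := by linear_combination z * hz3
  have e0 : (z ^ 2 * T) ^ 2 = z * T ^ 2 := by linear_combination T ^ 2 * hz4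
  have e1 : (A + B * (z * T) + C * (z * T) ^ 2) * (A + B * (z ^ 2 * T) + C * (z * T ^ 2)) =
      A ^ 2 - A * B * T - A * C * T ^ 2 + B ^ 2 * T ^ 2 - B * C * T ^ 3 + C ^ 2 * T ^ 4 := by
    linear_combination (A * B * T + A * C * T ^ 2 + B * C * T ^ 3) * hz +
      (B ^ 2 * T ^ 2 + C ^ 2 * T ^ 4) * hz3 + B * C * T ^ 3 * hz4
  rw [e0, mul_assoc (A + B * T + C * T ^ 2), e1]
  linear_combination (-(B ^ 3 - 3 * A * B * C + C ^ 3 * (T ^ 3 + 2))) * hT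

theorem norm_prod {N A Ω : Type*} [Field N] [CharZero N] [Field A] [Algebra N A] [Field Ω]
    [Algebra N Ω] {t : A} (h : Cub N A t) (ι : A →ₐ[N] Ω) (g₁ g₂ : Ω →ₐ[N] Ω) (z : Ω)
    (hz : z ^ 2 + z + 1 = 0) (h₁ : g₁ (ι t) = z * ι t) (h₂ : g₂ (ι t) = z ^ 2 * ι t) (α : A) :
    algebraMap N Ω (Algebra.norm N α) = ι α * g₁ (ι α) * g₂ (ι α) := by
  obtain ⟨a, b, c, rfl⟩ := h.repr α
  have hT : (ι t) ^ 3 = 2 := by
    rw [← map_pow, h.cube, map_ofNat]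
  rw [h.norm_eq]
  simp only [map_add, map_mul, map_pow, map_sub, map_ofNat, AlgHom.commutes, h₁, h₂]
  have := na_alg (algebraMap N Ω a) (algebraMap N Ω b) (algebraMap N Ω c) (ι t) z hz hT
  linear_combination this

end Pool.Agent.Lib.MP_1a91b9_ntT.S9
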