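import Pool.Agent.Lib.MP_1a91b9_ntT.S5.Tower
import Pool.Agent.Lib.MP_1a91b9_ntT.S7.HalfTower
import Pool.Agent.Lib.MP_1a91b9_ntT.P.Ratio
import Pool.Agent.Lib.MP_1a91b9_ntT.S9.Nf
import Pool.Agent.Lib.MP_1a91b9_ntT.S9.MC
import Pool.Agent.Lib.MP_1a91b9_ntT.S9.QH

/-!
# The 2-part of the conjecture of Birch and Swinnerton-Dyer: assembly
-/

set_option autoImplicit false

namespace Pool.Agent.Lib.MP_1a91b9_ntT.S9

open NumberField IsDedekindDomain WeierstrassCurve S5
open scoped Classical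

universe u

theorem odd_points {N : Type u} [Field N] [NumberField N] (hG : Good N) :
    Finite (E N).toAffine.Point ∧ Odd (Nat.card (E N).toAffine.Point) := by
  have hf : Finite (E N).toAffine.Point := hG.finite
  exact ⟨hf, odd_card_of_div hG.two_div⟩

theorem prod_tam_odd {N : Type u} [Field N] [NumberField N] (hG : Good N) :
    Odd (∏ᶠ v : HeightOneSpectrum (𝓞 N), tam (E N) v) :=
  finprod_induction (p := fun n : ℕ => Odd n) odd_one (fun _ _ => Odd.mul)
    (tam_odd hG.tame)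

theorem unitTwo_of_val {x : ℝ} (h : ∀ A : ValuationSubring ℂ, Two A → A.valuation (x : ℂ) = 1) :
    UnitTwo x := by
  obtain ⟨A, hA⟩ := S3.exists_A
  have hx0 : x ≠ 0 := by
    rintro rfl
    have := h A hA
    rw [Complex.ofReal_zero, map_zero] at this
    exact zero_ne_one this
  obtain ⟨⟨m, hm, hm1⟩, n, hn, hn1⟩ := Per.exists_odd_unit h
  have hinj : Function.Injective (algebraMap ℝ ℂ) := (algebraMap ℝ ℂ).injective
  refine ⟨hx0, ⟨m, hm, ?_⟩, n, hn, ?_⟩
  · rw [← isIntegral_algebraMap_iff hinj]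
    convert! hm1 using 1
    simp
  · rw [← isIntegral_algebraMap_iff hinj]
    convert! hn1 using 1
    simp

theorem finprod_normFactor_ne_zero (N : Type u) [Field N] [NumberField N] :
    (∏ᶠ v : HeightOneSpectrum (𝓞 N), normFactor (E N) v) ≠ 0 := by
  obtain ⟨A, hA⟩ := S3.exists_A
  intro h
  have := val_finprod (N := N) hA
  rw [h, Complex.ofReal_zero, map_zero] at this
  exact zero_ne_one this

theorem two_part {N : Type u} [Field N] [NumberField N] (h : Tower N)
    (hd : Odd (discr N)) : TwoPart (E N) := by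
  have hG := tower_good h
  obtain ⟨hf, hodd⟩ := odd_points hG
  obtain ⟨g, R, hg, hg2, hg1, hR, hR0, hRA, -, -⟩ := Per.bsd_ratio N h hd
  have hsub : Subsingleton (ShaTwo (E N)) := shaTwo_trivial hG
  have hc : Nat.card (ShaTwo (E N)) = 1 := card_shaTwo hG
  set T : ℕ := ∏ᶠ v : HeightOneSpectrum (𝓞 N), tam (E N) v with hT
  have hTo : Odd T := prod_tam_odd hG
  set Φ : ℝ := ∏ᶠ v : HeightOneSpectrum (𝓞 N), normFactor (E N) v with hΦ
  have hΦ0 : Φ ≠ 0 := finprod_normFactor_ne_zero N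
  set C : ℕ := Nat.card (E N).toAffine.Point with hC
  set P : ℝ := ∏ v : InfinitePlace N, Per.perAt (E N) v with hP
  have hP0 : P ≠ 0 := Per.prod_perAt_pos.ne'
  have hT0 : (T : ℝ) ≠ 0 := Nat.cast_ne_zero.2 hTo.pos.ne'
  have hC0 : (C : ℝ) ≠ 0 := Nat.cast_ne_zero.2 hodd.pos.ne'
  refine ⟨g, R * (C : ℝ) ^ 2 / (T * Φ), hg, S7.half_tower N h hg hg2, hg1, hf,
    Finite.of_subsingleton, unitTwo_of_val fun A hA => ?_, ?_⟩
  · rw [Complex.ofReal_div, Complex.ofReal_mul, Complex.ofReal_mul, Complex.ofReal_pow,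
      Complex.ofReal_natCast, Complex.ofReal_natCast, map_div₀, map_mul, map_mul, map_pow, hRA A hA,
      val_natCast hA hodd, val_natCast hA hTo, val_finprod hA]
    simp
  · have hper : period (E N) = Φ * P := rfl
    rw [hR, hper, hc]
    have e : (R * (C : ℝ) ^ 2 / (T * Φ)) * (((1 : ℕ) : ℝ) * (T : ℝ) / (C : ℝ) ^ 2) =
        R * P / (Φ * P) := by
      field_simp
      simp
    rw [e]
    push_cast
    rfl

end Pool.Agent.Lib.MP_1a91b9_ntT.S9
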