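import Mathlib

/-!
# Abstract group theory for the 2-descent

`G` acts on the abelian group `M` through `a`; the 2-torsion of `M` is
`{0, T₀, T₁, T₀ + T₁}` and `c` is a cocycle with values in the 2-torsion.
-/

set_option autoImplicit false

namespace Pool.Agent.Lib.MP_1a91b9_ntT.S9

open scoped Classical

noncomputable section

/-- The Weil pairing on a group of four elements. -/
def pr {M : Type*} [Zero M] (P Q : M) : ℤˣ := if P = 0 ∨ Q = 0 ∨ P = Q then 1 else -1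

/-- The setting. -/
structure Setting {G M : Type*} [Group G] [AddCommGroup M] (a : G → M →+ M) (T₀ T₁ : M)
    (c : G → M) : Prop where
  one : ∀ x, a 1 x = x
  mul : ∀ g h x, a (g * h) x = a g (a h x)
  ne0 : T₀ ≠ 0
  ne1 : T₁ ≠ 0
  ne01 : T₀ ≠ T₁
  two0 : T₀ + T₀ = 0
  two1 : T₁ + T₁ = 0
  all : ∀ x, x + x = 0 → x = 0 ∨ x = T₀ ∨ x = T₁ ∨ x = T₀ + T₁
  tr : ∀ T, T ≠ 0 → T + T = 0 → ∃ g, a g T₀ = T
  coc : ∀ g h, c (g * h) = c g + a g (c h)
  two : ∀ g, c g + c g = 0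

end

end Pool.Agent.Lib.MP_1a91b9_ntT.S9
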