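import Pool.Agent.Lib.MP_1a91b9_nt.Residue

/-!
# JOB QC: a lower bound for `4 x³ + 1` at a tame place above 3

`v(x) < 1`: the value is 1. `v(x) = 1`: `4x³ + 1 = (x+1)³ + 3x(x² - x - 1)`. If `v(x+1) = 1` the
value is 1 (`v(3) < 1`). If `v(x+1) < 1`: `x² - x - 1 = 1 + (x+1)(x-2)`, value 1, so the second
summand has value `v(3)`, and the first `v(x+1)³`, which is 0 or `exp (3 m)`, different from `v(3)`:
the value of the sum is the maximum (`Valuation.map_add_eq_of_lt_left` etc.), `≥ v(3)`.
-/

set_option autoImplicit false

namespace Pool.Agent.Lib.MP_1a91b9_ntT.S9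

open NumberField IsDedekindDomain WithZero

variable {N : Type*} [Field N] [NumberField N]

theorem tame_bound (v : HeightOneSpectrum (𝓞 N)) (h3 : v.valuation N 3 < 1)
    (ht : ∀ m : ℤ, v.valuation N 3 ≠ exp (3 * m)) (x : v.adicCompletion N)
    (hx : Valued.v x ≤ 1) : v.valuation N 3 ≤ Valued.v (4 * x ^ 3 + 1) := by
  have hnv : ∀ n : ℕ, Valued.v (n : v.adicCompletion N) = v.valuation N (n : N) := by
    intro n
    have h1 := HeightOneSpectrum.valuedAdicCompletion_eq_valuation' v (n : N)
    have h3 : (algebraMap N (v.adicCompletion N) (n : N)) = (n : v.adicCompletion N) :=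
      map_natCast _ n
    rw [← h3, ← h1]
    rfl
  have hv3 : Valued.v (3 : v.adicCompletion N) = v.valuation N 3 := by
    have := hnv 3
    norm_num at this
    exact this
  have hnat : ∀ n : ℕ, Valued.v (n : v.adicCompletion N) ≤ 1 := by
    intro n
    rw [hnv n]
    have := v.valuation_le_one (K := N) (n : 𝓞 N)
    simpa using this
  have h4 : Valued.v (4 : v.adicCompletion N) ≤ 1 := by
    have := hnat 4
    norm_num at this
    exact this
  have h2 : Valued.v (2 : v.adicCompletion N) ≤ 1 := by
    have := hnat 2
    norm_num at this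
    exact this
  rw [← hv3]
  rw [← hv3] at h3
  rcases lt_or_eq_of_le hx with hlt | heq
  · have h5 : Valued.v (4 * x ^ 3 : v.adicCompletion N) < 1 := by
      rw [map_mul, map_pow]
      calc Valued.v (4 : v.adicCompletion N) * Valued.v x ^ 3 ≤ 1 * Valued.v x ^ 3 :=
            mul_le_mul_left h4 _
        _ = Valued.v x ^ 3 := one_mul _
        _ < 1 := pow_lt_one₀ zero_le hlt (by norm_num)
    have h6 : Valued.v (4 * x ^ 3 + 1 : v.adicCompletion N) = 1 := by
      rw [Valuation.map_add_eq_of_lt_right]
      · exact map_one _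
      · rw [map_one]; exact h5
    rw [h6]
    exact h3.le
  · have e1 : (4 * x ^ 3 + 1 : v.adicCompletion N) = (x + 1) ^ 3 + 3 * x * (x ^ 2 - x - 1) := by
      ring
    have hx1 : Valued.v (x + 1) ≤ 1 := by
      refine (Valued.v.map_add x 1).trans ?_
      rw [heq, map_one, max_self]
    have hq : Valued.v (x ^ 2 - x - 1) ≤ 1 := by
      refine (Valued.v.map_sub _ _).trans (max_le ((Valued.v.map_sub _ _).trans (max_le ?_ hx)) ?_)
      · rw [map_pow, heq, one_pow]
      · rw [map_one]
    have h7 : Valued.v (3 * x * (x ^ 2 - x - 1)) ≤ Valued.v (3 : v.adicCompletion N) := by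
      rw [map_mul, map_mul, heq, mul_one]
      calc Valued.v (3 : v.adicCompletion N) * Valued.v (x ^ 2 - x - 1)
          ≤ Valued.v (3 : v.adicCompletion N) * 1 := mul_le_mul_right hq _
        _ = _ := mul_one _
    rw [e1]
    rcases lt_or_eq_of_le hx1 with hl | he
    · have h8 : Valued.v (x ^ 2 - x - 1) = 1 := by
        have e2 : x ^ 2 - x - 1 = (x + 1) * (x - 2) + 1 := by ring
        have h9 : Valued.v ((x + 1) * (x - 2)) < 1 := by
          rw [map_mul]
          have h10 : Valued.v (x - 2) ≤ 1 :=
            (Valued.v.map_sub _ _).trans (max_le hx h2)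
          calc Valued.v (x + 1) * Valued.v (x - 2) ≤ Valued.v (x + 1) * 1 := mul_le_mul_right h10 _
            _ = Valued.v (x + 1) := mul_one _
            _ < 1 := hl
        rw [e2, Valuation.map_add_eq_of_lt_right]
        · exact map_one _
        · rw [map_one]; exact h9
      have h11 : Valued.v (3 * x * (x ^ 2 - x - 1)) = Valued.v (3 : v.adicCompletion N) := by
        rw [map_mul, map_mul, heq, h8, mul_one, mul_one]
      have h12 : Valued.v ((x + 1) ^ 3) ≠ Valued.v (3 * x * (x ^ 2 - x - 1)) := by
        rw [h11, hv3, map_pow]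
        intro h
        by_cases h0 : x + 1 = 0
        · rw [h0, map_zero] at h
          have : v.valuation N 3 = 0 := by rw [← h]; simp
          rw [Valuation.zero_iff] at this
          norm_num at this
        · have h0' : Valued.v (x + 1) ≠ 0 := by
            rw [Valuation.ne_zero_iff]
            exact h0
          apply ht (log (Valued.v (x + 1)))
          rw [← h]
          conv_lhs => rw [← exp_log h0']
          rw [← exp_nsmul]
          congr 1
      rw [Valuation.map_add_of_distinct_val _ h12, h11]
      exact le_max_right _ _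
    · have h13 : Valued.v ((x + 1) ^ 3 + 3 * x * (x ^ 2 - x - 1)) = 1 := by
        rw [Valuation.map_add_eq_of_lt_left]
        · rw [map_pow, he, one_pow]
        · rw [map_pow, he, one_pow]
          exact lt_of_le_of_lt h7 h3
      rw [h13]
      exact h3.le

end Pool.Agent.Lib.MP_1a91b9_ntT.S9
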